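import Pool.Agent.Work.MP_7cb3ca_co.Fn.Ext
import Pool.Agent.Work.MP_7cb3ca_co.Sm.All

/-! The short cycles and the instances for the long cycles give the answer for all cycles. -/

namespace Pool.Agent.Work.MP_7cb3ca_co.Fn

open SimpleGraph

/-- The statement of an instance, for cycles of length at least 22. -/
def Inst (r1 r2 : ℕ) : Prop := ∀ n, 22 ≤ n → ∀ L d, SH n r1 r2 L d → Cyc n L

theorem Inst.mono {r1 r2 r1' r2' : ℕ} (h : Inst r1 r2) (h1 : r1 ≤ r1') (h2 : r2' ≤ r2) :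
    Inst r1' r2' := fun n hn L d k => h n hn L d (k.mono h1 h2)

theorem all_of (H : ∀ r, 1 ≤ r → Inst r r) (n : ℕ) (hn : 3 ≤ n) :
    (∀ L : Fin n → Set ℕ, (∀ v, 3 ≤ (L v).encard) → ∃ c : Fin n → ℕ, (∀ v, c v ∈ L v) ∧
      ∀ (u v : Fin n) (p : (cycleGraph n).Walk u v) (m : ℕ), p.IsPath → 1 ≤ m →
        p.length + 1 = 2 * m → ¬ ∀ i < m, c (p.getVert i) = c (p.getVert (i + m))) ↔
      n ∉ ({5, 7, 9, 10, 14, 17} : Set ℕ) := by
  refine full hn fun hS r h1 _ => ?_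
  rcases Nat.lt_or_ge n 22 with k | k
  · exact seam_of_short (Sm.short_all n hn (by omega) hS) r r
  · exact seam_of_sh (by omega) h1 (H r h1 n k)

/-- The instances in a list cover the final runs below `R`. -/
theorem inst_all (D : List (ℕ × ℕ)) (R : ℕ)
    (hc : ∀ r < R, 1 ≤ r → ∃ x ∈ D, x.1 ≤ r ∧ r ≤ x.2) (H : ∀ x ∈ D, Inst x.1 x.2)
    (HR : ∀ r2, Inst R r2) (r : ℕ) (h1 : 1 ≤ r) : Inst r r := by
  rcases Nat.lt_or_ge r R with k | k
  · obtain ⟨x, hx, a, b⟩ := hc r k h1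
    exact (H x hx).mono a b
  · exact (HR r).mono k le_rfl

theorem inst_seven (h1 : Inst 1 1) (h2 : Inst 2 2) (h3 : Inst 3 3) (h4 : Inst 4 4)
    (h5 : Inst 5 5) (h6 : Inst 6 7) (h8 : ∀ r2, Inst 8 r2) (r : ℕ) (hr : 1 ≤ r) : Inst r r :=
  inst_all [(1, 1), (2, 2), (3, 3), (4, 4), (5, 5), (6, 7)] 8 (by decide)
    (by simp only [List.forall_mem_cons]; exact ⟨h1, h2, h3, h4, h5, h6, by simp⟩) h8 r hr

end Pool.Agent.Work.MP_7cb3ca_co.Fn
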