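import Pool.Agent.Work.MP_7cb3ca_co.P3.Cyc
import Pool.Agent.Work.MP_7cb3ca_co.Cu.Pos
import Pool.Agent.Work.MP_7cb3ca_co.Cu.Neg
import Pool.Agent.Work.MP_7cb3ca_co.Sm.Sound

/-! Reduction of the choosability of cycles to lists that are cut at the end of a longest run. -/

namespace Pool.Agent.Work.MP_7cb3ca_co.Fn

open SimpleGraph

/-- The circular word `v 0, ..., v (n - 1)` has no square. -/
def Nr (n : ℕ) (v : ℕ → ℕ) : Prop :=
  ∀ p s, 1 ≤ p → 2 * p ≤ n → s < n → ∃ t < p, v ((s + t) % n) ≠ v ((s + t + p) % n)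

/-- The lists admit a circular word without a square. -/
def Cyc (n : ℕ) (L : ℕ → Finset ℕ) : Prop := ∃ v : ℕ → ℕ, (∀ j < n, v j ∈ L j) ∧ Nr n v

/-- Lists of three colours whose last `r1` members are equal, without `r2 + 1` equal neighbours,
and with a colour of the first list outside the last list. -/
def Seam (n r1 r2 : ℕ) : Prop :=
  ∀ (L : ℕ → Finset ℕ) (d : ℕ), (∀ j < n, (L j).card = 3) → d ∈ L 0 → d ∉ L (n - 1) →
    (∀ i < r1, L (n - 1 - i) = L (n - 1)) →
    (∀ s, s + r2 < n → ¬ ∀ i ≤ r2, L (s + i) = L s) → Cyc n L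

theorem Seam.mono {n r1 r2 r : ℕ} (h : Seam n r1 r2) (h1 : r1 ≤ r) (h2 : r ≤ r2) : Seam n r r :=
  fun L d a b c e f => h L d a b c (fun i hi => e i (by omega))
    fun s hs k => f s (by omega) fun i hi => k i (by omega)

theorem seam_of_short {n : ℕ} (h : Sm.Short n) (r1 r2 : ℕ) : Seam n r1 r2 :=
  fun L d a b c _ _ => h L d (fun j hj => (a j hj).ge) b c

theorem Nr.shift {n : ℕ} {v : ℕ → ℕ} (h : Nr n v) (b : ℕ) : Nr n fun j => v ((j + b) % n) := by
  intro p s hp hn hs
  obtain ⟨t, h1, h2⟩ := h p ((s + b) % n) hp hn (Nat.mod_lt _ (by omega))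
  refine ⟨t, h1, ?_⟩
  simp only [Nat.mod_add_mod, add_assoc] at h2 ⊢
  rwa [add_comm t b, show t + (p + b) = b + (t + p) by omega]

theorem nr_iff {w : List ℕ} (h0 : 0 < w.length) :
    Cu.CSF w ↔ Nr w.length fun i => w.getD i 0 := by
  have e : ∀ s i, i < w.length → (w.rotate s)[i]? = some (w.getD ((s + i) % w.length) 0) := by
    intro s i hi
    have := Nat.mod_lt (s + i) h0
    rw [List.getElem?_rotate hi, add_comm i s, List.getD_eq_getElem _ _ this,
      List.getElem?_eq_getElem this]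
  rw [Cu.csf_iff_start]
  constructor
  · intro h p s hp hn _
    by_contra hc
    push Not at hc
    have h1 : ((w.rotate s).take p).length = p := by simp; omega
    have h2 := h s ((w.rotate s).take p) (((w.rotate s).drop p).drop p) (by
      have h3 : (w.rotate s).take p = ((w.rotate s).drop p).take p := by
        refine List.ext_getElem? fun i => ?_
        simp only [List.getElem?_take, List.getElem?_drop]
        split_ifs with hi
        · rw [e s i (by omega), e s (p + i) (by omega), hc i hi, show s + i + p = s + (p + i) by omega]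
        · rfl
      conv_rhs => arg 2; rw [h3, List.take_append_drop]
      rw [List.take_append_drop])
    rw [h2] at h1
    simp at h1
    omega
  · intro h s X C hX
    by_contra hc
    have h1 : 0 < X.length := List.length_pos_iff.2 hc
    have h2 : w.length = X.length + (X.length + C.length) := by
      simpa using congrArg List.length hX
    obtain ⟨t, h3, h4⟩ := h X.length (s % w.length) h1 (by omega) (Nat.mod_lt _ h0)
    apply h4
    have h5 := e s t (by omega)
    have h6 := e s (X.length + t) (by omega)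
    rw [hX, List.getElem?_append_left h3] at h5
    rw [hX, List.getElem?_append_right (by omega), add_tsub_cancel_left,
      List.getElem?_append_left h3, h5] at h6
    simp only [Nat.mod_add_mod, add_assoc]
    rw [add_comm t]
    exact Option.some.inj h6

theorem cyc_const {n : ℕ} (hn : 3 ≤ n) (hS : n ∉ [5, 7, 9, 10, 14, 17]) {L : ℕ → Finset ℕ}
    (h3 : (L 0).card = 3) (h : ∀ j < n, L j = L 0) : Cyc n L := by
  obtain ⟨w, rfl, h1, h2⟩ := Cu.exists_csf hn hS
  obtain ⟨x, y, z, a, b, c, e⟩ := Finset.card_eq_three.1 h3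
  have h4 : ∀ j < w.length, w.getD j 0 < 3 := fun j hj => by
    rw [List.getD_eq_getElem _ _ hj]
    exact h1 _ (List.getElem_mem hj)
  refine ⟨fun j => if w.getD j 0 = 0 then x else if w.getD j 0 = 1 then y else z, fun j hj => ?_,
    fun p s hp hl hs => ?_⟩
  · rw [h j hj, e]
    simp only
    split_ifs <;> simp
  · obtain ⟨t, h5, h6⟩ := (nr_iff (by omega)).1 h2 p s hp hl hs
    refine ⟨t, h5, ?_⟩
    have h7 := h4 _ (Nat.mod_lt (s + t) (by omega))
    have h8 := h4 _ (Nat.mod_lt (s + t + p) (by omega))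
    simp only at h6 ⊢
    split_ifs <;> omega

theorem cyc_all {n : ℕ} (hn : 3 ≤ n) (hS : n ∉ [5, 7, 9, 10, 14, 17])
    (H : ∀ r, 1 ≤ r → r < n → Seam n r r) {L : ℕ → Finset ℕ} (h3 : ∀ j < n, (L j).card = 3) :
    Cyc n L := by
  classical
  by_cases hc : ∀ j < n, L j = L 0
  · exact cyc_const hn hS (h3 0 (by omega)) hc
  have h0 : 0 < n := by omega
  let P : ℕ → Prop := fun r => ¬ ∃ s, ∀ i ≤ r, L ((s + i) % n) = L (s % n)
  have hP : P (n - 1) := by
    rintro ⟨s, hs⟩
    have h1 : ∀ j < n, L j = L (s % n) := fun j hj => by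
      rw [← hs ((j + (n - s % n)) % n) (by have := Nat.mod_lt (j + (n - s % n)) h0; omega),
        Nat.add_mod_mod, ← Nat.mod_add_mod, show s % n + (j + (n - s % n)) = j + n by
          have := Nat.mod_lt s h0; omega, Nat.add_mod_right, Nat.mod_eq_of_lt hj]
    exact hc fun j hj => (h1 j hj).trans (h1 0 h0).symm
  obtain ⟨r, h1, h2, h4, s, h5⟩ : ∃ r, 1 ≤ r ∧ r < n ∧ P r ∧
      ∃ s, ∀ i < r, L ((s + i) % n) = L (s % n) := by
    have a1 := Nat.find_spec (⟨_, hP⟩ : ∃ r, P r)
    have a2 := Nat.find_min' (⟨_, hP⟩ : ∃ r, P r) hP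
    have a3 := fun m => Nat.find_min (⟨_, hP⟩ : ∃ r, P r) (m := m)
    generalize Nat.find (⟨_, hP⟩ : ∃ r, P r) = r at a1 a2 a3
    have a4 : r ≠ 0 := by
      rintro rfl
      exact a1 ⟨0, fun i hi => by obtain rfl : i = 0 := by omega
                                  rfl⟩
    obtain ⟨s, a5⟩ := not_not.1 (a3 (r - 1) (by omega))
    exact ⟨r, by omega, by omega, a1, s, fun i hi => a5 i (by omega)⟩
  have h6 : ∀ i < r, L ((s + r + (n - 1 - i)) % n) = L (s % n) := fun i hi => by
    rw [show s + r + (n - 1 - i) = s + (r - 1 - i) + n by omega, Nat.add_mod_right]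
    exact h5 _ (by omega)
  have h7 : L ((s + r) % n) ≠ L (s % n) := fun e => h4 ⟨s, fun i hi => by
    rcases hi.lt_or_eq with h | rfl
    exacts [h5 i h, e]⟩
  obtain ⟨d, h8, h9⟩ : ∃ d ∈ L ((s + r) % n), d ∉ L (s % n) := by
    by_contra k
    push Not at k
    exact h7 (Finset.eq_of_subset_of_card_le k
      (by rw [h3 _ (Nat.mod_lt _ h0), h3 _ (Nat.mod_lt _ h0)]))
  obtain ⟨v, a1, a2⟩ := H r h1 h2 (fun j => L ((s + r + j) % n)) d
    (fun j _ => h3 _ (Nat.mod_lt _ h0)) h8 (by
      have := h6 0 h1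
      rw [Nat.sub_zero] at this
      simpa only [this] using h9)
    (fun i hi => (h6 i hi).trans (h6 0 h1).symm)
    fun s' _ k => h4 ⟨s + r + s', fun i hi => by simpa only [add_assoc] using k i hi⟩
  refine ⟨_, fun j hj => ?_, a2.shift (n - (s + r) % n)⟩
  have a3 := a1 _ (Nat.mod_lt (j + (n - (s + r) % n)) h0)
  simp only at a3
  rwa [Nat.add_mod_mod, ← Nat.mod_add_mod, show (s + r) % n + (j + (n - (s + r) % n)) = j + n by
    have := Nat.mod_lt (s + r) h0; omega, Nat.add_mod_right, Nat.mod_eq_of_lt hj] at a3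

theorem graph_of_nr {n : ℕ} {f : ℕ → ℕ} (h : Nr (n + 2) f) (u v : Fin (n + 2))
    (p : (cycleGraph (n + 2)).Walk u v) (m : ℕ) (hp : p.IsPath) (hm : 1 ≤ m)
    (hlen : p.length + 1 = 2 * m) : ¬ ∀ i < m, f (p.getVert i) = f (p.getVert (i + m)) := by
  have key : ∀ (u v : Fin (n + 2)) (p : (cycleGraph (n + 2)).Walk u v), p.IsPath →
      p.length + 1 = 2 * m → p.getVert 1 - p.getVert 0 = 1 →
      ¬ ∀ i < m, f (p.getVert i) = f (p.getVert (i + m)) := by
    intro u v p hp hlen h0 hrep
    have h2 : ∀ i ≤ p.length, (p.getVert i).val = (u.val + i) % (n + 2) := by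
      intro i
      induction i with
      | zero => intro _; simp [Nat.mod_eq_of_lt u.2]
      | succ i ih =>
        intro hi
        rw [P3.fin_step (P3.path_up p hp h0 i (by omega)), ih (by omega), Nat.mod_add_mod,
          add_assoc]
    have h3 := hp.length_lt
    rw [Fintype.card_fin] at h3
    obtain ⟨t, h4, h5⟩ := h m u hm (by omega) u.2
    apply h5
    rw [← h2 t (by omega), add_assoc, ← h2 (t + m) (by omega)]
    exact hrep t h4
  intro hrep
  rcases P3.path_dir p hp (by omega) with h0 | h0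
  · exact key u v p hp hlen h0 hrep
  · refine key v u p.reverse hp.reverse (by simpa using hlen) h0 fun i hi => ?_
    rw [Walk.getVert_reverse, Walk.getVert_reverse]
    have := hrep (m - 1 - i) (by omega)
    rw [show p.length - i = m - 1 - i + m by omega, show p.length - (i + m) = m - 1 - i by omega]
    exact this.symm

theorem exists_up {n : ℕ} (k : ℕ) : ∀ u : Fin (n + 2), ∃ (v : Fin (n + 2))
    (p : (cycleGraph (n + 2)).Walk u v), p.length = k ∧
      ∀ i ≤ k, (p.getVert i).val = (u.val + i) % (n + 2) := by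
  induction k with
  | zero =>
    intro u
    refine ⟨u, Walk.nil, rfl, fun i hi => ?_⟩
    obtain rfl : i = 0 := by omega
    simp [Nat.mod_eq_of_lt u.2]
  | succ k ih =>
    intro u
    obtain ⟨v, p, h1, h2⟩ := ih (u + 1)
    refine ⟨v, Walk.cons (cycleGraph_adj.2 (Or.inr (add_sub_cancel_left u 1))) p, by simp [h1],
      fun i hi => ?_⟩
    cases i with
    | zero => simp [Nat.mod_eq_of_lt u.2]
    | succ i =>
      rw [Walk.getVert_cons_succ, h2 i (by omega),
        P3.fin_step (add_sub_cancel_left u 1), Nat.mod_add_mod, add_assoc, add_comm 1 i]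

theorem nr_of_graph {n : ℕ} {f : ℕ → ℕ} (h : ∀ (u v : Fin (n + 2))
    (p : (cycleGraph (n + 2)).Walk u v) (m : ℕ), p.IsPath → 1 ≤ m → p.length + 1 = 2 * m →
      ¬ ∀ i < m, f (p.getVert i) = f (p.getVert (i + m))) : Nr (n + 2) f := by
  intro m s hm hn hs
  obtain ⟨v, p, h1, h2⟩ := exists_up (2 * m - 1) (⟨s, hs⟩ : Fin (n + 2))
  by_contra hc
  push Not at hc
  refine h _ v p m (Walk.IsPath.getVert_injOn_iff p |>.1 fun i hi j hj e => ?_) hm (by omega)
    fun i hi => ?_
  · have h3 : i ≤ 2 * m - 1 := h1 ▸ hi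
    have h4 : j ≤ 2 * m - 1 := h1 ▸ hj
    have h5 := (h2 i h3).symm.trans ((congrArg Fin.val e).trans (h2 j h4))
    exact Nat.ModEq.eq_of_lt_of_lt (Nat.ModEq.add_left_cancel' s h5) (by omega) (by omega)
  · rw [h2 i (by omega), h2 (i + m) (by omega), ← add_assoc]
    exact hc i hi

theorem full {n : ℕ} (hn : 3 ≤ n)
    (H : n ∉ [5, 7, 9, 10, 14, 17] → ∀ r, 1 ≤ r → r < n → Seam n r r) :
    (∀ L : Fin n → Set ℕ, (∀ v, 3 ≤ (L v).encard) → ∃ c : Fin n → ℕ, (∀ v, c v ∈ L v) ∧
      ∀ (u v : Fin n) (p : (cycleGraph n).Walk u v) (m : ℕ), p.IsPath → 1 ≤ m →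
        p.length + 1 = 2 * m → ¬ ∀ i < m, c (p.getVert i) = c (p.getVert (i + m))) ↔
      n ∉ ({5, 7, 9, 10, 14, 17} : Set ℕ) := by
  obtain ⟨n, rfl⟩ : ∃ k, n = k + 2 := ⟨n - 2, by omega⟩
  constructor
  · intro h hS
    obtain ⟨c, h1, h2⟩ := h (fun _ => {0, 1, 2}) fun _ => by
      rw [Set.encard_eq_three.2 ⟨0, 1, 2, by omega, by omega, by omega, rfl⟩]
    have h3 : (List.ofFn c).length = n + 2 := List.length_ofFn
    refine Cu.not_csf (w := List.ofFn c) (by rw [h3]; simpa using hS) (fun x hx => ?_)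
      ((nr_iff (by omega)).2 ?_)
    · obtain ⟨i, rfl⟩ := List.mem_ofFn.1 hx
      have := h1 i
      simp only [Set.mem_insert_iff, Set.mem_singleton_iff] at this
      omega
    · rw [h3]
      refine nr_of_graph fun u v p m a1 a2 a3 a4 => h2 u v p m a1 a2 a3 fun i hi => ?_
      have a5 : ∀ j : Fin (n + 2), (List.ofFn c).getD j 0 = c j := fun j => by
        rw [List.getD_eq_getElem _ _ (h3.symm ▸ j.2), List.getElem_ofFn]
      simpa only [a5] using a4 i hi
  · intro hS L hL
    have hS' : n + 2 ∉ [5, 7, 9, 10, 14, 17] := by simpa using hS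
    have h : ∀ v, ∃ A : Finset ℕ, A.card = 3 ∧ (A : Set ℕ) ⊆ L v := by
      intro v
      obtain ⟨t, ht1, ht2⟩ := Set.exists_subset_encard_eq (hL v)
      have hfin : t.Finite := Set.finite_of_encard_eq_coe ht2
      refine ⟨hfin.toFinset, ?_, by simpa using ht1⟩
      have := hfin.encard_eq_coe_toFinset_card
      rw [ht2] at this
      exact_mod_cast this.symm
    choose A hA1 hA2 using h
    obtain ⟨f, h1, h2⟩ := cyc_all hn hS' (H hS') (L := fun i => A (Fin.ofNat (n + 2) i))
      fun _ _ => hA1 _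
    refine ⟨fun v => f v, fun v => hA2 v ?_, graph_of_nr h2⟩
    simpa using h1 v v.2

end Pool.Agent.Work.MP_7cb3ca_co.Fn
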