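import Pool.Agent.Work.MP_7cb3ca_co.Fn.Events

/-! The charges pay for the new events. -/

namespace Pool.Agent.Work.MP_7cb3ca_co.Fn

open Finset Function

variable {Q : Par} {L : ℕ → Finset ℕ} {n d pre : ℕ} {β : ℕ → ℝ} {top τ : ℝ} {B : Tb}

theorem ev_pos {P : (ℕ → ℕ) → Prop} {F : ℝ} {j t : ℕ} {f : ℕ → ℕ} (h : 0 < ev L β P F j t f) :
    ∃ g, Ext L j t f g ∧ P g := by
  by_contra k
  rw [ev_void j t f fun g a b => k ⟨g, a, b⟩] at h
  exact lt_irrefl _ h

theorem sum_le_cnt {ι : Type} {S : Finset ι} {v : ι → ℝ} (g : ι → ℕ) {k : ℕ} {E : ℝ} (hE : 0 ≤ E)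
    (h : ∀ q ∈ S, 0 < v q → v q ≤ E ∧ g q < k)
    (hi : ∀ q ∈ S, ∀ q' ∈ S, 0 < v q → 0 < v q' → g q = g q' → q = q') :
    ∑ q ∈ S, v q ≤ k * E := by
  classical
  have h1 : ∑ q ∈ S, v q ≤ ∑ q ∈ S with 0 < v q, E := by
    rw [sum_filter]
    refine sum_le_sum fun q hq => ?_
    split_ifs with a
    exacts [(h q hq a).1, not_lt.1 a]
  refine h1.trans ?_
  rw [sum_const, nsmul_eq_mul]
  refine mul_le_mul_of_nonneg_right (Nat.cast_le.2 ?_) hE
  rw [← card_range k]
  refine card_le_card_of_injOn g (fun q hq => ?_) fun q hq q' hq' e => ?_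
  · have := mem_filter.1 (mem_coe.1 hq)
    exact mem_coe.2 (mem_range.2 (h q this.1 this.2).2)
  · have a := mem_filter.1 (mem_coe.1 hq)
    have b := mem_filter.1 (mem_coe.1 hq')
    exact hi q a.1 q' b.1 a.2 b.2 e

theorem sum_le_one {ι : Type} {S : Finset ι} {v : ι → ℝ} {E : ℝ} (hE : 0 ≤ E)
    (h : ∀ q ∈ S, 0 < v q → v q ≤ E) (hi : ∀ q ∈ S, ∀ q' ∈ S, 0 < v q → 0 < v q' → q = q') :
    ∑ q ∈ S, v q ≤ E := by
  simpa using sum_le_cnt (fun _ => 0) (k := 1) hE (fun q a b => ⟨h q a b, one_pos⟩)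
    fun q a q' b c e _ => hi q a q' b c e

theorem sum_le_zero {ι : Type} {S : Finset ι} {v : ι → ℝ} (h : ∀ q ∈ S, ¬ 0 < v q) :
    ∑ q ∈ S, v q ≤ 0 := sum_nonpos fun q hq => not_lt.1 (h q hq)

theorem ite_pos' {c : Prop} [Decidable c] {a : ℝ} (h : 0 < if c then a else 0) : c ∧ 0 < a := by
  split_ifs at h with k
  exacts [⟨k, h⟩, absurd h (lt_irrefl _)]

theorem term_le (C : Chg Q L n d pre β top τ B) (hβ : ∀ t, 0 < β t) {P : (ℕ → ℕ) → Prop} {s : ℕ}
    {f : ℕ → ℕ} (h1 : n < 2 * s) (h2 : s ≤ n)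
    (h : ∀ g g', (∀ i < s, g i = g' i) → P g → P g' → ∀ i, s ≤ i → i < n → g i = g' i) :
    ev L β P τ (n - s) s f ≤ B.E s := by
  have := ev_le (L := L) (P := P) (F := τ) hβ (n - s) s f (fun i => B.E (n - i))
    (fun i => (C.nn 0 _).1) C.e1 (fun i hi => by
      have := C.e2 (n - (i + 1)) (by omega) (by omega)
      rwa [show n - (i + 1) + 1 = n - i by omega,
        show β (n - (i + 1)) = β (s + (n - s - 1 - i)) from congrArg β (by omega)] at this)
    fun g g' a b c e i k k' => h g g'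
      (fun i hi => (a.1 i (Or.inl hi)).trans (b.1 i (Or.inl hi)).symm) c e i k (by omega)
  rwa [show n - (n - s) = s by omega] at this

/-- The value of an event at time `s`. -/
noncomputable def Par.v (Q : Par) (L : ℕ → Finset ℕ) (n d : ℕ) (β : ℕ → ℝ) (top τ : ℝ) (B : Tb)
    (s : ℕ) (f : ℕ → ℕ) (E : Ix) : ℝ :=
  ev L β (Q.P n d E) (Q.F top τ B E) (Q.T n E - s) s f

section

variable (C : Chg Q L n d pre β top τ B) (hβ : ∀ t, 0 < β t) {s : ℕ} {f : ℕ → ℕ}
include C hβ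

theorem v1_le {p b : ℕ} (hb : b ≤ p) (hp : 2 * p < n) (h1 : n - p < s) (h2 : s ≤ n) :
    Q.v L n d β top τ B s f (.inl (p, b)) ≤ B.E s := by
  refine term_le C hβ (by omega) h2 fun g g' a c e i k k' => ?_
  by_cases h : i < n - p + b
  · have c1 := c.1 (i - (n - p)) (by omega)
    have e1 := e.1 (i - (n - p)) (by omega)
    rw [show n - p + (i - (n - p)) = i by omega] at c1 e1
    rw [c1, e1, a _ (by omega)]
  · have c1 := c.2 (n - 1 - i) (by omega)
    have e1 := e.2 (n - 1 - i) (by omega)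
    rw [show n - 1 - (n - 1 - i) = i by omega] at c1 e1
    rw [c1, e1, a _ (by omega)]

theorem v2_le (hQ : Q.OK) {p z : ℕ} (hE : .inr (.inl (p, z)) ∈ Q.S L n pre) (h0 : 2 ≤ s)
    (h1 : p < s) (h2 : s ≤ p + 1 + Q.μ p z)
    (h3 : Q.μ p z ≠ if Q.late p z = true then 1 else 0) :
    Q.v L n d β top τ B s f (.inr (.inl (p, z))) ≤ B.U (p + 1 + Q.μ p z - s) s := by
  obtain ⟨a1, a2, a3, -⟩ := Par.mem2.1 hE
  have a4 := hQ.lt p z a1 a2
  have := ev_le (L := L) (P := Q.P n d (.inr (.inl (p, z)))) (F := B.U 0 (p + 1 + Q.μ p z)) hβ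
    (p + 1 + Q.μ p z - s) s f (fun i => B.U i (p + 1 + Q.μ p z - i))
    (fun i => (C.nn _ _).2.1) le_rfl (fun i hi => by
      have := C.u1 i (p + 1 + Q.μ p z - (i + 1)) (by omega) (by omega) (by omega)
      rwa [show p + 1 + Q.μ p z - (i + 1) + 1 = p + 1 + Q.μ p z - i by omega,
        show β (p + 1 + Q.μ p z - (i + 1)) = β (s + (p + 1 + Q.μ p z - s - 1 - i)) from
          congrArg β (by omega)] at this)
    fun g g' a b c e i k k' => by
      have c1 := c.2 (i - p) (by omega)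
      have e1 := e.2 (i - p) (by omega)
      rw [show p + (i - p) = i by omega] at c1 e1
      rw [c1, e1, a.1 _ (by omega), b.1 _ (by omega)]
  rw [show p + 1 + Q.μ p z - (p + 1 + Q.μ p z - s) = s by omega] at this
  simpa only [Par.v, Par.F, Par.T, if_neg h3] using this

theorem v3_le {a : ℕ} (ha : 1 ≤ a) (hp : 2 * (a + 1) < n) :
    Q.v L n d β top τ B (n - a + 1) f (.inr (.inr (.inl a))) ≤ B.E (n - a + 1) := by
  refine term_le C hβ (by omega) (by omega) fun g g' b c e i k k' => ?_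
  have c1 := c.2 (i - (n - a)) (by omega)
  have e1 := e.2 (i - (n - a)) (by omega)
  rw [show n - a + (i - (n - a)) = i by omega] at c1 e1
  rw [c1, e1, b _ (by omega)]

theorem v4_le {i : ℕ} (hp : 2 * (Q.α i + 1) < n) :
    Q.v L n d β top τ B (n - Q.α i) f (.inr (.inr (.inr i))) ≤ B.E (n - Q.α i) := by
  refine term_le C hβ (by omega) (by omega) ?_
  rintro g g' b ⟨p, c1, c2, c3, c4, c5, c6⟩ ⟨p', e1, e2, e3, e4, e5, e6⟩ j k k'
  have key : ∀ {p p' : ℕ} {g : ℕ → ℕ}, p / (Q.r + 1) = p' / (Q.r + 1) → g p = d →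
      zeta Q.r g d p' = Q.r → ¬ p < p' := fun {p p' g} a1 a2 a3 a4 => by
    have a5 := Nat.div_add_mod p (Q.r + 1)
    have a6 := Nat.div_add_mod p' (Q.r + 1)
    have a7 := Nat.mod_lt p' (show 0 < Q.r + 1 by omega)
    rw [a1] at a5
    exact (zeta_spec Q.r g d p').1 (p' - 1 - p) (by omega)
      (by rwa [show p' - 1 - (p' - 1 - p) = p by omega])
  have a1 := key (c1.trans e1.symm) ((b p (by omega)).symm.trans c4) e5
  have a2 := key (e1.trans c1.symm) ((b p' (by omega)).trans e4) c5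
  obtain rfl : p = p' := by omega
  have c7 := c6 (n - 1 - j) (by omega)
  have e7 := e6 (n - 1 - j) (by omega)
  rw [show n - 1 - (n - 1 - j) = j by omega] at c7 e7
  rw [c7, e7, b _ (by omega)]

end

theorem v2_top (htop : 0 ≤ top) {p z : ℕ} {f : ℕ → ℕ}
    (h3 : Q.μ p z = if Q.late p z = true then 1 else 0) :
    Q.v L n d β top τ B (p + 1 + Q.μ p z) f (.inr (.inl (p, z))) ≤ top := by
  simp only [Par.v, Par.F, Par.T, if_pos h3, tsub_self, ev]
  split_ifs
  exacts [le_rfl, htop]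

theorem II_zeta (hL : ∀ j < n, (L j).card = 3) (hd : d ∉ L (n - 1))
    (hr : ∀ i < Q.r, L (n - 1 - i) = L (n - 1)) {p b s : ℕ} {f g : ℕ → ℕ} (hb : 1 ≤ b)
    (hb' : b ≤ p) (hp : 2 * p < n) (h1 : n - p < s) (h2 : s ≤ n - p + b)
    (a : Ext L (n - s) s f g) (c : CrII n g p b) : min (p - b) Q.r ≤ zeta Q.r f d (n - p) := by
  refine le_zeta (hL (n - 1) (by omega)) hd (by omega) fun i hi => ?_
  rw [← a.1 _ (Or.inl (by omega)), ← c.2 i (by omega), ← hr i (by omega)]
  exact a.2 _ (by omega) (by omega)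

/-- The hypotheses on the lists, the parameters and the tables. -/
structure Hyp (Q : Par) (L : ℕ → Finset ℕ) (n d pre : ℕ) (β : ℕ → ℝ) (top τ : ℝ) (B : Tb) :
    Prop where
  ok : Q.OK
  chg : Chg Q L n d pre β top τ B
  pos : ∀ t, 0 < β t
  top : 0 ≤ top
  card : ∀ j < n, (L j).card = 3
  out : d ∉ L (n - 1)
  run : ∀ i < Q.r, L (n - 1 - i) = L (n - 1)

theorem new_cases (H : Hyp Q L n d pre β top τ B) {t x : ℕ} {f : ℕ → ℕ} (h2 : 2 ≤ t) (hn : t < n)
    (h0 : f 0 = d) (h1 : f 1 ≠ d) (hf : f (t - 1) ∈ L (t - 1)) (hx : x ∈ L t) {E : Ix}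
    (hE : E ∈ Q.S L n pre) (hc : Q.c n E = t + 1) {y : ℝ}
    (hy : y = Q.v L n d β top τ B (t + 1) (update f t x) E) (hv : 0 < y) :
    (∃ b, E = .inl (n - t, b) ∧ 1 ≤ b ∧ b ≤ n - t ∧ (Q.two = true → b = 1) ∧ n < 2 * t ∧ x = d ∧
      min (n - t - b) Q.r ≤ zeta Q.r f d t ∧ y ≤ B.E (t + 1)) ∨
    (∃ b, E = .inl (n - t + 1, b) ∧ 2 ≤ b ∧ b ≤ n - t + 1 ∧ Q.two = true ∧ n < 2 * (t - 1) ∧
      x = f 1 ∧ f (t - 1) = d ∧ min (n - t + 1 - b) Q.r ≤ zeta Q.r f d (t - 1) ∧
      y ≤ B.E (t + 1)) ∨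
    (E = .inr (.inl (t, zeta Q.r f d t)) ∧ Q.late t (zeta Q.r f d t) = false ∧ 2 * t < n ∧ x = d ∧
      y ≤ B.S1 (zeta Q.r f d t) (t + 1)) ∨
    (E = .inr (.inl (t - 1, zeta Q.r f d (t - 1))) ∧ Q.late (t - 1) (zeta Q.r f d (t - 1)) = true ∧
      2 * (t - 1) < n ∧ x = f 1 ∧ f (t - 1) = d ∧ y ≤ B.S3 (zeta Q.r f d (t - 1)) (t + 1)) ∨
    (E = .inr (.inr (.inl (n - t))) ∧ Q.nr (n - t) = true ∧ x = f 1 ∧
      ∀ z ≤ Q.r, y ≤ if Q.two = true then B.S2 (t + 1) else B.SN (fam Q.r f d) z (t + 1)) ∨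
    ∃ i, E = .inr (.inr (.inr i)) ∧ Q.live i ∧ Q.α i = n - (t + 1) ∧
      ∀ z ≤ Q.r, y ≤ B.BL z (t + 1) := by
  have C := H.chg
  obtain ⟨g, a, hP⟩ := ev_pos (hy ▸ hv : 0 < Q.v L n d β top τ B (t + 1) (update f t x) E)
  have g1 : ∀ i < t, g i = f i := fun i hi => by
    rw [a.1 i (Or.inl (by omega)), update_of_ne (by omega)]
  have g2 : g t = x := by rw [a.1 t (Or.inl (by omega)), update_self]
  have g3 : ∀ p, 1 ≤ p → p ≤ t → zeta Q.r (update f t x) d p = zeta Q.r f d p := fun p k k' =>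
    zeta_congr _ _ k fun i hi => update_of_ne (by omega) _ _
  have g4 : ∀ p, 1 ≤ p → p ≤ t → zeta Q.r g d p = zeta Q.r f d p := fun p k k' =>
    zeta_congr _ _ k fun i hi => g1 i (by omega)
  rcases E with ⟨p, b⟩ | ⟨p, z⟩ | p | i
  · obtain ⟨a1, a2, a3, a4⟩ := Par.mem1.1 hE
    simp only [Par.c] at hc
    have a5 := fun k k' => II_zeta H.card H.out H.run (s := t + 1) a1 a2 a4 k k' a hP
    have a6 := fun k => hy ▸ v1_le C H.pos (s := t + 1) (f := update f t x) a2 a4 k hn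
    have a7 := hP.1 0 a1
    split_ifs at hc with k
    · obtain rfl : p = n - t + 1 := by omega
      have a8 := hP.1 1 k.2
      rw [show n - (n - t + 1) = t - 1 by omega] at a5 a6 a7 a8
      rw [show t - 1 + 1 = t by omega, g2, g1 1 (by omega)] at a8
      rw [add_zero, g1 _ (by omega), g1 _ (by omega), h0] at a7
      rw [g3 _ (by omega) (by omega)] at a5
      exact Or.inr (Or.inl ⟨b, rfl, k.2, a2, k.1, by omega, a8, a7, a5 (by omega) (by omega),
        a6 (by omega)⟩)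
    · obtain rfl : p = n - t := by omega
      rw [show n - (n - t) = t by omega] at a5 a6 a7
      rw [add_zero, g2, g1 _ (by omega), h0] at a7
      rw [g3 _ (by omega) le_rfl] at a5
      exact Or.inl ⟨b, rfl, a1, a2, fun k' => by have := mt (And.intro k') k; omega, by omega, a7,
        a5 (by omega) (by omega), a6 (by omega)⟩
  · obtain ⟨a1, a2, a3, a4⟩ := Par.mem2.1 hE
    simp only [Par.c] at hc
    have a5 := hP.2 0 (Nat.zero_le _)
    have a6 := hP.1
    split_ifs at hc with k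
    · obtain rfl : p = t - 1 := by omega
      have a7 := (H.ok.late _ _ k).2
      have a8 := hP.2 1 a7
      rw [show t - 1 + 1 = t by omega, g2, g1 1 (by omega)] at a8
      rw [add_zero, g1 _ (by omega), g1 _ (by omega), h0] at a5
      rw [g4 _ (by omega) (by omega)] at a6
      subst a6
      have a9 : t - 1 ≠ 1 := fun e => h1 (e ▸ a5)
      have b1 := C.b3 (t - 1) _ (by omega) a3 a1 a2 (a5 ▸ hf) k a4
      rw [show t - 1 + 2 = t + 1 by omega] at b1
      refine Or.inr (Or.inr (Or.inr (Or.inl ⟨rfl, k, a3, a8, a5, le_trans ?_ b1⟩)))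
      split_ifs with k'
      · have := v2_top (L := L) (n := n) (d := d) (β := β) (τ := τ) (B := B) H.top
          (f := update f t x) (k'.trans (if_pos k).symm)
        rwa [k', show t - 1 + 1 + 1 = t + 1 by omega, ← hy] at this
      · have := v2_le C H.pos (s := t + 1) (f := update f t x) H.ok hE (by omega) (by omega)
          (by omega) (by rwa [if_pos k])
        rwa [← hy, show ∀ m, t - 1 + 1 + m - (t + 1) = m - 1 by omega] at this
    · obtain rfl : p = t := by omega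
      rw [add_zero, g2, g1 _ (by omega), h0] at a5
      rw [g4 _ (by omega) le_rfl] at a6
      subst a6
      have b1 := C.b1 p _ h2 a3 a1 a2 (a5 ▸ hx) (by simpa using k) a4
      refine Or.inr (Or.inr (Or.inl ⟨rfl, by simpa using k, a3, a5, le_trans ?_ b1⟩))
      split_ifs with k'
      · have := v2_top (L := L) (n := n) (d := d) (β := β) (τ := τ) (B := B) H.top
          (f := update f p x) (k'.trans (if_neg k).symm)
        rwa [k', add_zero, ← hy] at this
      · have := v2_le C H.pos (s := p + 1) (f := update f p x) H.ok hE (by omega) (by omega)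
          (by omega) (by rwa [if_neg k])
        rwa [← hy, add_tsub_cancel_left] at this
  · obtain ⟨a1, a2, a3⟩ := Par.mem3.1 hE
    simp only [Par.c] at hc
    obtain rfl : p = n - t := by omega
    have a4 := hP.2 0 a1
    have a5 := v3_le (f := update f t x) C H.pos a1 a3
    have a6 := fun z => C.nr _ z a1 a2 a3
    rw [show n - (n - t) = t by omega] at a4 a5 a6
    rw [add_zero, g2, g1 _ (by omega)] at a4
    refine Or.inr (Or.inr (Or.inr (Or.inr (Or.inl
      ⟨rfl, a2, a4, fun z hz => hy ▸ (a5.trans (a6 z hz)).trans ?_⟩))))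
    split_ifs with k
    · rfl
    obtain ⟨b1, b2⟩ := H.ok.ke (by simpa using k)
    have b3 := b2 _ a2
    rw [fam_eq (a := n - t) (by omega) ((g1 _ (by omega)).symm.trans hP.1) fun i hi e => ?_]
    have b4 := H.run (n - 1 - (t + i)) (by omega)
    have b5 := hP.2 i hi
    rw [show n - 1 - (n - 1 - (t + i)) = t + i by omega] at b4
    rw [show n - (n - t) = t by omega, g1 (1 + i) (by omega), e] at b5
    refine H.out (b4 ▸ b5 ▸ ?_)
    rcases Nat.eq_zero_or_pos i with rfl | k'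
    · exact g2.symm ▸ hx
    · exact a.2 _ (by omega) (by simp only [Par.T]; omega)
  · obtain ⟨-, a2, a3⟩ := Par.mem4.1 hE
    simp only [Par.c] at hc
    have a5 := v4_le (f := update f t x) C H.pos a3
    have a6 := fun z => C.far i z a2 a3
    rw [hc] at a5 a6
    exact Or.inr (Or.inr (Or.inr (Or.inr (Or.inr
      ⟨i, rfl, a2, by omega, fun z hz => hy ▸ a5.trans (a6 z hz)⟩))))

/-- The table that pays for an event. -/
def Par.slot (Q : Par) : Ix → ℕ
  | .inl (_, b) => if Q.two = true ∧ 2 ≤ b then 3 else 1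
  | .inr (.inl (p, z)) => if Q.late p z = true then 3 else 1
  | .inr (.inr (.inl _)) => if Q.two = true then 2 else 1
  | .inr (.inr (.inr _)) => 0

/-- The period of an event minus the number of letters after the seam. -/
def Par.gap : Ix → ℕ
  | .inl (p, b) => p - b
  | _ => 0

theorem new_le (H : Hyp Q L n d pre β top τ B) {t x z0 z : ℕ} {f : ℕ → ℕ} (h2 : 2 ≤ t)
    (hn : t < n) (h0 : f 0 = d) (h1 : f 1 ≠ d) (hf : f (t - 1) ∈ L (t - 1)) (hx : x ∈ L t)
    (hz0 : z0 ≤ Q.r) (hz : z ≤ Q.r) (hz' : x = d → z = zeta Q.r f d t) :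
    ∑ E ∈ Q.S L n pre with Q.c n E = t + 1, Q.v L n d β top τ B (t + 1) (update f t x) E ≤
      B.BL z0 (t + 1) + lab Q B n d t f x z := by
  have C := H.chg
  obtain ⟨w, hw⟩ : ∃ w : ℕ → Ix → ℝ, ∀ j E, w j E =
    if Q.slot E = j then Q.v L n d β top τ B (t + 1) (update f t x) E else 0 := ⟨_, fun _ _ => rfl⟩
  have key := fun j E (hE : E ∈ (Q.S L n pre).filter fun E => Q.c n E = t + 1) (h : 0 < w j E) =>
    And.intro (ite_pos' (hw j E ▸ h)).1 (new_cases H h2 hn h0 h1 hf hx (mem_filter.1 hE).1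
      (mem_filter.1 hE).2 ((hw j E).trans (if_pos (ite_pos' (hw j E ▸ h)).1)) h)
  have e : ∀ E, Q.v L n d β top τ B (t + 1) (update f t x) E = w 0 E + (w 1 E + (w 2 E + w 3 E)) :=
    fun E => by
      have : Q.slot E ≤ 3 := by
        rcases E with ⟨p, b⟩ | ⟨p, z⟩ | p | i <;> simp only [Par.slot] <;>
          first | omega | (split_ifs <;> omega)
      simp only [hw]
      generalize Q.slot E = j at this
      interval_cases j <;> simp
  have z1 := zeta_le Q.r f d t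
  have z2 := zeta_le Q.r f d (t - 1)
  simp only [e, sum_add_distrib]
  refine add_le_add (sum_le_one (C.nn _ _).2.2.1 (fun E hE h => ?_) fun E hE E' hE' h h' => ?_)
    (add_le_add ?_ ?_)
  · obtain ⟨k, ⟨b, rfl, -⟩ | ⟨b, rfl, -⟩ | ⟨rfl, -⟩ | ⟨rfl, -⟩ | ⟨rfl, -⟩ | ⟨i, rfl, a⟩⟩ :=
      key 0 E hE h
    iterate 5 simp only [Par.slot] at k; split_ifs at k <;> omega
    exact a.2.2 z0 hz0
  · obtain ⟨k, ⟨b, rfl, -⟩ | ⟨b, rfl, -⟩ | ⟨rfl, -⟩ | ⟨rfl, -⟩ | ⟨rfl, -⟩ | ⟨i, rfl, a⟩⟩ :=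
      key 0 E hE h
    iterate 5 simp only [Par.slot] at k; split_ifs at k <;> omega
    obtain ⟨k, ⟨b, rfl, -⟩ | ⟨b, rfl, -⟩ | ⟨rfl, -⟩ | ⟨rfl, -⟩ | ⟨rfl, -⟩ | ⟨i', rfl, a'⟩⟩ :=
      key 0 E' hE' h'
    iterate 5 simp only [Par.slot] at k; split_ifs at k <;> omega
    rw [H.ok.inj i i' a.1 a'.1 (a.2.1.trans a'.2.1.symm)]
  · have k1 := fun E hE h => (fun ⟨k, k'⟩ => by
      rcases k' with a | ⟨b, rfl, a⟩ | a | ⟨rfl, a⟩ | ⟨rfl, a⟩ | ⟨i, rfl, a⟩
      · exact Or.inl a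
      · simp [Par.slot, a.1, a.2.2.1] at k
      · exact Or.inr (Or.inl a)
      · simp [Par.slot, a.1] at k
      · have : Q.two = false := by simpa [Par.slot] using k
        exact Or.inr (Or.inr ⟨rfl, this, a.1, a.2.1, by simpa [this] using a.2.2 z hz⟩)
      · simp [Par.slot] at k : _ ∧ _ → _ ∨ _ ∨ (E = .inr (.inr (.inl (n - t))) ∧ Q.two = false ∧
        Q.nr (n - t) = true ∧ x = f 1 ∧ w 1 E ≤ B.SN (fam Q.r f d) z (t + 1))) (key 1 E hE h)
    by_cases hd : x = d
    · have a1 : Q.two = true ∨ Q.ke < n - t := by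
        by_contra k
        rw [not_or, Bool.not_eq_true] at k
        have := (H.ok.ke k.1).1
        have a2 := H.run (n - 1 - t) (by omega)
        rw [show n - 1 - (n - 1 - t) = t by omega] at a2
        exact H.out (a2 ▸ hd ▸ hx)
      rw [if_pos a1, if_pos hd, hz' hd]
      by_cases ht : n < 2 * t
      · have k2 := fun E hE h => (k1 E hE h).resolve_right fun a => a.elim (fun a => by omega)
          fun a => h1 (a.2.2.2.1.symm.trans hd)
        refine le_trans (sum_le_cnt (fun E => if Q.two = true then 0 else Par.gap E) (C.nn 0 _).1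
          (fun E hE h => ?_) fun E hE E' hE' h h' k => ?_) (C.s1 t _ ht hn z1 (hd ▸ hx))
        · obtain ⟨b, rfl, a2, a3, a4, -, -, a5, a6⟩ := k2 E hE h
          refine ⟨a6, ?_⟩
          simp only [Par.gap, Par.cnt1]
          by_cases k : Q.two = true
          · have := a4 k
            rw [if_pos k, if_pos k, if_pos (by omega)]
            omega
          · rw [if_neg k, if_neg k]
            split_ifs <;> omega
        · obtain ⟨b, rfl, a2, a3, a4, -⟩ := k2 E hE h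
          obtain ⟨b', rfl, b2, b3, b4, -⟩ := k2 E' hE' h'
          simp only [Par.gap] at k
          split_ifs at k with k'
          · rw [a4 k', b4 k']
          · rw [show b = b' by omega]
      · refine sum_le_one (C.nn _ _).2.2.2.1 (fun E hE h => ?_) fun E hE E' hE' h h' => ?_
        · obtain ⟨b, rfl, a⟩ | a | a := k1 E hE h
          · omega
          · exact a.2.2.2.2
          · exact absurd (a.2.2.2.1.symm.trans hd) h1
        · obtain ⟨b, rfl, a⟩ | a | a := k1 E hE h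
          · omega
          · obtain ⟨b, rfl, a'⟩ | a' | a' := k1 E' hE' h'
            · omega
            · rw [a.1, a'.1]
            · exact absurd (a'.2.2.2.1.symm.trans hd) h1
          · exact absurd (a.2.2.2.1.symm.trans hd) h1
    · have k2 := fun E hE h => ((k1 E hE h).resolve_left fun ⟨b, a⟩ => hd a.2.2.2.2.2.1).resolve_left
        fun a => hd a.2.2.2.1
      refine sum_le_one (ite_nonneg (ite_nonneg (C.nn _ _).2.2.2.1 le_rfl)
        (ite_nonneg (C.nn' _ _ _) le_rfl)) (fun E hE h => ?_)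
        fun E hE E' hE' h h' => (k2 E hE h).1.trans (k2 E' hE' h').1.symm
      obtain ⟨-, a1, a2, a3, a4⟩ := k2 E hE h
      have := (H.ok.ke a1).2 _ a2
      rwa [if_neg (show ¬ (Q.two = true ∨ Q.ke < n - t) by simp [a1, this]), if_pos a3]
  · have k2 := fun E hE h => (fun ⟨k, k'⟩ => by
      rcases k' with ⟨b, rfl, a⟩ | ⟨b, rfl, a⟩ | ⟨rfl, a⟩ | ⟨rfl, a⟩ | ⟨rfl, a⟩ | ⟨i, rfl, a⟩
      iterate 4 simp only [Par.slot] at k; split_ifs at k <;> omega
      · have : Q.two = true := by simpa [Par.slot] using k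
        exact ⟨rfl, ⟨this, a.2.1⟩, by simpa [this] using a.2.2 z hz⟩
      · simp [Par.slot] at k : _ ∧ _ → (E = .inr (.inr (.inl (n - t))) ∧ (Q.two = true ∧ x = f 1) ∧
        w 2 E ≤ B.S2 (t + 1))) (key 2 E hE h)
    have k3 := fun E hE h => (fun ⟨k, k'⟩ => by
      rcases k' with ⟨b, rfl, a⟩ | a | ⟨rfl, a⟩ | a | ⟨rfl, a⟩ | ⟨i, rfl, a⟩
      · simp only [Par.slot] at k
        split_ifs at k with k'
        · have := a.2.2.1 k'.1; omega
        · omega
      · exact Or.inl a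
      · simp [Par.slot, a.1] at k
      · exact Or.inr a
      · simp only [Par.slot] at k; split_ifs at k <;> omega
      · simp [Par.slot] at k : _ ∧ _ → _ ∨ _) (key 3 E hE h)
    by_cases a1 : Q.two = true ∧ x = f 1
    swap
    · rw [if_neg a1]
      refine add_nonpos (sum_le_zero fun E hE h => a1 (k2 E hE h).2.1) (sum_le_zero fun E hE h => ?_)
      obtain ⟨b, a⟩ | a := k3 E hE h
      exacts [a1 ⟨a.2.2.2.1, a.2.2.2.2.2.1⟩, a1 ⟨(H.ok.late _ _ a.2.1).1, a.2.2.2.1⟩]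
    rw [if_pos a1]
    refine add_le_add (sum_le_one (C.nn 0 _).2.2.2.2.1 (fun E hE h => (k2 E hE h).2.2)
      fun E hE E' hE' h h' => (k2 E hE h).1.trans (k2 E' hE' h').1.symm) ?_
    by_cases a2 : f (t - 1) = d
    swap
    · rw [if_neg a2]
      refine sum_le_zero fun E hE h => ?_
      obtain ⟨b, a⟩ | a := k3 E hE h
      exacts [a2 a.2.2.2.2.2.2.1, a2 a.2.2.2.2.1]
    rw [if_pos a2]
    by_cases ht : n < 2 * (t - 1)
    · have k4 := fun E hE h => (k3 E hE h).resolve_right fun a => by omega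
      have a3 := C.s3 (t - 1) _ a1.1 ht (by omega) z2 (a2 ▸ hf)
      rw [show t - 1 + 1 = t by omega, show t - 1 + 2 = t + 1 by omega] at a3
      refine le_trans (sum_le_cnt Par.gap (C.nn 0 _).1 (fun E hE h => ?_)
        fun E hE E' hE' h h' k => ?_) a3
      · obtain ⟨b, rfl, b2, b3, -, -, -, -, b5, b6⟩ := k4 E hE h
        refine ⟨b6, ?_⟩
        simp only [Par.gap, Par.cnt2]
        split_ifs <;> omega
      · obtain ⟨b, rfl, b2, b3, -⟩ := k4 E hE h
        obtain ⟨b', rfl, b4, b5, -⟩ := k4 E' hE' h'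
        simp only [Par.gap] at k
        rw [show b = b' by omega]
    · have k4 := fun E hE h => (k3 E hE h).resolve_left fun ⟨b, a⟩ => ht a.2.2.2.2.1
      exact sum_le_one (C.nn _ _).2.2.2.2.2 (fun E hE h => (k4 E hE h).2.2.2.2.2)
        fun E hE E' hE' h h' => (k4 E hE h).1.trans (k4 E' hE' h').1.symm

end Pool.Agent.Work.MP_7cb3ca_co.Fn
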