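import Pool.Agent.Work.MP_7cb3ca_co.Fn.Asm

/-! The squares of a circular word that contain the seam. -/

namespace Pool.Agent.Work.MP_7cb3ca_co.Fn

/-- A square of period `p` with `b ≤ p` letters after the seam. -/
def CrII (n : ℕ) (f : ℕ → ℕ) (p b : ℕ) : Prop :=
  (∀ i < b, f (n - p + i) = f i) ∧ ∀ i < p - b, f (n - 1 - i) = f (n - p - 1 - i)

/-- A square of period `p` with `a < p` letters before the seam. -/
def CrI (n : ℕ) (f : ℕ → ℕ) (p a : ℕ) : Prop :=
  (∀ i < p - a, f (p + i) = f i) ∧ ∀ i < a, f (n - 1 - i) = f (p - 1 - i)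

theorem nr_of_cross {n : ℕ} {f : ℕ → ℕ}
    (h0 : ∀ s m, 1 ≤ m → s + 2 * m ≤ n → ¬ ∀ i < m, f (s + i) = f (s + i + m))
    (h2 : ∀ p b, 1 ≤ b → b ≤ p → 2 * p < n → ¬ CrII n f p b)
    (h1 : ∀ p a, 1 ≤ a → a < p → 2 * p < n → ¬ CrI n f p a) : Nr n f := by
  intro p s hp hn hs
  by_contra hc
  push Not at hc
  have m1 : ∀ {x y : ℕ}, x = y → y < n → x % n = y := fun e h => e ▸ Nat.mod_eq_of_lt (e ▸ h)
  have m2 : ∀ {x y : ℕ}, x = y + n → y < n → x % n = y := fun e h => by
    rw [e, Nat.add_mod_right, Nat.mod_eq_of_lt h]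
  by_cases k1 : s + 2 * p ≤ n
  · refine h0 s p hp k1 fun i hi => ?_
    have := hc i hi
    rwa [m1 rfl (by omega), m1 rfl (by omega)] at this
  rcases hn.eq_or_lt with hn | hn
  · refine h0 0 p hp (by omega) fun i hi => ?_
    rw [zero_add]
    by_cases k2 : s ≤ i
    · have := hc (i - s) (by omega)
      rwa [m1 (y := i) (by omega) (by omega), m1 (y := i + p) (by omega) (by omega)] at this
    by_cases k3 : s ≤ i + p
    · have := hc (i + p - s) (by omega)
      rw [m1 (y := i + p) (by omega) (by omega), m2 (y := i) (by omega) (by omega)] at this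
      exact this.symm
    · have := hc (i + 2 * p - s) (by omega)
      rwa [m2 (y := i) (by omega) (by omega), m2 (y := i + p) (by omega) (by omega)] at this
  by_cases k2 : s + p ≤ n
  · refine h2 p (s + 2 * p - n) (by omega) (by omega) hn ⟨fun i hi => ?_, fun i hi => ?_⟩
    · have := hc (n - p - s + i) (by omega)
      rwa [m1 (y := n - p + i) (by omega) (by omega), m2 (y := i) (by omega) (by omega)] at this
    · have := hc (n - p - s - 1 - i) (by omega)
      rw [m1 (y := n - p - 1 - i) (by omega) (by omega),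
        m1 (y := n - 1 - i) (by omega) (by omega)] at this
      exact this.symm
  · refine h1 p (n - s) (by omega) (by omega) hn ⟨fun i hi => ?_, fun i hi => ?_⟩
    · have := hc (n - s + i) (by omega)
      rw [m2 (y := i) (by omega) (by omega), m2 (y := p + i) (by omega) (by omega)] at this
      exact this.symm
    · have := hc (n - s - 1 - i) (by omega)
      rwa [m1 (y := n - 1 - i) (by omega) (by omega),
        m2 (y := p - 1 - i) (by omega) (by omega)] at this

/-- The letters of a word with the newest letter first, in the order of time. -/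
theorem cyc_of_word {n : ℕ} {L : ℕ → Finset ℕ} {w : List ℕ} (hl : n ≤ w.length) (hw : P3.Free w)
    (hL : ∀ j < n, P3.gd w (n - 1 - j) ∈ L j)
    (h2 : ∀ p b, 1 ≤ b → b ≤ p → 2 * p < n → ¬ CrII n (fun j => P3.gd w (n - 1 - j)) p b)
    (h1 : ∀ p a, 1 ≤ a → a < p → 2 * p < n → ¬ CrI n (fun j => P3.gd w (n - 1 - j)) p a) :
    Cyc n L := by
  refine ⟨_, hL, nr_of_cross (fun s m hm hs h => ?_) h2 h1⟩
  refine hw (n - s - 2 * m) m hm (by omega) fun i hi => ?_
  have := h (m - 1 - i) (by omega)
  rw [show n - s - 2 * m + i = n - 1 - (s + (m - 1 - i) + m) by omega,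
    show n - s - 2 * m + m + i = n - 1 - (s + (m - 1 - i)) by omega, this]

end Pool.Agent.Work.MP_7cb3ca_co.Fn
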