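import Mathlib.Tactic
import Mathlib.Data.Real.Basic
import Mathlib.Algebra.Order.BigOperators.Group.Finset

/-! Debts for events that depend on the letters chosen up to a given time. -/

namespace Pool.Agent.Work.MP_7cb3ca_co.Fn

open Finset Function

open Classical in
/-- The value at time `t` of the event `P` that costs `F` after `j` more letters. -/
noncomputable def ev (L : ℕ → Finset ℕ) (β : ℕ → ℝ) (P : (ℕ → ℕ) → Prop) (F : ℝ) :
    ℕ → ℕ → (ℕ → ℕ) → ℝ
  | 0, _, f => if P f then F else 0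
  | j + 1, t, f => (∑ x ∈ L t, ev L β P F j (t + 1) (update f t x)) / β t

/-- `g` arises from `f` by writing letters from the lists at the times `t, ..., t + j - 1`. -/
def Ext (L : ℕ → Finset ℕ) (j t : ℕ) (f g : ℕ → ℕ) : Prop :=
  (∀ i, i < t ∨ t + j ≤ i → g i = f i) ∧ ∀ i, t ≤ i → i < t + j → g i ∈ L i

variable {L : ℕ → Finset ℕ} {β : ℕ → ℝ} {P : (ℕ → ℕ) → Prop} {F : ℝ}

theorem Ext.step {j t x : ℕ} {f g : ℕ → ℕ} (h : Ext L j (t + 1) (update f t x) g) (hx : x ∈ L t) :
    Ext L (j + 1) t f g ∧ g t = x := by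
  have h1 : g t = x := by rw [h.1 t (by omega), update_self]
  refine ⟨⟨fun i hi => ?_, fun i a b => ?_⟩, h1⟩
  · rw [h.1 i (by omega), update_of_ne (by omega)]
  · rcases a.eq_or_lt with rfl | a
    exacts [h1 ▸ hx, h.2 i a (by omega)]

theorem ev_nonneg (hβ : ∀ t, 0 < β t) (hF : 0 ≤ F) (j : ℕ) : ∀ t f, 0 ≤ ev L β P F j t f := by
  induction j with
  | zero => intro t f; simp only [ev]; split_ifs; exacts [hF, le_rfl]
  | succ j ih => exact fun t f => div_nonneg (sum_nonneg fun _ _ => ih _ _) (hβ t).le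

theorem ev_void (j : ℕ) : ∀ t f, (∀ g, Ext L j t f g → ¬ P g) → ev L β P F j t f = 0 := by
  induction j with
  | zero => exact fun t f h => if_neg (h f ⟨fun _ _ => rfl, fun _ _ _ => by omega⟩)
  | succ j ih =>
    intro t f h
    rw [ev, sum_eq_zero fun x hx => ih _ _ fun g hg => h g (hg.step hx).1, zero_div]

/-- An event with at most one continuation. -/
theorem ev_le (hβ : ∀ t, 0 < β t) (j : ℕ) : ∀ t f (U : ℕ → ℝ), (∀ i, 0 ≤ U i) → F ≤ U 0 →
    (∀ i < j, U i ≤ β (t + (j - 1 - i)) * U (i + 1)) →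
    (∀ g g', Ext L j t f g → Ext L j t f g' → P g → P g' →
      ∀ i, t ≤ i → i < t + j → g i = g' i) → ev L β P F j t f ≤ U j := by
  induction j with
  | zero => intro t f U h0 h1 _ _; simp only [ev]; split_ifs; exacts [h1, h0 0]
  | succ j ih =>
    intro t f U h0 h1 h2 h3
    rw [ev, div_le_iff₀ (hβ t), mul_comm]
    refine le_trans ?_ (by simpa using h2 j (by omega))
    by_cases h : ∃ x ∈ L t, ∃ g, Ext L j (t + 1) (update f t x) g ∧ P g
    · obtain ⟨x, a, g, b, c⟩ := h
      rw [sum_eq_single x (fun y k hy => ev_void _ _ _ fun g' b' c' => hy ?_) fun k => absurd a k]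
      · refine ih _ _ U h0 h1 (fun i hi => ?_) fun g g' b b' c c' i k k' =>
          h3 g g' (b.step a).1 (b'.step a).1 c c' i (by omega) (by omega)
        have := h2 i (by omega)
        rwa [show t + (j + 1 - 1 - i) = t + 1 + (j - 1 - i) by omega] at this
      · rw [← (b.step a).2, ← (b'.step k).2]
        exact h3 g' g (b'.step k).1 (b.step a).1 c' c t le_rfl (by omega)
    · rw [sum_eq_zero fun x hx => ev_void _ _ _ fun g hg k => h ⟨x, hx, g, hg, k⟩]
      exact h0 j

/-- The run of the potential argument. The event `E` is charged at time `c E`, it is decided at time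
`T E` and then costs `F E`. -/
theorem debt_run {ι : Type} (S : Finset ι) (c T : ι → ℕ) (P : ι → (ℕ → ℕ) → Prop) (F : ι → ℝ)
    (hβ : ∀ t, 0 < β t) (hF : ∀ E ∈ S, 0 ≤ F E) (hc : ∀ E ∈ S, c E ≤ T E)
    (hP : ∀ E ∈ S, ∀ f g, (∀ i < T E, f i = g i) → P E f → P E g)
    (I : ℕ → (ℕ → ℕ) → ℝ → Prop) {t₀ n : ℕ} (hn : t₀ ≤ n)
    (step : ∀ t, t₀ ≤ t → t < n → ∀ f e, I t f e → ∀ eo : ℕ → ℝ, (∀ x, 0 ≤ eo x) →
      ∑ x ∈ L t, eo x ≤ β t * e → ∃ x ∈ L t,
        (∀ E ∈ S, c E ≤ t → T E = t + 1 → eo x < F E) ∧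
        (∀ E ∈ S, c E = t + 1 → T E = t + 1 → ¬ P E (update f t x)) ∧
        I (t + 1) (update f t x) (eo x + ∑ E ∈ S with c E = t + 1,
          ev L β (P E) (F E) (T E - (t + 1)) (t + 1) (update f t x)))
    {f₀ : ℕ → ℕ} (h0 : ∀ E ∈ S, T E ≤ t₀ → ¬ P E f₀)
    (h1 : I t₀ f₀ (∑ E ∈ S with c E ≤ t₀, ev L β (P E) (F E) (T E - t₀) t₀ f₀)) :
    ∃ f e, I n f e ∧ Ext L (n - t₀) t₀ f₀ f ∧ ∀ E ∈ S, T E ≤ n → ¬ P E f := by
  classical
  have key : ∀ t, t₀ ≤ t → t ≤ n → ∃ f, Ext L (t - t₀) t₀ f₀ f ∧ (∀ E ∈ S, T E ≤ t → ¬ P E f) ∧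
      I t f (∑ E ∈ S with c E ≤ t, ev L β (P E) (F E) (T E - t) t f) := by
    intro t ht
    induction t, ht using Nat.le_induction with
    | base => exact fun _ => ⟨f₀, ⟨fun _ _ => rfl, fun _ _ _ => by omega⟩, h0, h1⟩
    | succ t ht ih =>
      intro hl
      obtain ⟨f, a1, a2, a3⟩ := ih (by omega)
      have b0 : ∀ E ∈ S, ∀ x, T E ≤ t → ¬ P E (update f t x) := fun E hE x k k' =>
        a2 E hE k (hP E hE _ _ (fun i hi => update_of_ne (by omega) _ _) k')
      obtain ⟨x, b1, b2, b3, b4⟩ := step t ht hl f _ a3 (fun x => ∑ E ∈ S with c E ≤ t,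
        ev L β (P E) (F E) (T E - (t + 1)) (t + 1) (update f t x))
        (fun x => sum_nonneg fun E hE => ev_nonneg hβ (hF E (mem_filter.1 hE).1) _ _ _) (by
          rw [sum_comm, mul_sum]
          refine sum_le_sum fun E hE => ?_
          have hE := (mem_filter.1 hE).1
          by_cases k : T E ≤ t
          · rw [sum_eq_zero fun x _ => by
              rw [show T E - (t + 1) = 0 by omega]; exact if_neg (b0 E hE x k)]
            exact mul_nonneg (hβ t).le (ev_nonneg hβ (hF E hE) _ _ _)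
          · rw [show T E - t = T E - (t + 1) + 1 by omega, ev, mul_div_cancel₀ _ (hβ t).ne'])
      refine ⟨update f t x, ⟨fun i hi => ?_, fun i k k' => ?_⟩, fun E hE k k' => ?_, ?_⟩
      · rw [update_of_ne (by omega), a1.1 i (by omega)]
      · rcases eq_or_ne i t with rfl | h
        · rwa [update_self]
        · rw [update_of_ne h]; exact a1.2 i k (by omega)
      · rcases k.eq_or_lt with k | k
        · by_cases k2 : c E ≤ t
          · refine (b2 E hE k2 k).not_ge (le_trans (le_of_eq ?_) (single_le_sum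
              (f := fun E => ev L β (P E) (F E) (T E - (t + 1)) (t + 1) (update f t x))
              (fun E hE => ev_nonneg hβ (hF E (mem_filter.1 hE).1) _ _ _)
              (mem_filter.2 ⟨hE, k2⟩)))
            simp only [k, tsub_self, ev, if_pos k']
          · exact b3 E hE (by have := hc E hE; omega) k k'
        · exact b0 E hE x (by omega) k'
      · rw [← sum_union (disjoint_filter.2 fun _ _ _ => by omega), ← filter_or] at b4
        rw [filter_congr (q := fun E => c E ≤ t ∨ c E = t + 1) fun _ _ => by omega]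
        exact b4
  obtain ⟨f, a1, a2, a3⟩ := key n hn le_rfl
  exact ⟨f, _, a3, a1, a2⟩

end Pool.Agent.Work.MP_7cb3ca_co.Fn
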