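import Pool.Agent.Work.MP_7cb3ca_co.Fn.Iface

/-! The events that cover all squares through the seam. -/

namespace Pool.Agent.Work.MP_7cb3ca_co.Fn

open Finset Function

theorem zeta_le (r : ℕ) (f : ℕ → ℕ) (x t : ℕ) : zeta r f x t ≤ r := by
  classical exact Nat.findGreatest_le r

theorem zeta_spec (r : ℕ) (f : ℕ → ℕ) (x t : ℕ) : Zok f x t (zeta r f x t) := by
  classical exact Nat.findGreatest_spec (Nat.zero_le r) ⟨fun _ h => by omega, by simp⟩

theorem le_zeta {r z x t : ℕ} {f : ℕ → ℕ} {A : Finset ℕ} (hA : A.card = 3) (hx : x ∉ A)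
    (hz : z ≤ r) (h : ∀ i < z, f (t - 1 - i) ∈ A) : z ≤ zeta r f x t := by
  classical
  refine Nat.le_findGreatest hz ⟨fun i hi e => hx (e ▸ h i hi), hA ▸ card_le_card fun y hy => ?_⟩
  obtain ⟨i, hi, rfl⟩ := mem_image.1 hy
  exact h i (mem_range.1 hi)

theorem zeta_congr (r x : ℕ) {t : ℕ} (ht : 1 ≤ t) {f g : ℕ → ℕ} (h : ∀ i < t, f i = g i) :
    zeta r f x t = zeta r g x t := by
  have : Zok f x t = Zok g x t := by
    funext z
    simp only [Zok, show ∀ i, f (t - 1 - i) = g (t - 1 - i) from fun i => h _ (by omega)]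
  unfold zeta
  rw [this]

theorem zeta_lt (r : ℕ) {f : ℕ → ℕ} {x t : ℕ} (h : f 0 = x) (ht : 1 ≤ t) : zeta r f x t < t := by
  by_contra k
  exact (zeta_spec r f x t).1 (t - 1) (by omega) (by rwa [tsub_self])

theorem fam_eq {r a d : ℕ} {f : ℕ → ℕ} (ha : a ≤ r) (h : f (a + 1) = d)
    (h' : ∀ i < a, f (1 + i) ≠ d) : fam r f d = a :=
  Nat.findGreatest_eq_iff.2 ⟨ha, fun _ => h', fun _ k _ k' => k' a k (by rwa [add_comm])⟩

theorem fam_congr {r d : ℕ} {f g : ℕ → ℕ} (h : ∀ i ≤ r, f i = g i) : fam r f d = fam r g d := by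
  refine Nat.findGreatest_eq_iff.2 ⟨Nat.findGreatest_le r, fun k i hi => ?_, fun m k k' k'' => ?_⟩
  · have := Nat.findGreatest_le (P := fun a => ∀ i < a, g (1 + i) ≠ d) r
    rw [h _ (by unfold fam at hi; omega)]
    exact (Nat.findGreatest_eq_iff.1 rfl).2.1 k i hi
  · exact (Nat.findGreatest_eq_iff.1 rfl).2.2 k k' fun i hi => h (1 + i) (by omega) ▸ k'' i hi

/-- Events: squares with `b ≤ p` letters after the seam, bans, near events, far events. -/
abbrev Ix : Type := (ℕ × ℕ) ⊕ (ℕ × ℕ) ⊕ ℕ ⊕ ℕ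

namespace Par

variable (Q : Par) (L : ℕ → Finset ℕ) (n d pre : ℕ)

open Classical in
/-- The events that occur. -/
noncomputable def S : Finset Ix :=
  ((range n ×ˢ range n).filter fun q => 1 ≤ q.2 ∧ q.2 ≤ q.1 ∧ 2 ≤ q.1 ∧ 2 * q.1 < n).disjSum
    (((range n ×ˢ range n).filter fun q =>
      q.2 < q.1 ∧ q.2 ≤ Q.r ∧ 2 * q.1 < n ∧ ¬ Q.void L pre q.1 q.2).disjSum
      (((range n).filter fun a => 1 ≤ a ∧ Q.nr a = true ∧ 2 * (a + 1) < n).disjSum
        ((range n).filter fun i => Q.live i ∧ 2 * (Q.α i + 1) < n)))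

/-- The time of the charge. -/
def c : Ix → ℕ
  | .inl (p, b) => if Q.two = true ∧ 2 ≤ b then n - p + 2 else n - p + 1
  | .inr (.inl (p, z)) => if Q.late p z = true then p + 2 else p + 1
  | .inr (.inr (.inl a)) => n - a + 1
  | .inr (.inr (.inr i)) => n - Q.α i

/-- The time of the decision. -/
def T : Ix → ℕ
  | .inr (.inl (p, z)) => p + 1 + Q.μ p z
  | _ => n

/-- The event itself. -/
def P : Ix → (ℕ → ℕ) → Prop
  | .inl (p, b), f => CrII n f p b
  | .inr (.inl (p, z)), f => zeta Q.r f d p = z ∧ ∀ i ≤ Q.μ p z, f (p + i) = f i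
  | .inr (.inr (.inl a)), f => f (a + 1) = d ∧ ∀ i < a, f (n - a + i) = f (1 + i)
  | .inr (.inr (.inr i)), f => ∃ p, p / (Q.r + 1) = i ∧ Q.α i < p ∧ 2 * p < n ∧ f p = d ∧
      zeta Q.r f d p = Q.r ∧ ∀ j < Q.α i, f (n - 1 - j) = f (p - 1 - j)

/-- The final cost. -/
noncomputable def F (top τ : ℝ) (B : Tb) : Ix → ℝ
  | .inr (.inl (p, z)) => if Q.μ p z = (if Q.late p z = true then 1 else 0) then top
      else B.U 0 (p + 1 + Q.μ p z)
  | _ => τ

variable {Q L n d pre}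

theorem mem1 {p b : ℕ} : .inl (p, b) ∈ Q.S L n pre ↔ 1 ≤ b ∧ b ≤ p ∧ 2 ≤ p ∧ 2 * p < n := by
  simp only [S, inl_mem_disjSum, mem_filter, mem_product, mem_range]
  omega

theorem mem2 {p z : ℕ} : .inr (.inl (p, z)) ∈ Q.S L n pre ↔
    z < p ∧ z ≤ Q.r ∧ 2 * p < n ∧ ¬ Q.void L pre p z := by
  simp only [S, inr_mem_disjSum, inl_mem_disjSum, mem_filter, mem_product, mem_range]
  exact ⟨fun h => h.2, fun h => ⟨by omega, h⟩⟩

theorem mem3 {a : ℕ} : .inr (.inr (.inl a)) ∈ Q.S L n pre ↔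
    1 ≤ a ∧ Q.nr a = true ∧ 2 * (a + 1) < n := by
  simp only [S, inr_mem_disjSum, inl_mem_disjSum, mem_filter, mem_range]
  exact ⟨fun h => h.2, fun h => ⟨by omega, h⟩⟩

theorem mem4 {i : ℕ} : .inr (.inr (.inr i)) ∈ Q.S L n pre ↔
    i < n ∧ Q.live i ∧ 2 * (Q.α i + 1) < n := by
  simp only [S, inr_mem_disjSum, mem_filter, mem_range]

theorem cover (hQ : Q.OK) {f : ℕ → ℕ} (hL : ∀ j < n, (L j).card = 3) (hd : d ∉ L (n - 1))
    (hr : ∀ i < Q.r, L (n - 1 - i) = L (n - 1)) (hf : ∀ j < n, f j ∈ L j) (h0 : f 0 = d)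
    (hfree : ∀ s m, 1 ≤ m → s + 2 * m ≤ n → ¬ ∀ i < m, f (s + i) = f (s + i + m))
    (hp : pre ≠ 0 → 3 < ((range pre).image f).card)
    (h : ∀ E ∈ Q.S L n pre, Q.T n E ≤ n → ¬ Q.P n d E f) : Cyc n L := by
  refine ⟨f, hf, nr_of_cross hfree (fun p b h1 h2 h3 h4 => ?_) fun p a h1 h2 h3 h4 => ?_⟩
  · refine h (.inl (p, b)) (mem1.2 ?_) le_rfl h4
    have h5 : p ≠ 1 := by
      rintro rfl
      have := h4.1 0 h1
      rw [add_zero, h0] at this
      exact hd (this ▸ hf (n - 1) (by omega))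
    omega
  · have h5 := zeta_le Q.r f d p
    have h9 := zeta_lt Q.r h0 (t := p) (by omega)
    have h6 := hQ.lt p _ h9 h5
    have h7 : p ≤ a + Q.μ p (zeta Q.r f d p) := by
      by_contra k
      refine h (.inr (.inl (p, zeta Q.r f d p))) (mem2.2 ⟨h9, h5, h3, fun v => ?_⟩)
        (by simp only [T]; omega) ⟨rfl, fun i hi => h4.1 i (by omega)⟩
      refine (hp v.1).not_ge (hL p (by omega) ▸ card_le_card fun y hy => ?_)
      obtain ⟨i, hi, rfl⟩ := mem_image.1 hy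
      have := v.2.1
      rw [mem_range] at hi
      rw [← h4.1 i (by omega), ← v.2.2 i hi]
      exact hf _ (by omega)
    have h8 : min a Q.r ≤ zeta Q.r f d p := le_zeta (hL _ (by omega)) hd (by omega) fun i hi => by
      rw [← h4.2 i (by omega), ← hr i (by omega)]
      exact hf _ (by omega)
    rcases hQ.cov p _ a h9 h5 h1 h2 h7 with k | ⟨rfl, k⟩ | k
    · omega
    · refine h (.inr (.inr (.inl a))) (mem3.2 ⟨h1, k, h3⟩) le_rfl
        ⟨h0 ▸ h4.1 0 (by omega), fun i hi => ?_⟩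
      have := h4.2 (a - 1 - i) (by omega)
      rwa [show n - 1 - (a - 1 - i) = n - a + i by omega,
        show a + 1 - 1 - (a - 1 - i) = 1 + i by omega] at this
    · have a1 := Nat.div_le_self p (Q.r + 1)
      have a2 := Nat.div_add_mod' p (Q.r + 1)
      have a3 := Nat.mod_lt p (show 0 < Q.r + 1 by omega)
      exact h (.inr (.inr (.inr (p / (Q.r + 1)))))
        (mem4.2 ⟨by omega, ⟨Nat.div_pos (by omega) (by omega), by omega⟩, by omega⟩) le_rfl
        ⟨p, rfl, by omega, h3, h0 ▸ h4.1 0 (by omega), k.1, fun j hj => h4.2 j (by omega)⟩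

theorem P_congr : ∀ E ∈ Q.S L n pre, ∀ f g : ℕ → ℕ, (∀ i < Q.T n E, f i = g i) →
    Q.P n d E f → Q.P n d E g := by
  rintro (⟨p, b⟩ | ⟨p, z⟩ | a | i) hE f g h k <;> simp only [mem1, mem2, mem3, mem4, T] at hE h
  · exact ⟨fun i hi => by rw [← h _ (by omega), ← h _ (by omega)]; exact k.1 i hi,
      fun i hi => by rw [← h _ (by omega), ← h _ (by omega)]; exact k.2 i hi⟩
  · exact ⟨(zeta_congr _ _ (by omega) fun i hi => h i (by omega)).symm.trans k.1,
      fun i hi => by rw [← h _ (by omega), ← h _ (by omega)]; exact k.2 i hi⟩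
  · exact ⟨(h _ (by omega)).symm.trans k.1,
      fun i hi => by rw [← h _ (by omega), ← h _ (by omega)]; exact k.2 i hi⟩
  · obtain ⟨p, a1, a2, a3, a4, a5, a6⟩ := k
    exact ⟨p, a1, a2, a3, (h p (by omega)).symm.trans a4,
      (zeta_congr _ _ (by omega) fun i hi => h i (by omega)).symm.trans a5,
      fun j hj => by rw [← h _ (by omega), ← h _ (by omega)]; exact a6 j hj⟩

theorem c_le (hQ : Q.OK) : ∀ E ∈ Q.S L n pre, Q.c n E ≤ Q.T n E := by
  rintro (⟨p, b⟩ | ⟨p, z⟩ | a | i) hE <;> simp only [mem1, mem2, mem3, mem4, T, c] at hE ⊢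
  · split_ifs <;> omega
  · split_ifs with h
    · have := (hQ.late p z h).2; omega
    · omega
  · omega
  · omega

end Par

end Pool.Agent.Work.MP_7cb3ca_co.Fn
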