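import Pool.Agent.Work.MP_7cb3ca_co.Fn.Asm

/-! Lists on a cycle are continued by fresh lists. -/

namespace Pool.Agent.Work.MP_7cb3ca_co.Fn

open Finset

/-- The hypotheses at the seam for lists that are given at all times and are fresh from time `n`
on. -/
structure SH (n r1 r2 : ℕ) (L : ℕ → Finset ℕ) (d : ℕ) : Prop where
  card : ∀ t, (L t).card = 3
  d0 : d ∈ L 0
  dn : d ∉ L (n - 1)
  last : ∀ i < r1, L (n - 1 - i) = L (n - 1)
  run : ∀ s, ¬ ∀ i ≤ r2, L (s + i) = L s
  fresh : ∀ s t, n ≤ t → s ≠ t → Disjoint (L s) (L t)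

/-- The lists `L` before time `n` and fresh lists above `B` from time `n` on. -/
def ext (n B : ℕ) (L : ℕ → Finset ℕ) (t : ℕ) : Finset ℕ :=
  if t < n then L t else Ico (B + 3 * t) (B + 3 * t + 3)

theorem ext_sh {n r1 r2 : ℕ} (hn : 1 ≤ n) (h2 : 1 ≤ r2) {L : ℕ → Finset ℕ} {d : ℕ}
    (a : ∀ j < n, (L j).card = 3) (b : d ∈ L 0) (c : d ∉ L (n - 1))
    (e : ∀ i < r1, L (n - 1 - i) = L (n - 1))
    (f : ∀ s, s + r2 < n → ¬ ∀ i ≤ r2, L (s + i) = L s) :
    SH n r1 r2 (ext n (((range n).biUnion L).sup id + 1) L) d := by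
  set B := ((range n).biUnion L).sup id + 1 with hB
  have h1 : ∀ t < n, ext n B L t = L t := fun t ht => if_pos ht
  have h3 : ∀ t, n ≤ t → ext n B L t = Ico (B + 3 * t) (B + 3 * t + 3) :=
    fun t ht => if_neg (by omega)
  have h4 : ∀ t, (ext n B L t).card = 3 := fun t => by
    rcases lt_or_ge t n with h | h
    · rw [h1 t h, a t h]
    · rw [h3 t h, Nat.card_Ico]; omega
  have h5 : ∀ s t, n ≤ t → s ≠ t → Disjoint (ext n B L s) (ext n B L t) := fun s t ht hs => by
    rw [h3 t ht, disjoint_left]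
    intro x hx hy
    rw [mem_Ico] at hy
    rcases lt_or_ge s n with h | h
    · rw [h1 s h] at hx
      have : id x ≤ ((range n).biUnion L).sup id :=
        le_sup (mem_biUnion.2 ⟨s, mem_range.2 h, hx⟩)
      simp only [id] at this hB
      omega
    · rw [h3 s h, mem_Ico] at hx
      omega
  refine ⟨h4, by rwa [h1 0 hn], by rwa [h1 _ (by omega)], fun i hi => ?_, fun s hs => ?_, h5⟩
  · rw [h1 _ (by omega), h1 _ (by omega), e i hi]
  · rcases lt_or_ge (s + r2) n with h | h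
    · refine f s h fun i hi => ?_
      rw [← h1 _ (by omega : s + i < n), ← h1 s (by omega), hs i hi]
    · have h6 := h5 s (s + r2) h (by omega)
      rw [hs r2 le_rfl, disjoint_self] at h6
      have h7 := h4 s
      rw [h6] at h7
      simp at h7

theorem seam_of_sh {n r1 r2 : ℕ} (hn : 1 ≤ n) (h2 : 1 ≤ r2)
    (H : ∀ L d, SH n r1 r2 L d → Cyc n L) : Seam n r1 r2 := by
  intro L d a b c e f
  obtain ⟨v, h1, h3⟩ := H _ d (ext_sh hn h2 a b c e f)
  refine ⟨v, fun j hj => ?_, h3⟩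
  have := h1 j hj
  rwa [ext, if_pos hj] at this

theorem SH.mono {n r1 r2 r1' r2' : ℕ} {L : ℕ → Finset ℕ} {d : ℕ} (h : SH n r1 r2 L d)
    (h1 : r1' ≤ r1) (h2 : r2 ≤ r2') : SH n r1' r2' L d :=
  ⟨h.card, h.d0, h.dn, fun i hi => h.last i (by omega),
    fun s k => h.run s fun i hi => k i (by omega), h.fresh⟩

/-- The first letter is not in the last `r1` lists and not in the fresh lists. -/
theorem SH.d_not {n r1 r2 : ℕ} {L : ℕ → Finset ℕ} {d : ℕ} (h : SH n r1 r2 L d) (hn : 1 ≤ n)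
    {t : ℕ} (ht : n ≤ t + r1) : d ∉ L t := by
  rcases lt_or_ge t n with k | k
  · have := h.last (n - 1 - t) (by omega)
    rw [show n - 1 - (n - 1 - t) = t by omega] at this
    rw [this]; exact h.dn
  · exact disjoint_left.1 (h.fresh 0 t k (by omega)) h.d0

/-- A fresh list differs from all others. -/
theorem SH.ne {n r1 r2 : ℕ} {L : ℕ → Finset ℕ} {d : ℕ} (h : SH n r1 r2 L d) {s t : ℕ}
    (ht : n ≤ t) (hs : s ≠ t) : L s ≠ L t := fun k => by
  have h6 := h.fresh s t ht hs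
  have h7 := h.card t
  rw [k, disjoint_self] at h6
  rw [h6] at h7
  simp at h7

theorem SH.lt {n r1 r2 : ℕ} {L : ℕ → Finset ℕ} {d : ℕ} (h : SH n r1 r2 L d) (hn : 1 ≤ n) :
    r1 < n := by
  by_contra k
  exact h.d_not hn (t := 0) (by omega) h.d0

/-- The statement for all cycles from length `n0` on follows from a list of designs, given by
the least and the largest length of the final run; the last design has no largest length. -/
theorem seam_all {n : ℕ} (hn : 1 ≤ n) (D : List (ℕ × ℕ)) (R : ℕ)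
    (hc : ∀ r, 1 ≤ r → r < R → ∃ x ∈ D, x.1 ≤ r ∧ r ≤ x.2)
    (H : ∀ x ∈ D, ∀ L d, SH n x.1 x.2 L d → Cyc n L)
    (HR : ∀ r2 L d, SH n R r2 L d → Cyc n L) : ∀ r, 1 ≤ r → r < n → Seam n r r := by
  intro r h1 _
  refine seam_of_sh hn h1 fun L d h => ?_
  rcases lt_or_ge r R with k | k
  · obtain ⟨x, hx, a, b⟩ := hc r h1 k
    exact H x hx L d (h.mono a b)
  · exact HR r L d (h.mono k le_rfl)

end Pool.Agent.Work.MP_7cb3ca_co.Fn
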