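import Pool.Agent.Work.MP_7cb3ca_co.Fn.Ext

/-! The contexts that occur for lists that are cut at the end of a run. -/

namespace Pool.Agent.Work.MP_7cb3ca_co.Fn

open Finset P3

/-- The run through a time of context `c` has at most `r2` members; `r2 ≥ 99` means no bound. -/
noncomputable def okc (r2 c : ℕ) : Bool := Nat.ble (c / 10 + cf c) r2

/-- The context `c` is possible in the final run with `k` letters to go. -/
noncomputable def infinal (r1 r2 c k : ℕ) : Bool :=
  (!Nat.beq k 1 || Nat.beq (ck c) 3) && Nat.beq (cf c) (if Nat.ble k 8 then k else 8) &&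
    (Nat.ble 99 r2 || Nat.ble (c / 10 + k) r2) && (Nat.beq (c / 10) 8 || Nat.ble r1 (c / 10 + k))

/-- The context `c` is possible before the final run with `k` letters to go. -/
noncomputable def notfinal (r1 c k : ℕ) : Bool := Nat.ble (cf c + r1) k

/-- The step from context `c` with `k` letters to go to context `c'` is possible. -/
noncomputable def edge (r1 r2 c k c' : ℕ) : Bool :=
  if Nat.beq k 1 then infinal r1 r2 c 1 && Nat.beq c' 2 else
    (infinal r1 r2 c k && infinal r1 r2 c' (k - 1) && Nat.ble 2 (cf c)) ||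
      (notfinal r1 c k && (notfinal r1 c' (k - 1) ||
        (Nat.beq (cf c) 1 && infinal r1 r2 c' (k - 1))))

lemma okc_iff {r2 c : ℕ} : okc r2 c = true ↔ c / 10 + cf c ≤ r2 := Nat.ble_eq ▸ Iff.rfl

lemma notfinal_iff {r1 c k : ℕ} : notfinal r1 c k = true ↔ cf c + r1 ≤ k := Nat.ble_eq ▸ Iff.rfl

lemma infinal_iff {r1 r2 c k : ℕ} : infinal r1 r2 c k = true ↔ (k = 1 → ck c = 3) ∧
    cf c = min k 8 ∧ (99 ≤ r2 ∨ c / 10 + k ≤ r2) ∧ (c / 10 = 8 ∨ r1 ≤ c / 10 + k) := by
  have h : (if k ≤ 8 then k else 8) = min k 8 := by split_ifs <;> omega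
  simp only [infinal, h, Bool.and_eq_true, Bool.or_eq_true, Bool.not_eq_true', Nat.ble_eq,
    Nat.beq_eq, and_assoc, ← Bool.not_eq_true, imp_iff_not_or]

lemma edge_iff {r1 r2 c k c' : ℕ} : edge r1 r2 c k c' = true ↔
    if k = 1 then infinal r1 r2 c 1 = true ∧ c' = 2 else
      (infinal r1 r2 c k = true ∧ infinal r1 r2 c' (k - 1) = true ∧ 2 ≤ cf c) ∨
        (notfinal r1 c k = true ∧ (notfinal r1 c' (k - 1) = true ∨
          (cf c = 1 ∧ infinal r1 r2 c' (k - 1) = true))) := by
  simp only [edge, Nat.beq_eq]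
  split_ifs <;> simp only [Bool.and_eq_true, Bool.or_eq_true, Nat.ble_eq, Nat.beq_eq, and_assoc]

/-- Lists of three colours on all times: the last `r1` lists before time `n` are equal and miss a
colour `d` of the first list, runs before time `n` have at most `r2` members if `r2 < 99`, and the
list at time `n` is disjoint from its neighbours. -/
structure Cut (L : ℕ → Finset ℕ) (n d r1 r2 : ℕ) : Prop where
  card : ∀ t, (L t).card = 3
  pos : 1 ≤ n
  one : 1 ≤ r1
  mem : d ∈ L 0
  nmem : d ∉ L (n - 1)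
  last : ∀ i < r1, L (n - 1 - i) = L (n - 1)
  runs : r2 < 99 → ∀ s, s + r2 < n → ¬ ∀ i ≤ r2, L (s + i) = L s
  fr1 : Disjoint (L (n - 1)) (L n)
  fr2 : Disjoint (L n) (L (n + 1))

variable {L : ℕ → Finset ℕ} {n d r1 r2 : ℕ}

theorem SH.cut {r : ℕ} (h : SH n r1 r L d) (hn : 1 ≤ n) (h1 : 1 ≤ r1) (h2 : r2 < 99 → r ≤ r2) :
    Cut L n d r1 r2 :=
  ⟨h.card, hn, h1, h.d0, h.dn, h.last, fun k s _ e => h.run s fun i hi => e i (hi.trans (h2 k)),
    h.fresh _ _ le_rfl (by omega), h.fresh _ _ (by omega) (by omega)⟩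

lemma le_fr {m : ℕ} (N t : ℕ) (hm : m ≤ N + 1) (h : ∀ i < m, L (t + i) = L t) : m ≤ fr L N t := by
  induction N generalizing t m with
  | zero => simpa only [fr] using hm
  | succ N ih =>
    rcases Nat.lt_or_ge m 2 with k | k
    · have := fr_pos (L := L) (N + 1) t
      omega
    · have := ih (m := m - 1) (t + 1) (by omega) fun i hi => by
        rw [h 1 k, show t + 1 + i = t + (i + 1) by omega]
        exact h _ (by omega)
      rw [fr, if_pos (h 1 k)]
      omega

lemma le_el {m : ℕ} (t : ℕ) (hm : m ≤ 8) (ht : m ≤ t) (h : ∀ i ≤ m, L (t - i) = L t) :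
    m ≤ el L t := by
  induction t generalizing m with
  | zero => omega
  | succ t ih =>
    rcases Nat.eq_zero_or_pos m with k | k
    · omega
    · have e : L (t + 1) = L t := (h 1 k).symm
      have := ih (m := m - 1) (by omega) (by omega) fun i hi => by
        rw [← e, show t - i = t + 1 - (i + 1) by omega]
        exact h _ (by omega)
      rw [el, if_pos e]
      omega

/-- The lists from `el` steps before to `fr - 1` steps after a time are equal. -/
lemma run_spec (t j : ℕ) (h1 : t ≤ j + el L t) (h2 : j < t + fr L 7 t) : L j = L t := by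
  rcases Nat.lt_or_ge j t with k | k
  · have := el_spec (L := L) t (t - j) (by omega)
    rwa [show t - (t - j) = j by omega] at this
  · have := fr_spec (L := L) 7 t (j - t) (by omega)
    rwa [show t + (j - t) = j by omega] at this

/-- The lists before the step and `cf` lists after it are equal. -/
theorem pre_eq (hL : ∀ t, (L t).card = 3) {t pre : ℕ} (h1 : 1 ≤ ctx L (t + 1) / 10)
    (h2 : pre ≤ cf (ctx L (t + 1)) + 1) : ∀ i < pre, L (t + i) = L t := by
  obtain ⟨-, a1, a2, -⟩ := ctx_facts hL (t + 1)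
  have := fr_pos (L := L) 7 (t + 1)
  exact fun i hi => (run_spec (t + 1) _ (by omega) (by omega)).trans
    (run_spec (t + 1) t (by omega) (by omega)).symm

theorem ctx_div_le (hL : ∀ t, (L t).card = 3) (t : ℕ) : ctx L t / 10 ≤ t :=
  (ctx_facts hL t).2.1 ▸ el_le_self t

namespace Cut

variable (h : Cut L n d r1 r2)
include h

lemma ne_of_disj {s t : ℕ} (k : Disjoint (L s) (L t)) : L t ≠ L s := fun e => by
  have := h.card s
  rw [e, disjoint_self, bot_eq_empty] at k
  simp [k] at this

lemma sdiff_of_disj {s t : ℕ} (k : Disjoint (L s) (L t)) : (L s \ L t).card = 3 := by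
  rw [sdiff_eq_self_of_disjoint k, h.card]

/-- The last `r1` lists. -/
theorem tail {t : ℕ} (h1 : n ≤ t + r1) (h2 : t < n) : L t = L (n - 1) := by
  have := h.last (n - 1 - t) (by omega)
  rwa [show n - 1 - (n - 1 - t) = t by omega] at this

theorem r1_lt : r1 < n := by
  by_contra k
  exact h.nmem (h.tail (t := 0) (by omega) h.pos ▸ h.mem)

lemma fr_le_go {t : ℕ} (ht : t < n) : fr L 7 t ≤ n - t := by
  by_contra k
  exact h.ne_of_disj h.fr1 ((run_spec t n (by omega) (by omega)).trans
    (run_spec t (n - 1) (by omega) (by omega)).symm)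

theorem ctx_end : ctx L n = 2 := by
  have h1 := h.ne_of_disj h.fr1
  have h2 : el L n = 0 := by
    obtain ⟨m, rfl⟩ : ∃ m, n = m + 1 := ⟨n - 1, by have := h.pos; omega⟩
    exact if_neg h1
  rw [ctx, h2, if_neg (h.ne_of_disj h.fr2), h.sdiff_of_disj h.fr2]

/-- A run of `m` equal lists before time `n` is short. -/
lemma run_le {s m : ℕ} (hs : s + m ≤ n) (k : ∀ i < m, L (s + i) = L s) : 99 ≤ r2 ∨ m ≤ r2 := by
  by_contra hc
  exact h.runs (by omega) s (by omega) fun i hi => k i (by omega)

theorem okc_ctx {t : ℕ} (ht : t ≤ n) : okc r2 (ctx L t) = true := by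
  rw [okc_iff]
  rcases ht.lt_or_eq with ht | rfl
  · obtain ⟨-, a1, a2, -⟩ := ctx_facts h.card t
    have a3 := h.fr_le_go ht
    have a4 := el_le_self (L := L) t
    have a5 := el_le (L := L) t
    have a6 := fr_le (L := L) 7 t
    have a7 := fr_pos (L := L) 7 t
    have := h.run_le (s := t - el L t) (m := el L t + fr L 7 t) (by omega) fun i hi =>
      (run_spec t _ (by omega) (by omega)).trans (run_spec t _ (by omega) (by omega)).symm
    omega
  · have := h.run_le (s := 0) (m := 1) h.pos fun i hi => by rw [show i = 0 by omega]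
    rw [h.ctx_end, show cf 2 = 1 from rfl]
    omega

/-- A time in the final run. -/
theorem infinal_ctx {t : ℕ} (ht : t < n) (k : ∀ j, t ≤ j → j < n → L j = L t) :
    infinal r1 r2 (ctx L t) (n - t) = true := by
  obtain ⟨-, a1, a2, a8⟩ := ctx_facts h.card t
  have a3 := h.fr_le_go ht
  have a4 := el_le_self (L := L) t
  have a5 := el_le (L := L) t
  have a6 := fr_le (L := L) 7 t
  have a7 : min (n - t) 8 ≤ fr L 7 t := le_fr 7 t (by omega) fun i hi => k _ (by omega) (by omega)
  have a9 : ∀ j, t ≤ j + el L t → j < n → L j = L t := fun j h1 h2 => by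
    rcases Nat.lt_or_ge j t with h3 | h3
    exacts [run_spec t j h1 (by omega), k j h3 h2]
  refine infinal_iff.2 ⟨fun e => ?_, by omega, ?_, ?_⟩
  · obtain rfl : n = t + 1 := by omega
    rw [a8]
    exact h.sdiff_of_disj h.fr1
  · rw [a1]
    exact h.run_le (s := t - el L t) (by omega) fun i hi =>
      (a9 _ (by omega) (by omega)).trans (a9 _ (by omega) (by omega)).symm
  · by_contra hc
    have := h.r1_lt
    have := le_el (L := L) (m := el L t + 1) t (by omega) (by omega) fun i hi =>
      (h.tail (by omega) (by omega)).trans (k _ (by omega) (by omega))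
    omega

/-- A time before the final run. -/
theorem notfinal_ctx {t : ℕ} (ht : t < n) (k : ¬ ∀ j, t ≤ j → j < n → L j = L t) :
    notfinal r1 (ctx L t) (n - t) = true := by
  rw [notfinal_iff, (ctx_facts h.card t).2.2.1]
  by_contra hc
  have := h.one
  have := fr_pos (L := L) 7 t
  refine k fun j h1 h2 => ?_
  rcases Nat.lt_or_ge j (t + fr L 7 t) with h3 | h3
  · exact run_spec t j (by omega) h3
  · rw [h.tail (t := j) (by omega) h2, ← h.tail (t := t + fr L 7 t - 1) (by omega) (by omega)]
    exact run_spec t _ (by omega) (by omega)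

/-- The last `r1` times are in the final run. -/
theorem infinal_last {t : ℕ} (h1 : n ≤ t + r1) (h2 : t < n) :
    infinal r1 r2 (ctx L t) (n - t) = true :=
  h.infinal_ctx h2 fun _ a b => (h.tail (by omega) b).trans (h.tail h1 h2).symm

theorem cf_last {t : ℕ} (h1 : n ≤ t + r1) (h2 : t < n) : cf (ctx L t) = min (n - t) 8 :=
  (infinal_iff.1 (h.infinal_last h1 h2)).2.1

theorem edge_ctx {t : ℕ} (ht : t < n) :
    edge r1 r2 (ctx L t) (n - t) (ctx L (t + 1)) = true := by
  rw [edge_iff]
  split_ifs with e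
  · obtain rfl : n = t + 1 := by omega
    exact ⟨e ▸ h.infinal_last (by have := h.one; omega) ht, h.ctx_end⟩
  have h1 : t + 1 < n := by omega
  rw [show n - t - 1 = n - (t + 1) by omega]
  by_cases k : ∀ j, t ≤ j → j < n → L j = L t
  · have h2 := h.infinal_ctx ht k
    refine Or.inl ⟨h2, h.infinal_ctx h1 fun j a b =>
      (k j (by omega) b).trans (k _ (by omega) h1).symm, ?_⟩
    have := (infinal_iff.1 h2).2.1
    omega
  · refine Or.inr ⟨h.notfinal_ctx ht k, ?_⟩
    by_cases k' : ∀ j, t + 1 ≤ j → j < n → L j = L (t + 1)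
    · refine Or.inr ⟨?_, h.infinal_ctx h1 k'⟩
      rw [(ctx_facts h.card t).2.2.1, fr, if_neg fun e' => k fun j a b => ?_]
      rcases a.lt_or_eq with a | rfl
      exacts [(k' j a b).trans e', rfl]
    · exact Or.inl (h.notfinal_ctx h1 k')

/-- If the context after the step shows that the time is in the final run then `d` is not in the
list. -/
theorem sure {t : ℕ} (ht : t < n) (h1 : 1 ≤ ctx L (t + 1) / 10)
    (h2 : n - t ≤ cf (ctx L (t + 1)) + r1) : d ∉ L t := by
  rcases Nat.lt_or_ge (t + r1) n with k | k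
  · have := pre_eq h.card h1 le_rfl (n - r1 - t) (by omega)
    have := h.one
    rw [← ‹L (t + _) = L t›, h.tail (by omega) (by omega)]
    exact h.nmem
  · exact h.tail k ht ▸ h.nmem

theorem nmem_last {t : ℕ} (h1 : n ≤ t + r1) (h2 : t < n) : d ∉ L t := h.tail h1 h2 ▸ h.nmem

/-- All facts on a step. -/
theorem feas {t : ℕ} (ht : t < n) : ctx L t < 90 ∧ ctx L (t + 1) < 90 ∧
    ctx L (t + 1) ∈ nxt (ctx L t) ∧ ctx L t / 10 ≤ t ∧ ctx L (t + 1) / 10 ≤ t + 1 ∧
    okc r2 (ctx L t) = true ∧ okc r2 (ctx L (t + 1)) = true ∧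
    edge r1 r2 (ctx L t) (n - t) (ctx L (t + 1)) = true :=
  ⟨(ctx_facts h.card t).1, (ctx_facts h.card _).1, ctx_next h.card t, ctx_div_le h.card t,
    ctx_div_le h.card _, h.okc_ctx ht.le, h.okc_ctx ht, h.edge_ctx ht⟩

end Cut

end Pool.Agent.Work.MP_7cb3ca_co.Fn
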