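import Pool.Agent.Work.MP_7cb3ca_co.Fn.Iface
import Pool.Agent.Work.MP_7cb3ca_co.C3.Spec

/-! The lanes of the certificate along the time, for each family `φ`. -/

namespace Pool.Agent.Work.MP_7cb3ca_co.Fn

open P3

/-- The lanes `a φ s` of arrival and `q φ s` of departure fit the certificate `P`, and its tables
bound the tables `B`. -/
structure Link (P : C3.Par) (Q : Par) (L : ℕ → Finset ℕ) (n d : ℕ) (B : Tb)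
    (a q : ℕ → ℕ → ℕ) : Prop where
  r : P.r1 = Q.r
  two : P.two = Q.two
  len : Q.r + Q.ke + 1 < n ∧ 2 * P.ts ≤ n + 2
  lanes : ∀ φ, C3.Lanes P L n 2 (a φ) (q φ)
  same : ∀ φ s, s < n - Q.ke → q φ s = q 0 s
  cap : ∀ φ i s, i < 64 → 2 ≤ s → P.lane i (ctx L s) (a φ s) = P.lane i (ctx L s) (a 0 s)
  lf : ∀ φ s, 2 ≤ s → s ≤ n → (a φ s = P.lf ↔ s = n)
  rel : ∀ φ, Q.two = false → Q.ke ≠ 0 → a φ (n - Q.ke) = P.la ∧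
    (P.lq = q φ (n - Q.ke) ∨ P.Conv P.lq (q φ (n - Q.ke)))
  vm : ∀ φ D t, D ≤ 55 → 2 ≤ t → t < n → ¬ (t ≤ D ∧ t < P.ts) → C3.Full (P.VM D) (a φ (t + 1))
  lm : ∀ φ t, 2 ≤ t → t < P.ts → C3.Full (P.LM (t + 1)) (a φ (t + 1))
  mu : ∀ p z, 1 ≤ p → p < P.ts → z < p → z ≤ Q.r → C3.dg 8 (P.MU p) z = Q.μ p z
  st : C3.chkS P (ctx L 1) (mk2 (L 1) (L 2) d) (a 0 2) = true ∧ 1 ≤ P.bt (ctx L 1) (ctx L 2)
  u0 : ∀ i s, i < 64 → 2 < s → s < n → P.lane i (ctx L s) (a 0 s) ≤ B.U 0 s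
  u : ∀ φ j s, 2 < s → s ≤ P.ts → B.U j s ≤ P.lane (6600 + j) (ctx L s) (a φ s)
  bl : ∀ φ z s, z ≤ Q.r → 2 < s → s ≤ n → B.BL z s ≤ P.lane (6484 + z) (ctx L s) (a φ s)
  s1 : ∀ φ z s, z ≤ Q.r → 2 < s → s ≤ n → (Q.two = true ∨ Q.ke ≤ n - s) →
    B.S1 z s ≤ P.lane (6464 + z) (ctx L s) (a φ s)
  sn : ∀ φ z s, z ≤ Q.r → 2 < s → s ≤ n → Q.two = false → n - s < Q.ke →
    B.SN φ z s ≤ P.lane (6464 + z) (ctx L s) (a φ s)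
  s2 : ∀ φ s, 2 < s → s ≤ n → Q.two = true → B.S2 s ≤ P.lane 6473 (ctx L s) (a φ s)
  s3 : ∀ φ z s, z ≤ Q.r → 2 < s → s ≤ n → Q.two = true →
    B.S3 z s ≤ P.lane (6474 + z) (ctx L s) (a φ s)

end Pool.Agent.Work.MP_7cb3ca_co.Fn
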