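import Pool.Agent.Work.MP_7cb3ca_co.Fn.Run
import Pool.Agent.Work.MP_7cb3ca_co.Fn.Link
import Pool.Agent.Work.MP_7cb3ca_co.Fn.Ext
import Pool.Agent.Work.MP_7cb3ca_co.C3.Step

/-! A certificate yields the steps of the construction. -/

namespace Pool.Agent.Work.MP_7cb3ca_co.Fn

open Finset Function P3

/-- The word `w` spells the letters of `f` before time `t`, newest first. -/
def Sp (t : ℕ) (f : ℕ → ℕ) (w : List ℕ) : Prop :=
  w.length = t + 4 ∧ ∀ i < t, gd w i = f (t - 1 - i)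

variable {P : C3.Par} {Q : Par} {L : ℕ → Finset ℕ} {n d : ℕ} {B : Tb} {a q : ℕ → ℕ → ℕ}
  {t : ℕ} {f : ℕ → ℕ} {w : List ℕ}

theorem Sp.tm (h : Sp t f w) : tm w = t := by simp [P3.tm, h.1]

theorem Sp.cons (h : Sp t f w) (x : ℕ) : Sp (t + 1) (update f t x) (x :: w) := by
  refine ⟨by simp [h.1], fun i hi => ?_⟩
  cases i with
  | zero => simp
  | succ i => rw [gd_succ, h.2 i (by omega), update_of_ne (by omega)]; congr 1; omega

theorem zeta_eq (r : ℕ) {p : ℕ} (hp : 1 ≤ p) (h0 : f 0 = d) (h : ∀ i < p, gd w i = f (p - 1 - i)) :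
    C3.zeta d w r = zeta r f d p := by
  have : C3.Zok d w = Zok f d p := by
    funext z
    rw [eq_iff_iff]
    by_cases k : z < p
    · refine and_congr (forall₂_congr fun i hi => by rw [h i (by omega)]) ?_
      rw [image_congr fun i hi => h i (by have := mem_range.1 hi; omega)]
    · refine iff_of_false (fun e => e.1 (p - 1) (by omega) ?_) fun e => e.1 (p - 1) (by omega) ?_
      · rw [h _ (by omega), tsub_self, h0]
      · rw [tsub_self, h0]
  unfold C3.zeta zeta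
  congr 1

theorem gd_drop (w : List ℕ) (l i : ℕ) : gd (w.drop l) i = gd w (l + i) := by simp [gd]

theorem anc_spec (K : Link P Q L n d B a q) {s p : ℕ} (S : Sp s f w) (h0 : f 0 = d)
    (hv : Valid L w) (hV : C3.Virt L n w) (hs : s ≤ n) (ht : s ≤ P.ts) (h1 : 1 ≤ p) (h2 : p < s)
    (h : anc f s p) :
    p ∈ C3.anc w ∧ lm w p = s - p ∧ P.mu w p = Q.μ p (zeta Q.r f d p) := by
  have a1 : lm w p = s - p := by
    refine le_antisymm (not_lt.1 fun k => ?_) (le_lm h1 (by have := S.1; omega) fun i hi => ?_)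
    · have a2 := lm_match w p _ k
      have a3 := hv (s - p) (by have := S.1; omega)
      rw [a2] at a3
      exact hV _ (by rw [S.tm]; omega) (by have := S.1; omega) _ (by have := S.1; omega) a3
    · rw [S.2 _ (by omega), S.2 _ (by omega), show s - 1 - i = p + (s - 1 - (p + i)) by omega]
      exact h _ (by omega)
  refine ⟨?_, a1, ?_⟩
  · simp only [C3.anc, mem_filter, mem_Icc, S.tm, a1]
    omega
  · have a2 := h 0 (by omega)
    unfold C3.Par.mu
    rw [a1, S.2 _ (by omega), show s - 1 - (s - p - 1) = p + 0 by omega, a2, h0, K.r,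
      zeta_eq (f := f) Q.r h1 h0 fun i hi => by
        rw [gd_drop, S.2 _ (by omega)]; congr 1; omega]
    exact K.mu p _ h1 (by omega) (zeta_lt _ h0 h1) (zeta_le _ _ _ _)

theorem cap_eq (K : Link P Q L n d B a q) (φ : ℕ) : P.cap L 2 (a φ) = P.cap L 2 (a 0) := by
  funext u
  have h1 := amk_lt (L (tm u)) (gd u)
  have h2 : pat4 (gd u) ≤ 3 := by
    simp only [pat4, pat_eq]
    split_ifs <;> omega
  simp only [C3.Par.cap, C3.hk, C3.Par.tv]
  split_ifs with h
  · rw [K.cap φ _ _ (by omega) h]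
  · rfl

theorem cap_le (K : Link P Q L n d B a q) (φ : ℕ) {u : List ℕ} (h1 : 2 < tm u) (h2 : tm u < n) :
    P.cap L 2 (a φ) u ≤ B.U 0 (tm u) := by
  have h3 := amk_lt (L (tm u)) (gd u)
  have h4 : pat4 (gd u) ≤ 3 := by
    simp only [pat4, pat_eq]
    split_ifs <;> omega
  rw [cap_eq K]
  simp only [C3.Par.cap, C3.hk, C3.Par.tv]
  rw [if_pos h1.le]
  exact K.u0 _ _ (by omega) h1 h2

theorem inv_fam (K : Link P Q L n d B a q) (φ : ℕ) {D i g1 g2 : ℕ} {e : ℝ} :
    C3.InvE P L n 2 (a φ) w D i g1 g2 e ↔ C3.InvE P L n 2 (a 0) w D i g1 g2 e := by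
  unfold C3.InvE
  rw [cap_eq K]

/-- The first label at time `t`. -/
def lb (Q : Par) (n d t x : ℕ) : ℕ := if Q.two = true ∨ Q.ke < n - t then d else x

theorem depart (H : C3.CertE P) (hL : ∀ t, (L t).card = 3) (K : Link P Q L n d B a q) (φ : ℕ)
    {D x : ℕ} {e : ℝ} (h1 : 1 ≤ t) (h2 : t + 1 < n)
    (I : C3.InvE P L n 2 (a 0) w D (a φ (t + 1)) (lb Q n d t x) x e) :
    C3.InvE P L n 2 (a 0) w D (q φ (t + 1)) (lb Q n d (t + 1) x) x e := by
  by_cases h : Q.two = false ∧ t + 1 = n - Q.ke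
  · obtain ⟨a1, a2⟩ := K.rel φ h.1 (by omega)
    rw [h.2, a1] at I
    rw [h.2]
    have := I.relabel H hL (lb Q n d (n - Q.ke) x) x
    rcases a2 with a2 | a2
    exacts [a2 ▸ this, this.conv H hL a2]
  · have e1 : lb Q n d (t + 1) x = lb Q n d t x := if_congr (by
      cases h3 : Q.two
      · simp only [h3, true_and] at h
        simp only [Bool.false_eq_true, false_or]
        omega
      · simp) rfl rfl
    rw [e1]
    rcases (K.lanes φ).conv (t + 1) (by omega) h2 with a2 | a2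
    exacts [a2 ▸ I, I.conv H hL a2]

/-- The invariant for the letters `f` before time `t`. -/
def GI (P : C3.Par) (Q : Par) (L : ℕ → Finset ℕ) (n d : ℕ) (a q : ℕ → ℕ → ℕ) (t : ℕ) (f : ℕ → ℕ)
    (D : ℕ) (e : ℝ) : Prop :=
  ∃ w, Sp t f w ∧ (t = n → Free w ∧ e < (P.tau % 65536 : ℕ)) ∧
    (t ≠ n → C3.InvE P L n 2 (a 0) w D (q (fam Q.r f d) t) (lb Q n d t (f 1)) (f 1) e)

theorem lab_le (K : Link P Q L n d B a q) (S : Sp t f w) (h0 : f 0 = d) (h2 : 2 ≤ t) (hn : t < n)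
    (x : ℕ) : lab Q B n d t f x (C3.zeta x w Q.r) ≤
      P.ex1 (ctx L (t + 1)) (a (fam Q.r f d) (t + 1)) w (lb Q n d t (f 1)) (f 1) x := by
  have z1 : C3.zeta x w Q.r ≤ Q.r := Nat.findGreatest_le _
  unfold lab C3.Par.ex1 lb
  rw [K.r, K.two, Nat.cast_add]
  refine add_le_add ?_ ?_
  · split_ifs with h1 h3 h3
    · exact K.s1 _ _ _ z1 (by omega) hn (h1.imp_right fun k => by omega)
    · simp
    · rw [not_or] at h1
      exact K.sn _ _ _ z1 (by omega) hn (by simpa using h1.1) (by omega)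
    · simp
  · by_cases h1 : Q.two = true ∧ x = f 1
    · rw [if_pos h1, if_pos h1, if_pos (Or.inl h1.1), S.2 0 (by omega), tsub_zero, Nat.cast_add]
      refine add_le_add (K.s2 _ _ (by omega) hn h1.1) ?_
      split_ifs
      · rw [zeta_eq (f := f) (p := t - 1) Q.r (by omega) h0 fun i hi => by
          rw [← List.drop_one, gd_drop, S.2 _ (by omega)]; congr 1; omega]
        exact K.s3 _ _ _ (zeta_le _ _ _ _) (by omega) hn h1.1
      · simp
    · rw [if_neg h1, if_neg h1, Nat.cast_zero]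

theorem sys (H : C3.CertE P) (hL : ∀ t, (L t).card = 3) (K : Link P Q L n d B a q) (hr : 1 ≤ Q.r)
    (hd : d ∈ L 0) :
    Sys Q L n d P.ts (C3.bet (P.bb L)) 65535 (P.tau % 65536 : ℕ) B (GI P Q L n d a q) := by
  have hl := K.len
  refine ⟨C3.bet_pos (H.tab.stab hL (K.lanes 0)), ?_, ?_, ?_, ?_, ?_⟩
  · rintro t f D e e' ⟨w, S, a1, a2⟩ h1 h2
    exact ⟨w, S, fun k => ⟨(a1 k).1, h2.trans_lt (a1 k).2⟩, fun k => (a2 k).mono h1 h2⟩
  · rintro t f D e ⟨w, S, a1, a2⟩
    split_ifs with k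
    exacts [(a1 k).2, (a2 k).bound]
  · rintro f D e ⟨w, S, a1, -⟩ s m hm hs h
    refine (a1 rfl).1 (n - s - 2 * m) m hm (by have := S.1; omega) fun i hi => ?_
    rw [S.2 _ (by omega), S.2 _ (by omega),
      show n - 1 - (n - s - 2 * m + i) = s + (m - 1 - i) + m by omega,
      show n - 1 - (n - s - 2 * m + m + i) = s + (m - 1 - i) by omega, h _ (by omega)]
  · obtain ⟨v, a1, x, a2, D, -, I, -⟩ := C3.InvE.start H hL (K.lanes 0) (by omega) hd K.st.1 K.st.2
      fun k => by have := (K.lf 0 2 le_rfl (by omega)).1 k; omega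
    refine ⟨fun i => if i = 0 then d else x, D, rfl, a2, fun k => ?_, x :: d :: v,
      ⟨by simp [a1], fun i hi => by interval_cases i <;> rfl⟩, fun k => by omega, fun _ => ?_⟩
    · exact I.1 0 1 le_rfl (by simp) fun i hi => by
        obtain rfl : i = 0 := by omega
        exact k
    · rw [K.same _ 2 (by omega)]
      refine depart H hL K 0 le_rfl (by omega) ?_
      rw [lb, if_pos (Or.inr (by omega))]
      exact I.mono le_rfl I.2.2.2.2.2.1
  rintro t f D e h2 hn h0 ⟨w, S, -, I⟩ eo h3 h4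
  have I := I hn.ne
  obtain rfl := S.tm.symm
  have hD := (I.depth H hL).2
  have hv := K.vm (fam Q.r f d) D (tm w) hD h2 hn
  obtain ⟨x, hx, b1, b2, b3, b4⟩ := ((inv_fam K (fam Q.r f d)).2 I).step H hL (K.lanes _) h2 hn
    (fun k e => by
      rw [lb, if_pos (Or.inl (K.two ▸ k))] at e
      refine I.1 (tm w - 2) 1 le_rfl (by have := S.1; omega) fun i hi => ?_
      rw [S.2 _ (by omega), S.2 _ (by omega), show tm w - 1 - (tm w - 2 + i) = 1 by omega,
        show tm w - 1 - (tm w - 2 + 1 + i) = 0 by omega, h0, e])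
    (fun i k1 k2 => K.vm _ i _ k1 h2 hn (by omega)) eo h3 h4
  have S' := S.cons x
  have c0 : update f (tm w) x 0 = d := (update_of_ne (by omega) _ _).trans h0
  have c1 := K.bl (fam Q.r f d) (C3.zeta0 (x :: w) Q.r) (tm w + 1) (Nat.findGreatest_le _)
    (by omega) hn
  have c2 := lab_le K S h0 h2 hn x
  have c3 : ∀ D' X, GI P Q L n d a q (tm w + 1) (update f (tm w) x) D' (eo x + X) → D' ≤ D + 1 →
      _ → _ → _ := fun D' X k1 k2 k3 k4 => (⟨x, hx, D', k2, X, C3.zeta0 (x :: w) Q.r,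
    C3.zeta x w Q.r, k1, fun k => b2.trans_le (S'.tm ▸ cap_le K _ (by rw [S'.tm]; omega)
      (by rwa [S'.tm])), Nat.findGreatest_le _, fun m m1 m2 m3 => Nat.le_findGreatest m1 (by
        rwa [image_congr (g := fun i => update f (tm w) x (tm w - i))
          fun i hi => S'.2 i (by have := mem_range.1 hi; omega)]), Nat.findGreatest_le _,
    fun k => k ▸ zeta_eq Q.r (by omega) (k ▸ h0) S.2, k3, k4⟩ :
      ∃ x ∈ L (tm w), ∃ D' ≤ D + 1, ∃ X z0 z, GI P Q L n d a q (tm w + 1) (update f (tm w) x) D'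
        (eo x + X) ∧ (tm w + 1 < n → eo x < B.U 0 (tm w + 1)) ∧ z0 ≤ Q.r ∧ (∀ m ≤ Q.r, m ≤ tm w + 1 →
        ((range m).image fun i => update f (tm w) x (tm w - i)).card ≤ 3 → m ≤ z0) ∧
      z ≤ Q.r ∧ (x = d → z = zeta Q.r f d (tm w)) ∧
      B.BL z0 (tm w + 1) + (if tm w ≤ D ∧ tm w < P.ts then
        (if D' ≤ tm w ∨ P.ts ≤ tm w + 1 then anch Q B d (tm w + 1) (update f (tm w) x) else 0)
        else lab Q B n d (tm w) f x z) ≤ X ∧
      (tm w ≤ D → tm w < P.ts → ∀ p, 1 ≤ p → p ≤ tm w → anc (update f (tm w) x) (tm w + 1) p →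
        tm w + 1 - p ≤ Q.μ p (zeta Q.r f d p)))
  have hf := K.lf (fam Q.r f d) (tm w + 1) (by omega) hn
  by_cases k : tm w + 1 = n
  · have h : ¬ (tm w ≤ D ∧ tm w < P.ts) := by omega
    have b5 := b3 (hf.2 k)
    rw [← hf.2 k] at b5
    refine c3 D _ ⟨_, S', fun _ => ⟨b1, b5⟩, fun k' => absurd k k'⟩ (by omega) ?_ (by omega)
    rw [if_neg h, C3.Par.extra, if_pos (hv h), C3.Par.ex0, K.r, Nat.cast_add]
    exact add_le_add c1 c2
  obtain ⟨D', d1, I', d2⟩ := b4 (mt hf.1 k)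
  have d3 := fun (k2 : tm w < P.ts) p p1 (p2 : p ≤ tm w) => anc_spec K (p := p) S' c0 I'.2.1
    I'.2.2.1 hn k2 p1 (by omega)
  have d4 : ∀ p, 1 ≤ p → p ≤ tm w → zeta Q.r (update f (tm w) x) d p = zeta Q.r f d p :=
    fun p p1 p2 => zeta_congr _ _ p1 fun i hi => update_of_ne (by omega) _ _
  have d5 := fun k1 k2 p p1 p2 p3 => by
    obtain ⟨e1, e2, e3⟩ := d3 k2 p p1 p2 p3
    have := d2 k1 (K.lm _ _ h2 k2) p e1
    rw [e2, e3] at this
    exact this
  have e1 : q (fam Q.r (update f (tm w) x) d) (tm w + 1) = q (fam Q.r f d) (tm w + 1) := by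
    by_cases k' : tm w ≤ Q.r
    · rw [K.same _ _ (by omega), K.same (fam Q.r f d) _ (by omega)]
    · rw [fam_congr (g := f) fun i hi => update_of_ne (by omega) _ _]
  rw [add_assoc] at I'
  refine c3 D' _ ⟨_, S', fun k' => absurd k' k, fun _ => by
    rw [e1, update_of_ne (by omega)]
    exact depart H hL K _ (by omega) (by omega) ((inv_fam K _).1 I')⟩ d1 ?_
    fun k1 k2 p p1 p2 p3 => d4 p p1 p2 ▸ d5 k1 k2 p p1 p2 p3
  rw [C3.Par.extra, C3.Par.ex0, K.r, Nat.cast_add, add_assoc]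
  refine add_le_add c1 ?_
  split_ifs with h h' h1 h1 h1
  iterate 2
    refine le_add_of_nonneg_of_le (Nat.cast_nonneg _) ?_
    rw [C3.Par.extra', S'.tm, if_pos ⟨by omega, K.lm _ _ h2 h.2, by omega⟩, C3.Par.ex2,
      Nat.cast_sum]
    classical
    refine le_trans (sum_le_sum fun p hp => ?_) (sum_le_sum_of_subset_of_nonneg
      (fun p hp => ?_) fun _ _ _ => Nat.cast_nonneg _) <;>
      obtain ⟨p1, p2⟩ := mem_filter.1 hp <;> rw [mem_Ico] at p1 <;>
      obtain ⟨e1, e2, e3⟩ := d3 h.2 p p1.1 (by omega) p2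
    · have := d5 h.1 h.2 p p1.1 (by omega) p2
      rw [e2, e3, show ∀ m l, l ≤ m → 6601 + m - l = 6600 + (m + 1 - l) by omega]
      exacts [K.u _ _ _ (by omega) h.2, this]
    · exact e1
  · positivity
  · positivity
  · exact le_add_of_le_of_nonneg c2 (Nat.cast_nonneg _)
  · exact absurd (hv h) h1

theorem fin (H : C3.CertE P) (hQ : Q.OK) {r2 pre : ℕ} (S : SH n Q.r r2 L d)
    (K : Link P Q L n d B a q)
    (C : Chg Q L n d pre (C3.bet (P.bb L)) 65535 (P.tau % 65536 : ℕ) B) : Cyc n L :=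
  have Y := sys H S.card K hQ.r1 S.d0
  run ⟨hQ, C, Y.pos, by norm_num, fun j _ => S.card j, S.dn, S.last⟩ (Nat.cast_nonneg _) Y S.d0
    (by have := K.len.1; have := hQ.r1; omega) K.len.2

end Pool.Agent.Work.MP_7cb3ca_co.Fn
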