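import Pool.Agent.Work.MP_7cb3ca_co.Fn.Cross
import Pool.Agent.Work.MP_7cb3ca_co.Fn.Debt

/-! The parameters of an instance, the tables of charges along the time, and the steps of the
construction. -/

namespace Pool.Agent.Work.MP_7cb3ca_co.Fn

open Finset Function

/-- The last `z` letters before time `t` avoid `x` and use at most three colours. -/
def Zok (f : ℕ → ℕ) (x t z : ℕ) : Prop :=
  (∀ i < z, f (t - 1 - i) ≠ x) ∧ ((range z).image fun i => f (t - 1 - i)).card ≤ 3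

open Classical in
/-- The largest such `z ≤ r`. -/
noncomputable def zeta (r : ℕ) (f : ℕ → ℕ) (x t : ℕ) : ℕ := Nat.findGreatest (Zok f x t) r

/-- The number of letters after the first one that differ from `d`, at most `r`. -/
def fam (r : ℕ) (f : ℕ → ℕ) (d : ℕ) : ℕ := Nat.findGreatest (fun a => ∀ i < a, f (1 + i) ≠ d) r

/-- The parameters of an instance: the length `r` of the final run, one or two labels, the time to
go `ke` from which the only label is the second letter, the longest allowed match `μ p z` with the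
start, the bans that are charged one step later, the lengths `α i` of the blind events and the
lengths `nr` of the events that start with the second letter. -/
structure Par where
  r : ℕ
  two : Bool
  ke : ℕ
  μ : ℕ → ℕ → ℕ
  late : ℕ → ℕ → Bool
  α : ℕ → ℕ
  nr : ℕ → Bool

/-- The block `i` of periods carries a blind event. -/
def Par.live (Q : Par) (i : ℕ) : Prop := 1 ≤ i ∧ Q.α i < i * (Q.r + 1) + Q.r

/-- The parameters cover all squares with fewer than `p` letters before the seam. -/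
structure Par.OK (Q : Par) : Prop where
  r1 : 1 ≤ Q.r
  lt : ∀ p z, z < p → z ≤ Q.r → Q.μ p z < p ∧ Q.μ p z ≤ 44
  cov : ∀ p z a, z < p → z ≤ Q.r → 1 ≤ a → a < p → p ≤ a + Q.μ p z →
    (z < Q.r ∧ z < a) ∨ (p = a + 1 ∧ Q.nr a = true) ∨ (z = Q.r ∧ Q.α (p / (Q.r + 1)) ≤ a)
  late : ∀ p z, Q.late p z = true → Q.two = true ∧ 1 ≤ Q.μ p z
  ke : Q.two = false → Q.ke ≤ Q.r ∧ ∀ a, Q.nr a = true → a ≤ Q.ke
  inj : ∀ i j, Q.live i → Q.live j → Q.α i = Q.α j → i = j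

/-- The number of events that are charged for the first letter when `k` letters are to go. -/
def Par.cnt1 (Q : Par) (k z : ℕ) : ℕ :=
  if Q.two = true then (if z = Q.r ∨ k ≤ z + 1 then 1 else 0)
  else if z = Q.r then k else min (z + 1) k

/-- The number of events that are charged for the second letter when `k` letters are to go. -/
def Par.cnt2 (Q : Par) (k z : ℕ) : ℕ := if z = Q.r then k else min (z + 1) k

/-- The ban cannot be violated if the first `pre` letters have four colours. -/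
def Par.void (Q : Par) (L : ℕ → Finset ℕ) (pre p z : ℕ) : Prop :=
  pre ≠ 0 ∧ pre ≤ Q.μ p z + 1 ∧ ∀ i < pre, L (p + i) = L p

/-- Tables whose last argument is the time of arrival. -/
structure Tb where
  E : ℕ → ℝ
  U : ℕ → ℕ → ℝ
  BL : ℕ → ℕ → ℝ
  S1 : ℕ → ℕ → ℝ
  S2 : ℕ → ℝ
  S3 : ℕ → ℕ → ℝ
  SN : ℕ → ℕ → ℕ → ℝ

/-- The charges pay for all events. -/
structure Chg (Q : Par) (L : ℕ → Finset ℕ) (n d pre : ℕ) (β : ℕ → ℝ) (top τ : ℝ) (B : Tb) :
    Prop where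
  nn : ∀ j s, 0 ≤ B.E s ∧ 0 ≤ B.U j s ∧ 0 ≤ B.BL j s ∧ 0 ≤ B.S1 j s ∧ 0 ≤ B.S2 s ∧ 0 ≤ B.S3 j s
  nn' : ∀ a j s, 0 ≤ B.SN a j s
  e1 : τ ≤ B.E n
  e2 : ∀ t, n < 2 * t → t < n → B.E (t + 1) ≤ β t * B.E t
  u1 : ∀ j t, j < 44 → 2 ≤ t → t + 1 + j < n → B.U j (t + 1) ≤ β t * B.U (j + 1) t
  far : ∀ i z, Q.live i → 2 * (Q.α i + 1) < n → z ≤ Q.r → B.E (n - Q.α i) ≤ B.BL z (n - Q.α i)
  pf : pre ≠ 0 → 3 ≤ pre ∧ pre ≤ Q.r ∧ pre < n ∧ ∀ z, pre ≤ z → z ≤ Q.r → top ≤ B.BL z pre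
  s1 : ∀ t z, n < 2 * t → t < n → z ≤ Q.r → d ∈ L t →
    Q.cnt1 (n - t) z * B.E (t + 1) ≤ B.S1 z (t + 1)
  b1 : ∀ t z, 2 ≤ t → 2 * t < n → z < t → z ≤ Q.r → d ∈ L t → Q.late t z = false →
    ¬ Q.void L pre t z → (if Q.μ t z = 0 then top else B.U (Q.μ t z) (t + 1)) ≤ B.S1 z (t + 1)
  nr : ∀ a z, 1 ≤ a → Q.nr a = true → 2 * (a + 1) < n → z ≤ Q.r →
    B.E (n - a + 1) ≤ if Q.two = true then B.S2 (n - a + 1) else B.SN a z (n - a + 1)
  s3 : ∀ t z, Q.two = true → n < 2 * t → t + 1 < n → z ≤ Q.r → d ∈ L t →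
    Q.cnt2 (n - (t + 1)) z * B.E (t + 2) ≤ B.S3 z (t + 2)
  b3 : ∀ t z, 2 ≤ t → 2 * t < n → z < t → z ≤ Q.r → d ∈ L t → Q.late t z = true →
    ¬ Q.void L pre t z →
    (if Q.μ t z = 1 then top else B.U (Q.μ t z - 1) (t + 2)) ≤ B.S3 z (t + 2)

/-- The letters from time `p` to time `s - 1` repeat the first letters. -/
def anc (f : ℕ → ℕ) (s p : ℕ) : Prop := ∀ i < s - p, f (p + i) = f i

open Classical in
/-- The charge for the bans that are open at time `s`. -/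
noncomputable def anch (Q : Par) (B : Tb) (d s : ℕ) (f : ℕ → ℕ) : ℝ :=
  ∑ p ∈ Ico 1 s with anc f s p, B.U (Q.μ p (zeta Q.r f d p) + 1 - (s - p)) s

/-- The charge for the labels, for the letter `x` at time `t`. -/
noncomputable def lab (Q : Par) (B : Tb) (n d t : ℕ) (f : ℕ → ℕ) (x z : ℕ) : ℝ :=
  (if Q.two = true ∨ Q.ke < n - t then (if x = d then B.S1 z (t + 1) else 0)
    else if x = f 1 then B.SN (fam Q.r f d) z (t + 1) else 0) +
    if Q.two = true ∧ x = f 1 then B.S2 (t + 1) +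
      (if f (t - 1) = d then B.S3 (zeta Q.r f d (t - 1)) (t + 1) else 0) else 0

/-- The steps of the construction. `I t f D e` says that the letters `f 0, ..., f (t - 1)` have
depth `D` and can pay the debt `e`. -/
structure Sys (Q : Par) (L : ℕ → Finset ℕ) (n d ts : ℕ) (β : ℕ → ℝ) (top τ : ℝ) (B : Tb)
    (I : ℕ → (ℕ → ℕ) → ℕ → ℝ → Prop) : Prop where
  pos : ∀ t, 0 < β t
  mono : ∀ t f D e e', I t f D e → 0 ≤ e' → e' ≤ e → I t f D e'
  bound : ∀ t f D e, I t f D e → e < if t = n then τ else top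
  free : ∀ f D e, I n f D e →
    ∀ s m, 1 ≤ m → s + 2 * m ≤ n → ¬ ∀ i < m, f (s + i) = f (s + i + m)
  start : ∃ f D, f 0 = d ∧ f 1 ∈ L 1 ∧ f 1 ≠ d ∧ I 2 f D 0
  step : ∀ t f D e, 2 ≤ t → t < n → f 0 = d → I t f D e → ∀ eo : ℕ → ℝ, (∀ x, 0 ≤ eo x) →
    ∑ x ∈ L t, eo x ≤ β t * e → ∃ x ∈ L t, ∃ D' ≤ D + 1, ∃ X z0 z,
      I (t + 1) (update f t x) D' (eo x + X) ∧ (t + 1 < n → eo x < B.U 0 (t + 1)) ∧
      z0 ≤ Q.r ∧ (∀ m ≤ Q.r, m ≤ t + 1 →
        ((range m).image fun i => update f t x (t - i)).card ≤ 3 → m ≤ z0) ∧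
      z ≤ Q.r ∧ (x = d → z = zeta Q.r f d t) ∧
      B.BL z0 (t + 1) + (if t ≤ D ∧ t < ts then
        (if D' ≤ t ∨ ts ≤ t + 1 then anch Q B d (t + 1) (update f t x) else 0)
        else lab Q B n d t f x z) ≤ X ∧
      (t ≤ D → t < ts → ∀ p, 1 ≤ p → p ≤ t → anc (update f t x) (t + 1) p →
        t + 1 - p ≤ Q.μ p (zeta Q.r f d p))

end Pool.Agent.Work.MP_7cb3ca_co.Fn
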