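import Pool.Agent.Work.MP_7cb3ca_co.Fn.Iface

/-! The parameters of an instance from finite data. -/

namespace Pool.Agent.Work.MP_7cb3ca_co.Fn

/-- Finite data: the final run, one or two labels, the time `T` from which the allowed matches
are constant, the time `p0` up to which the first letter is banned, the first lengths of the blind
events and their growth afterwards, the near lengths. -/
structure PD where
  r : ℕ
  two : Bool
  T : ℕ
  p0 : ℕ
  al : List ℕ
  sg : ℕ
  nr : List ℕ

namespace PD

variable (D : PD)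

/-- The length of the blind event of block `i`. -/
def α (i : ℕ) : ℕ := D.al.getD (min i D.al.length - 1) 0 + D.sg * (i - D.al.length)

/-- The longest match with the start that the events allow. -/
def mu0 (p z : ℕ) : ℕ :=
  min 44 (if p ≤ D.p0 then 0 else if D.r ≤ z ∧ D.r < p then p - D.α (p / (D.r + 1))
    else if p ≤ z + 1 then (if D.nr.contains (p - 1) = true then 1 else 0) else p - z - 1)

/-- The least value of `mu0` at the times `p, ..., p + j`. -/
def muS (p z : ℕ) : ℕ → ℕ
  | 0 => D.mu0 p z
  | j + 1 => min (muS p z j) (D.mu0 (p + j + 1) z)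

/-- The longest allowed match, constant from time `T` on. -/
def mu (p z : ℕ) : ℕ := if p < D.T then D.mu0 p z else D.muS D.T z D.r

/-- The parameters. -/
def par : Par :=
  ⟨D.r, D.two, if D.two = true then 0 else D.r, D.mu, fun p z => D.two && decide (1 ≤ D.mu p z),
    D.α, fun a => D.nr.contains a⟩

/-- The finite check for block `i`. -/
def GoodAt (i : ℕ) : Prop :=
  1 ≤ D.α i ∧ D.α i ≤ D.α D.al.length ∧ D.α (i + 1) ≤ D.α i + D.r + 1 ∧
    ∀ j < i, 1 ≤ j → D.α j < j * (D.r + 1) + D.r → D.α i < i * (D.r + 1) + D.r → D.α j ≠ D.α i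

instance (i : ℕ) : Decidable (D.GoodAt i) := by unfold GoodAt; infer_instance

/-- The finite check. -/
def Good : Prop :=
  1 ≤ D.r ∧ D.r + 2 ≤ D.T ∧ 1 ≤ D.sg ∧ D.sg ≤ D.r + 1 ∧ (∀ a ∈ D.nr, 1 ≤ a ∧ a ≤ D.r) ∧
    ∀ i < D.al.length + 1, D.GoodAt i

instance : Decidable D.Good := by unfold Good; infer_instance

/-- The number `a` is the length of a blind event. -/
def blind (a : ℕ) : Bool :=
  (List.range (D.al.length + a + 1)).any fun i =>
    decide (1 ≤ i ∧ D.α i = a ∧ a < i * (D.r + 1) + D.r)

variable {D}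

theorem α_ge {i : ℕ} (h : D.al.length ≤ i) :
    D.α i = D.α D.al.length + D.sg * (i - D.al.length) := by
  simp [α, min_eq_right h]

theorem α_succ {i : ℕ} (h : D.al.length ≤ i) : D.α (i + 1) = D.α i + D.sg := by
  rw [α_ge h, α_ge (Nat.le_succ_of_le h), show i + 1 - D.al.length = i - D.al.length + 1 by omega,
    mul_add, mul_one, add_assoc]

theorem Good.pos (h : D.Good) (i : ℕ) : 1 ≤ D.α i := by
  rcases le_total i D.al.length with k | k
  · exact (h.2.2.2.2.2 i (by omega)).1
  · have := (h.2.2.2.2.2 D.al.length (by omega)).1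
    rw [α_ge k]; omega

theorem Good.step (h : D.Good) (i : ℕ) : D.α (i + 1) ≤ D.α i + D.r + 1 := by
  rcases le_total i D.al.length with k | k
  · exact (h.2.2.2.2.2 i (by omega)).2.2.1
  · have := h.2.2.2.1
    rw [α_succ k]; omega

theorem Good.lt (h : D.Good) {i j : ℕ} (k : j < i) (hi : D.al.length < i) : D.α j < D.α i := by
  have h1 := h.2.2.1
  rw [α_ge hi.le]
  rcases le_total j D.al.length with m | m
  · have := (h.2.2.2.2.2 j (by omega)).2.1
    have : 1 * 1 ≤ D.sg * (i - D.al.length) := Nat.mul_le_mul h1 (by omega)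
    omega
  · rw [α_ge m]
    exact Nat.add_lt_add_left (Nat.mul_lt_mul_of_pos_left (by omega) h1) _

theorem Good.blind (h : D.Good) {i : ℕ} (hi : D.par.live i) : D.blind (D.α i) = true := by
  refine List.any_eq_true.2 ⟨i, List.mem_range.2 ?_, decide_eq_true ⟨hi.1, rfl, hi.2⟩⟩
  rcases le_total i D.al.length with k | k
  · omega
  · have : 1 * (i - D.al.length) ≤ D.sg * (i - D.al.length) := Nat.mul_le_mul_right _ h.2.2.1
    have := α_ge k
    omega

theorem muS_le (p z : ℕ) : ∀ j i, i ≤ j → D.muS p z j ≤ D.mu0 (p + i) z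
  | 0, i, h => by obtain rfl : i = 0 := by omega
                  exact le_rfl
  | j + 1, i, h => by
    rcases Nat.lt_or_ge j i with k | k
    · obtain rfl : i = j + 1 := by omega
      exact min_le_right _ _
    · exact (min_le_left _ _).trans (muS_le p z j i k)

theorem Good.shift (h : D.Good) {p z : ℕ} (hp : D.r + 2 ≤ p) (hz : z ≤ D.r) :
    D.mu0 p z ≤ D.mu0 (p + (D.r + 1)) z := by
  have h1 := h.step (p / (D.r + 1))
  unfold mu0
  rw [Nat.add_div_right _ (by omega : 0 < D.r + 1)]
  refine min_le_min le_rfl ?_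
  split_ifs <;> omega

/-- From time `p` on the matches are at least the least of the next `r + 1` values. -/
theorem Good.muS (h : D.Good) {p z : ℕ} (hp : D.r + 2 ≤ p) (hz : z ≤ D.r) (i : ℕ) :
    D.muS p z D.r ≤ D.mu0 (p + i) z := by
  induction i using Nat.strong_induction_on with
  | _ i ih =>
    rcases Nat.lt_or_ge D.r i with k | k
    · have := h.shift (p := p + (i - (D.r + 1))) (by omega) hz
      rw [show p + (i - (D.r + 1)) + (D.r + 1) = p + i by omega] at this
      exact (ih _ (by omega)).trans this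
    · exact muS_le p z _ i k

theorem Good.mu_le (h : D.Good) (p : ℕ) {z : ℕ} (hz : z ≤ D.r) : D.mu p z ≤ D.mu0 p z := by
  unfold mu
  split_ifs with k
  · exact le_rfl
  · have := h.muS h.2.1 hz (p - D.T)
    rwa [show D.T + (p - D.T) = p by omega] at this

theorem mu_lt {p : ℕ} (h : p < D.T) (z : ℕ) : D.mu p z = D.mu0 p z := if_pos h

theorem mu_clip (p z : ℕ) : D.mu p z = D.mu (min p D.T) z := by
  rcases le_total p D.T with k | k
  · rw [min_eq_left k]
  · rw [min_eq_right k, mu, mu, if_neg (by omega), if_neg (by omega)]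

theorem late_clip (p z : ℕ) : D.par.late p z = D.par.late (min p D.T) z := by
  simp only [par]
  rw [← mu_clip]

theorem Good.nr (h : D.Good) {a : ℕ} (k : D.par.nr a = true) : 1 ≤ a ∧ a ≤ D.r :=
  h.2.2.2.2.1 a (by simpa [par] using k)

theorem Good.ok (h : D.Good) : D.par.OK := by
  refine ⟨h.1, fun p z h1 h2 => ?_, fun p z a h1 h2 h3 h4 h5 => ?_, fun p z k => ?_,
    fun k => ?_, fun i j hi hj e => ?_⟩
  · have h3 := h.mu_le p h2
    have h4 := h.pos (p / (D.r + 1))
    have h5 := h.nr (a := p - 1)
    simp only [par, mu0] at h3 h5 ⊢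
    split_ifs at h3 with a b c d
    · omega
    · omega
    · have := h5 d
      omega
    · omega
    · omega
  · have h6 := h.mu_le p h2
    simp only [par, mu0] at h2 h5 h6 ⊢
    split_ifs at h6 with b c d e
    · omega
    · exact Or.inr (Or.inr ⟨by omega, by omega⟩)
    · obtain rfl : p = a + 1 := by omega
      exact Or.inr (Or.inl ⟨rfl, e⟩)
    · omega
    · exact Or.inl ⟨by omega, by omega⟩
  · simpa [par] using k
  · have k' : D.two = false := k
    have : D.par.ke = D.r := by simp [par, k']
    rw [this]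
    exact ⟨le_rfl, fun a m => (h.nr m).2⟩
  · have key : ∀ i j, j < i → D.par.live i → D.par.live j → D.α j ≠ D.α i := fun i j k a b => by
      rcases Nat.lt_or_ge D.al.length i with m | m
      · exact (h.lt k m).ne
      · exact (h.2.2.2.2.2 i (by omega)).2.2.2 j k b.1 b.2 a.2
    rcases lt_trichotomy i j with k | k | k
    · exact absurd e (key j i k hj hi)
    · exact k
    · exact absurd e.symm (key i j k hi hj)

end PD

end Pool.Agent.Work.MP_7cb3ca_co.Fn
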