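import Pool.Agent.Work.MP_7cb3ca_co.Fn.Link
import Pool.Agent.Work.MP_7cb3ca_co.Fn.POK
import Pool.Agent.Work.MP_7cb3ca_co.Fn.Feas
import Pool.Agent.Work.MP_7cb3ca_co.C3.TabS

/-! The layout of the lanes of an instance and the finite checks of this layout. -/

namespace Pool.Agent.Work.MP_7cb3ca_co.Fn

open P3

noncomputable section

/-- The data of an instance: the bound `r2` for runs of equal lists (none if `16 ≤ r2`), the
number `KG` of final lanes, and the class of starts `SC` with its own lanes up to time `T2`. -/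
structure LD extends PD where
  r2 : ℕ
  KG : ℕ
  SC : ℕ
  T2 : ℕ

/-- Bounded statements are decided by a plain loop. -/
local instance (priority := high) decN (n : ℕ) (p : ℕ → Prop) [DecidablePred p] :
    Decidable (∀ i < n, p i) :=
  decidable_of_iff (allN (fun i => decide (p i)) n = true) (by simp only [allN_iff, decide_eq_true_eq])

/-- Statements for the members of a list are decided by a plain loop. -/
local instance (priority := high) decL (l : List ℕ) (p : ℕ → Prop) [DecidablePred p] :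
    Decidable (∀ i ∈ l, p i) :=
  decidable_of_iff (allL (fun i => decide (p i)) l = true) (by simp only [allL_iff, decide_eq_true_eq])

/-- The predecessor of lane `j`. -/
def pr (P : C3.Par) (j : ℕ) : ℕ :=
  if C3.Full P.ma j then j + 1 else if C3.Full P.ms j then j else j - 1

instance (P : C3.Par) (j i : ℕ) : Decidable (P.Pred j i) := by
  unfold C3.Par.Pred; infer_instance

instance (P : C3.Par) (c c' j : ℕ) : Decidable (P.Edge c c' j) := by
  unfold C3.Par.Edge; infer_instance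

/-- The list of conversions contains the conversion of lane `a` to lane `q`. -/
def cvB (l : C3.OL) (a q : ℕ) : Bool :=
  C3.OL.rec (motive := fun _ => Bool) false (fun s M _ ih => bor (decide (a - s % 65536 / 32 ≤ q ∧
    s = 32 * (a - (a - s % 65536 / 32)) + 65536 * (32 * (q - (a - s % 65536 / 32))) ∧
    C3.Full M (a - s % 65536 / 32))) ih) l

/-- Lane `a` is lane `q` or may be converted to it. -/
def Cv (P : C3.Par) (a q : ℕ) : Prop := a = q ∨ (a < P.K ∧ q < P.K ∧ cvB P.cv a q = true)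

instance (P : C3.Par) (a q : ℕ) : Decidable (Cv P a q) := by
  unfold Cv; infer_instance

namespace LD

variable (D : LD) (P : C3.Par)

/-- The final lane. -/
def lf : ℕ := if D.two = true then D.KG + 1 else D.KG + 4 - D.r + D.nr.length

/-- The lane of arrival with `k` letters to go, for the family with number `x`. -/
def G (x k : ℕ) : ℕ :=
  if D.KG < k then 0 else if D.two = true ∨ D.r ≤ k then 1 + D.KG - k else
    if k = 0 then D.lf else D.KG + 3 - D.r + x

/-- The lane of arrival at the early time `t`, for the class `cl`. -/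
def J (cl : Bool) (t : ℕ) : ℕ :=
  if cl = true ∧ t ≤ D.T2 then D.lf + D.KG + 1 + D.T2 - max t 2 else D.lf + D.KG + 2 - max t 2

/-- The lane of arrival at time `s` with `k` letters to go. -/
def A (cl : Bool) (x s k : ℕ) : ℕ := if s ≤ D.KG + 1 ∧ s ≤ k + 2 then D.J cl s else D.G x k

/-- The number of the family `φ`. -/
def ix (φ : ℕ) : ℕ := D.nr.idxOf φ

/-- The class of the start with context `c` and mark `s` of the first letter. -/
def cls (c s : ℕ) : Bool := decide (D.SC ≠ 0 ∧ ¬ (s = 3 ∧ D.SC ≤ cf c))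

/-- The start with context `c` and mark `s` of the first letter may occur. -/
def stF (c s : ℕ) : Prop :=
  okc D.r2 c = true ∧ ¬ (s = 3 ∧ ck c = 3) ∧ ¬ ((s = 1 ∨ s = 2) ∧ ck c = 0) ∧ ¬ (10 ≤ c ∧ (s = 0 ∨ s = 2))

instance (c s : ℕ) : Decidable (D.stF c s) := by unfold stF; infer_instance

/-- A statement for the classes that occur. -/
def AC (p : Bool → Prop) : Prop := p false ∧ (D.SC ≠ 0 → p true)

instance (p : Bool → Prop) [DecidablePred p] : Decidable (D.AC p) := by unfold AC; infer_instance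

/-- A statement for all contexts that occur. -/
def A1 (p : ℕ → Prop) : Prop := ∀ c < 90, okc D.r2 c = true → p c

instance (p : ℕ → Prop) [DecidablePred p] : Decidable (D.A1 p) := by unfold A1; infer_instance

/-- A statement for all edges that occur. -/
def A2 (p : ℕ → ℕ → Prop) : Prop := D.A1 fun c => ∀ c' ∈ nxt c, okc D.r2 c' = true → p c c'

instance (p : ℕ → ℕ → Prop) [∀ c, DecidablePred (p c)] : Decidable (D.A2 p) := by
  unfold A2; infer_instance

/-- The parameters. -/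
def C0 : Prop :=
  D.Good ∧ P.r1 = D.r ∧ P.two = D.two ∧ D.r ≤ 8 ∧ P.ts ≤ 12 ∧ P.ts ≤ D.KG + 1 ∧ 10 ≤ D.KG ∧
    D.KG + 1 ≤ D.T ∧ (D.two = true → D.nr = []) ∧ P.lf = D.lf ∧
    (D.SC ≠ 0 → 2 ≤ D.SC ∧ D.SC < D.r ∧ D.SC < D.T2) ∧
    (D.two = false → P.la = D.G 0 D.r ∧
      ∀ x < D.nr.length + 1, Cv P P.lq (pr P (D.G x (D.r - 1)))) ∧
    (∀ p < P.ts, ∀ z < D.r + 1, 1 ≤ p → C3.dg 8 (P.MU p) z = D.mu p z) ∧
    P.tau % 65536 ≤ P.lane 6700 2 D.lf

/-- The early lanes. -/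
def C1 : Prop := D.AC fun cl => ∀ t < D.KG + 2, D.J cl t < P.K ∧ D.J cl t ≠ D.lf ∧
  (3 ≤ t → P.Pred (D.J cl t) (pr P (D.J cl t)) ∧ Cv P (D.J cl (t - 1)) (pr P (D.J cl t)) ∧
    (t ≤ P.ts → C3.Full (P.LM t) (D.J cl t)) ∧
    (∀ h < 56, ¬ (t ≤ h + 1 ∧ t ≤ P.ts) → C3.Full (P.VM h) (D.J cl t)) ∧
    D.A2 fun c c' => P.Edge c c' (D.J cl t)) ∧
  ∀ δ < 4, 23 ≤ 2 * t + δ - 1 → (δ ≤ 1 ∨ t = D.KG + 1) →
    Cv P (D.J cl t) (pr P (D.G 0 (t + δ - 3)))

/-- The late lanes. -/
def C2 : Prop := ∀ x < D.nr.length + 1, ∀ k < D.KG + 2,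
  P.Pred (D.G x k) (pr P (D.G x k)) ∧ Cv P (D.G x (k + 1)) (pr P (D.G x k)) ∧
    (k ≠ 0 → D.G x k ≠ D.lf) ∧ (∀ h < 56, C3.Full (P.VM h) (D.G x k)) ∧
    ((x = 0 ∨ k < D.r) →
      D.A2 fun c c' => (D.KG < k ∨ edge D.r D.r2 c (k + 1) c' = true) → P.Edge c c' (D.G x k))

/-- The caps and the costs of the bans. -/
def C3 : Prop :=
  (∀ i < 64, ∀ e < 9, C3.domR P e i 6600 = true) ∧
  (∀ j < 44, (∀ c < 90, C3.stepR P (6600 + j) (6601 + j) c = true) ∧
    ∀ e < 9, C3.convR P e (6601 + j) = true) ∧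
  ∀ x < D.nr.length, ∀ i < 64, D.A1 fun c =>
    P.lane i c (D.KG + 3 - D.r + x) = P.lane i c (D.KG + 3 - D.r + D.nr.length)

/-- The cost of an event at the seam. -/
def C4 : Prop :=
  (∀ k < D.KG + 1, D.A2 fun c c' => edge D.r D.r2 c (k + 1) c' = true →
    4096 * P.lane 6700 c' (D.G (D.ix 0) k) ≤ P.bt c c' * P.lane 6700 c (D.G (D.ix 0) (k + 1))) ∧
  (D.A2 fun c c' =>
    (D.KG + 3) * (4096 * P.lane 6700 c' 0) ≤ (D.KG + 2) * (P.bt c c' * P.lane 6700 c 0)) ∧
  (∀ a < D.KG + 2, (D.KG < a ∨ D.blind a = true) → (D.two = true ∨ D.r ≤ a) ∧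
    ∀ z < D.r + 1, D.A1 fun c => P.lane 6700 c (D.G 0 a) ≤ P.lane (6484 + z) c (D.G 0 a)) ∧
  (D.SC ≠ 0 → ∀ z < D.r + 1, D.SC < z → D.A1 fun c =>
    65535 ≤ P.lane (6484 + z) c (D.J true (D.SC + 1))) ∧
  ∀ a ∈ D.nr, ∀ z < D.r + 1, D.A1 fun c => (if a = 1 then c = 2 else infinal D.r D.r2 c (a - 1) = true) →
    P.lane 6700 c (D.G (D.ix 0) (a - 1)) ≤ P.lane (6464 + z) c (D.G (D.ix a) (a - 1))

/-- The charges for the squares with many letters before the seam. -/
def C5 : Prop := ∀ k < D.KG + 2, ∀ z < D.r + 1,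
  (D.r ≤ k → D.A1 fun c => ¬ (k ≤ D.KG ∧ 1 ≤ c / 10 ∧ k + 1 ≤ cf c + D.r) →
    D.par.cnt1 (k + 1) z * P.lane 6700 c (D.G 0 k) ≤ P.lane (6464 + z) c (D.G 0 k)) ∧
  (D.two = true → D.r ≤ k + 1 → D.A1 fun c =>
    D.par.cnt2 (k + 1) z * P.lane 6700 c (D.G 0 k) ≤ P.lane (6474 + z) c (D.G 0 k))

/-- The charges for the bans. -/
def C6 : Prop := D.AC fun cl => ∀ t < D.T + 2, 2 ≤ t → ∀ z < D.r + 1, z < t →
  if D.two = true ∧ 1 ≤ D.mu t z then
    ∀ δ < 3, (δ = 2 ∨ 22 ≤ 2 * t + 1 + δ) → D.A1 fun c =>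
      (if D.mu t z = 1 then 65535 else
        P.lane (6600 + (D.mu t z - 1)) c (D.A cl 0 (t + 2) (t - 1 + δ))) ≤
        P.lane (6474 + z) c (D.A cl 0 (t + 2) (t - 1 + δ))
  else D.A1 fun c => ¬ (cl = true ∧ D.SC ≤ D.mu t z ∧ 1 ≤ c / 10 ∧ D.SC ≤ cf c) →
    (if D.mu t z = 0 then 65535 else P.lane (6600 + D.mu t z) c (D.A cl 0 (t + 1) t)) ≤
      P.lane (6464 + z) c (D.A cl 0 (t + 1) t)

/-- The second letter. -/
def C7 : Prop := ∀ c < 20, ∀ s < 4, D.stF c s → C3.chkS P c s (D.J (D.cls c s) 2) = true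

set_option synthInstance.maxSize 4000

instance : Decidable (D.C0 P) := by unfold C0; infer_instance
instance : Decidable (D.C1 P) := by unfold C1; infer_instance
instance : Decidable (D.C2 P) := by unfold C2; infer_instance
instance : Decidable (D.C3 P) := by unfold C3; infer_instance
instance : Decidable (D.C4 P) := by unfold C4; infer_instance
instance : Decidable (D.C5 P) := by unfold C5; infer_instance
instance : Decidable (D.C6 P) := by unfold C6; infer_instance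
instance : Decidable (D.C7 P) := by unfold C7; infer_instance

/-- The class of the lists `L` with first letter `d`. -/
def cl (L : ℕ → Finset ℕ) (d : ℕ) : Bool := D.cls (ctx L 1) (mk2 (L 1) (L 2) d)

/-- The lane of arrival at time `s`, for the family `φ`. -/
def a (n : ℕ) (cl : Bool) (φ s : ℕ) : ℕ := D.A cl (D.ix φ) s (n - s)

/-- The lane of departure at time `s`, for the family `φ`. -/
def q (n : ℕ) (cl : Bool) (φ s : ℕ) : ℕ := pr P (D.a n cl φ (s + 1))

/-- The number of first letters that have four colours. -/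
def pre (cl : Bool) : ℕ := if cl = true then D.SC + 1 else 0

/-- The tables along the time. -/
def tb (L : ℕ → Finset ℕ) (n : ℕ) (cl : Bool) : Tb where
  E s := P.lane 6700 (ctx L s) (D.G (D.ix 0) (n - s)) *
    (((D.KG + 2 : ℕ) : ℝ) / (max (n - s + 1) (D.KG + 2) : ℕ))
  U j s := P.lane (6600 + j) (ctx L s) (D.a n cl 0 s)
  BL z s := if D.two = true ∨ D.r ≤ n - s then P.lane (6484 + z) (ctx L s) (D.a n cl 0 s) else 0
  S1 z s := P.lane (6464 + z) (ctx L s) (D.a n cl 0 s)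
  S2 _ := 0
  S3 z s := P.lane (6474 + z) (ctx L s) (D.a n cl 0 s)
  SN φ z s := P.lane (6464 + z) (ctx L s) (D.a n cl φ s)

variable {D P} {L : ℕ → Finset ℕ} {n d : ℕ}

theorem G_ind {k : ℕ} (h : D.two = true ∨ D.r ≤ k) (x y : ℕ) : D.G x k = D.G y k := by
  simp only [G, if_pos h]

theorem G_big {k : ℕ} (h : D.KG < k) (x : ℕ) : D.G x k = 0 := if_pos h

theorem G_clip (x k : ℕ) : D.G x k = D.G x (min k (D.KG + 1)) := by
  rcases le_total k (D.KG + 1) with h | h
  · rw [min_eq_left h]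
  · rw [min_eq_right h, G_big h, G_big (Nat.lt_succ_self _)]

theorem A_G {s k : ℕ} (h : D.KG + 1 < s ∨ k + 2 < s) (cl : Bool) (x : ℕ) :
    D.A cl x s k = D.G x k := if_neg (by omega)

theorem A_J {s k : ℕ} (h : s ≤ D.KG + 1) (h' : s ≤ k + 2) (cl : Bool) (x : ℕ) :
    D.A cl x s k = D.J cl s := if_pos ⟨h, h'⟩

theorem A_ind {k : ℕ} (h : D.two = true ∨ D.r ≤ k) (cl : Bool) (x y s : ℕ) :
    D.A cl x s k = D.A cl y s k := by
  simp only [A, G_ind h x y]

theorem ix_lt (φ : ℕ) : D.ix φ < D.nr.length + 1 := Nat.lt_succ_of_le List.idxOf_le_length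

theorem cl_sc (h : D.cl L d = true) : D.SC ≠ 0 := (of_decide_eq_true h).1

theorem AC.get {p : Bool → Prop} (h : D.AC p) (L : ℕ → Finset ℕ) (d : ℕ) : p (D.cl L d) := by
  cases k : D.cl L d
  exacts [h.1, h.2 (cl_sc k)]

theorem A1.get {p : ℕ → Prop} (h : D.A1 p) (H : Cut L n d D.r D.r2) {s : ℕ} (hs : s ≤ n) :
    p (ctx L s) := h _ (ctx_facts H.card s).1 (H.okc_ctx hs)

theorem A2.get {p : ℕ → ℕ → Prop} (h : D.A2 p) (H : Cut L n d D.r D.r2) {s : ℕ} (hs : s < n) :
    p (ctx L s) (ctx L (s + 1)) := A1.get h H hs.le _ (ctx_next H.card s) (H.okc_ctx hs)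

theorem bt_le (s : ℕ) : (P.bt (ctx L s) (ctx L (s + 1)) : ℝ) / 4096 ≤ C3.bet (P.bb L) s :=
  div_le_div_of_nonneg_right (Nat.cast_le.2 (le_max_right _ _)) (by norm_num)

end LD

theorem Cv.conv {P : C3.Par} {a q : ℕ} (h : Cv P a q) : a = q ∨ P.Conv a q := by
  refine h.imp id fun h => ⟨h.1, h.2.1, ?_⟩
  have key : ∀ l : C3.OL, cvB l a q = true → ∃ i M, i ≤ a ∧ i ≤ q ∧ a - i < 2048 ∧
      l.mem (32 * (a - i) + 65536 * (32 * (q - i))) M ∧ dig M (32 * i) = 2 ^ 24 - 1 := by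
    intro l
    induction l with
    | nil => exact fun h => absurd h Bool.false_ne_true
    | cons s M t ih =>
      intro h
      rcases (C3.bor_iff _ (cvB t a q)).1 h with k | k
      · obtain ⟨k1, k2, k3⟩ := of_decide_eq_true k
        exact ⟨_, M, by omega, k1, by omega, Or.inl ⟨k2.symm, rfl⟩, k3⟩
      · obtain ⟨i, M', k1, k2, k3, k4, k5⟩ := ih k
        exact ⟨i, M', k1, k2, k3, Or.inr k4, k5⟩
  exact key _ h.2.2

end

end Pool.Agent.Work.MP_7cb3ca_co.Fn
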