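import Pool.Agent.Work.MP_7cb3ca_co.Fn.Lane0

/-! The finite checks give the lanes along the time. -/

namespace Pool.Agent.Work.MP_7cb3ca_co.Fn.LD

open P3

variable {D : LD} {P : C3.Par} {L : ℕ → Finset ℕ} {n d : ℕ}

theorem lanes (h0 : D.C0 P) (h1 : D.C1 P) (h2 : D.C2 P) (H : Cut L n d D.r D.r2) (hn : 22 ≤ n)
    (φ : ℕ) : C3.Lanes P L n 2 (D.a n (D.cl L d) φ) (D.q P n (D.cl L d) φ) := by
  have h1 := h1.get L d
  have b1 := h0.2.2.2.1
  have b2 := h0.2.2.2.2.2.2.1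
  have h2' := fun k => h2 _ (ix_lt φ) (min k (D.KG + 1)) (by omega)
  have key : ∀ s, 2 ≤ s → s < n → P.Pred (D.a n (D.cl L d) φ (s + 1)) (D.q P n (D.cl L d) φ s) ∧
      P.Edge (ctx L s) (ctx L (s + 1)) (D.a n (D.cl L d) φ (s + 1)) ∧
      Cv P (D.a n (D.cl L d) φ s) (D.q P n (D.cl L d) φ s) := by
    intro s a1 a2
    unfold q a
    by_cases k : s + 1 ≤ D.KG + 1 ∧ s + 1 ≤ n - (s + 1) + 2
    · rw [A_J k.1 k.2, A_J (by omega) (by omega)]
      obtain ⟨c1, c2, -, -, c3⟩ := (h1 (s + 1) (by omega)).2.2.1 (by omega)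
      exact ⟨c1, c3.get H a2, c2⟩
    rw [A_G (by omega)]
    obtain ⟨c1, c2, -, -, c3⟩ := h2' (n - (s + 1))
    have c4 : D.KG < min (n - (s + 1)) (D.KG + 1) ∨ edge D.r D.r2 (ctx L s)
        (min (n - (s + 1)) (D.KG + 1) + 1) (ctx L (s + 1)) = true := by
      rcases Nat.lt_or_ge D.KG (n - (s + 1)) with m | m
      · exact Or.inl (by omega)
      · rw [show min (n - (s + 1)) (D.KG + 1) + 1 = n - s by omega]
        exact Or.inr (H.edge_ctx a2)
    refine ⟨by rwa [G_clip], ?_, ?_⟩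
    · rw [G_clip]
      rcases Nat.lt_or_ge (min (n - (s + 1)) (D.KG + 1)) D.r with m | m
      · exact (c3 (Or.inr m)).get H a2 c4
      · rw [G_ind (Or.inr m) _ 0]
        exact ((h2 0 (by omega) _ (by omega)).2.2.2.2 (Or.inl rfl)).get H a2 c4
    · by_cases m : s ≤ D.KG + 1 ∧ s ≤ n - s + 2
      · rw [A_J m.1 m.2, G_ind (Or.inr (by omega)) _ 0, G_clip,
          show min (n - (s + 1)) (D.KG + 1) = min (s + min (n - s + 2 - s) 3 - 3) (D.KG + 1) by omega,
          ← G_clip]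
        exact (h1 s (by omega)).2.2.2 _ (by omega) (by omega) (by omega)
      · rw [A_G (by omega), G_clip _ (n - (s + 1)), G_clip, show min (n - s) (D.KG + 1) =
          min (min (n - (s + 1)) (D.KG + 1) + 1) (D.KG + 1) by omega, ← G_clip]
        exact c2
  refine ⟨fun s => ?_, fun s a1 a2 => (key s a1 a2).1, fun s a1 a2 => (key s a1 a2).2.1,
    fun s a1 a2 => (key s a1 a2).2.2.conv⟩
  unfold a A
  split_ifs with k
  · exact (h1 s (by omega)).1
  · rw [G_clip]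
    exact (h2' _).1.1

theorem start (H : Cut L n d D.r D.r2) :
    ctx L 1 < 20 ∧ mk2 (L 1) (L 2) d < 4 ∧ D.stF (ctx L 1) (mk2 (L 1) (L 2) d) := by
  have a1 := ctx_div_le H.card 1
  obtain ⟨-, a2, -, a3⟩ := ctx_facts H.card 1
  have a4 := mb_le (L 1) d
  have a5 := mb_le (L 2) d
  have a6 := mb_eq_one (s := L 1) (a := d)
  have a7 := mb_eq_one (s := L 2) (a := d)
  unfold mk2
  refine ⟨by omega, by omega, H.okc_ctx H.pos, fun k => ?_, fun k => ?_, fun k => ?_⟩
  · have b := Finset.eq_of_subset_of_card_le (Finset.sdiff_subset (s := L 1) (t := L 2))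
      (by rw [H.card, ← a3, k.2])
    exact (Finset.mem_sdiff.1 (b.ge (a6.1 (by omega)))).2 (a7.1 (by omega))
  · have b : L 1 = L 2 := Finset.eq_of_subset_of_card_le
      (Finset.sdiff_eq_empty_iff_subset.1 (Finset.card_eq_zero.1 (a3 ▸ k.2)))
      (by rw [H.card, H.card])
    rw [b] at k
    omega
  · have b := el_spec (L := L) 1 1 (by omega)
    have := a6.2 (b ▸ H.mem)
    omega

theorem link (h0 : D.C0 P) (h1 : D.C1 P) (h2 : D.C2 P) (h3 : D.C3 P) (h7 : D.C7 P)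
    (H : Cut L n d D.r D.r2) (hn : 22 ≤ n) :
    Link P D.par L n d (D.tb P L n (D.cl L d)) (D.a n (D.cl L d)) (D.q P n (D.cl L d)) := by
  have HL := lanes h0 h1 h2 H hn
  have h1 := h1.get L d
  obtain ⟨-, b1, b2, b3, b4, b5, b6, -, b7, b8, -, b9, b10, -⟩ := h0
  have e1 : D.par.r = D.r := rfl
  have e2 : D.par.ke = if D.two = true then 0 else D.r := rfl
  have e3 : ∀ φ s, (D.two = true ∨ D.r ≤ n - s) →
      D.a n (D.cl L d) φ s = D.a n (D.cl L d) 0 s := fun φ s h => A_ind h _ _ _ _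
  have e4 : ∀ x, D.G x 0 = D.lf := fun x => by
    have := H.one
    cases k : D.two
    · simp [G, k, show D.r ≠ 0 by omega]
    · simp [G, lf, k, add_comm]
  have e5 := fun φ k => h2 _ (ix_lt φ) (min k (D.KG + 1)) (by omega)
  have e6 : ∀ φ i s, i < 64 → s ≤ n → P.lane i (ctx L s) (D.KG + 3 - D.r + D.ix φ) =
      P.lane i (ctx L s) (D.KG + 3 - D.r + D.nr.length) := fun φ i s hi hs => by
    rcases (Nat.lt_succ_iff.1 (ix_lt (D := D) φ)).eq_or_lt with k | k
    · rw [k]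
    · exact (h3.2.2 _ k i hi).get H hs
  refine ⟨b1, b2, ⟨by rw [e1, e2]; split_ifs <;> omega, by omega⟩, HL, fun φ s h => ?_,
    fun φ i s hi hs => ?_, fun φ s a1 a2 => ?_, fun φ a1 a2 => ?_, fun φ h t a1 a2 a3 a4 => ?_,
    fun φ t a1 a2 => ?_, fun p z a1 a2 _ a3 => b10 p a2 z (Nat.lt_succ_of_le a3) a1, ⟨?_, ?_⟩,
    fun i s hi _ _ => ?_, fun φ j s _ h => ?_, fun φ z s _ _ _ => ?_, fun φ z s _ _ _ h => ?_,
    fun φ z s _ _ _ _ _ => le_rfl, fun φ s _ _ _ => Nat.cast_nonneg _, fun φ z s _ _ _ h => ?_⟩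
  · refine congrArg (pr P) (e3 φ (s + 1) ?_)
    rw [e2] at h
    split_ifs at h with k
    exacts [Or.inl k, Or.inr (by omega)]
  · unfold a A G
    split_ifs
    exacts [rfl, rfl, rfl, rfl, (e6 _ i s hi (by omega)).trans (e6 _ i s hi (by omega)).symm]
  · rw [b8]
    refine ⟨fun k => ?_, fun k => by rw [k, a, A_G (by omega), tsub_self, e4]⟩
    by_contra m
    unfold a A at k
    split_ifs at k
    · exact (h1 s (by omega)).2.1 k
    · exact (e5 φ (n - s)).2.2.1 (by omega) (G_clip _ _ ▸ k)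
  · have a3 : D.two = false := a1
    have a4 : D.par.ke = D.r := by rw [e2, if_neg (by simp [a3])]
    have := H.one
    rw [a4, q, a, a, A_G (by omega), A_G (by omega), show n - (n - D.r) = D.r by omega,
      show n - (n - D.r + 1) = D.r - 1 by omega]
    exact ⟨(G_ind (Or.inr le_rfl) _ _).trans (b9 a3).1.symm, ((b9 a3).2 _ (ix_lt φ)).conv⟩
  · unfold a A
    split_ifs
    · exact ((h1 (t + 1) (by omega)).2.2.1 (by omega)).2.2.2.1 h (by omega) (by omega)
    · rw [G_clip]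
      exact (e5 φ _).2.2.2.1 h (by omega)
  · rw [a, A_J (by omega) (by omega)]
    exact ((h1 (t + 1) (by omega)).2.2.1 (by omega)).2.2.1 (by omega)
  · rw [a, A_J (by omega) (by omega)]
    exact h7 _ (start H).1 _ (start H).2.1 (start H).2.2
  · exact (((h1 3 (by omega)).2.2.1 le_rfl).2.2.2.2.get H (s := 1) (by omega)).1
  · exact Nat.cast_le.2 (C3.domR_spec
      (h3.1 i hi _ (by have := (ctx_facts H.card s).1; omega)) ((HL 0).lt s))
  · rw [e3 φ s (Or.inr (by omega))]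
    exact le_rfl
  · simp only [tb]
    split_ifs with k
    · rw [e3 φ s k]
    · exact Nat.cast_nonneg _
  · rw [e3 φ s (by rw [e2] at h; split_ifs at h with k; exacts [Or.inl k, h])]
    exact le_rfl
  · rw [e3 φ s (Or.inl h)]
    exact le_rfl

end Pool.Agent.Work.MP_7cb3ca_co.Fn.LD
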