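import Pool.Agent.Work.MP_7cb3ca_co.Fn.Lane0

/-! The finite checks give the costs of the events at the seam. -/

namespace Pool.Agent.Work.MP_7cb3ca_co.Fn.LD

open P3

variable {D : LD} {P : C3.Par} {L : ℕ → Finset ℕ} {n d : ℕ} {cl : Bool}

theorem E_eq {s : ℕ} (h : n - s ≤ D.KG + 1) :
    (D.tb P L n cl).E s = P.lane 6700 (ctx L s) (D.G (D.ix 0) (n - s)) := by
  show _ * _ = _
  rw [max_eq_right (by omega), div_self (by positivity), mul_one]

theorem E_big {s : ℕ} (h : D.KG < n - s) : (D.tb P L n cl).E s =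
    P.lane 6700 (ctx L s) 0 * (((D.KG : ℝ) + 2) / (((n - s : ℕ) : ℝ) + 1)) := by
  show _ * _ = _
  rw [max_eq_left (by omega), G_big h]
  push_cast
  rfl

theorem E_le (s : ℕ) : (D.tb P L n cl).E s ≤ P.lane 6700 (ctx L s) (D.G (D.ix 0) (n - s)) :=
  mul_le_of_le_one_right (Nat.cast_nonneg _)
    (div_le_one_of_le₀ (Nat.cast_le.2 (le_max_right _ _)) (Nat.cast_nonneg _))

theorem bet_le (t : ℕ) {x y : ℕ} (h : 4096 * x ≤ P.bt (ctx L t) (ctx L (t + 1)) * y) :
    (x : ℝ) ≤ C3.bet (P.bb L) t * y := by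
  refine le_trans ?_ (mul_le_mul_of_nonneg_right (bt_le t) (Nat.cast_nonneg y))
  rw [div_mul_eq_mul_div, le_div_iff₀' (by norm_num)]
  exact_mod_cast h

theorem chg_e1 (h0 : D.C0 P) (H : Cut L n d D.r D.r2) :
    ((P.tau % 65536 : ℕ) : ℝ) ≤ (D.tb P L n cl).E n := by
  have h1 := H.one
  have h2 : D.G (D.ix 0) (n - n) = D.lf := by
    rw [Nat.sub_self]
    unfold G lf
    split_ifs <;> simp_all <;> omega
  rw [E_eq (by omega), h2, H.ctx_end]
  exact Nat.cast_le.2 h0.2.2.2.2.2.2.2.2.2.2.2.2.2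

theorem chg_e2 (h4 : D.C4 P) (H : Cut L n d D.r D.r2) (t : ℕ) (ht : t < n) :
    (D.tb P L n cl).E (t + 1) ≤ C3.bet (P.bb L) t * (D.tb P L n cl).E t := by
  have e : n - t = n - (t + 1) + 1 := by omega
  rcases Nat.lt_or_ge D.KG (n - (t + 1)) with k | k
  · have h1 : ((D.KG : ℝ) + 3) * (4096 * P.lane 6700 (ctx L (t + 1)) 0) ≤ (D.KG + 2) *
        (P.bt (ctx L t) (ctx L (t + 1)) * P.lane 6700 (ctx L t) 0) := by
      exact_mod_cast A2.get h4.2.1 H ht
    have h2 := bt_le (P := P) (L := L) t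
    have h3 : (D.KG : ℝ) + 1 ≤ (n - (t + 1) : ℕ) := by exact_mod_cast k
    rw [E_big k, E_big (by omega), e]
    push_cast
    have h5 : (0 : ℝ) ≤ P.lane 6700 (ctx L (t + 1)) 0 := Nat.cast_nonneg _
    have h6 : (0 : ℝ) ≤ P.lane 6700 (ctx L t) 0 := Nat.cast_nonneg _
    have h7 : (0 : ℝ) ≤ D.KG := Nat.cast_nonneg _
    have h8 := mul_le_mul_of_nonneg_right h2 h6
    generalize (P.lane 6700 (ctx L (t + 1)) 0 : ℝ) = x at *
    generalize (P.lane 6700 (ctx L t) 0 : ℝ) = y at *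
    generalize ((n - (t + 1) : ℕ) : ℝ) = m at *
    generalize (D.KG : ℝ) = K at *
    rw [← mul_assoc]
    generalize C3.bet (P.bb L) t * y = w at *
    have h9 : (K + 3) * x ≤ (K + 2) * w := by
      have := mul_le_mul_of_nonneg_left h8 (by linarith : 0 ≤ K + 2)
      linarith
    have hw : x ≤ w := by
      refine le_of_mul_le_mul_left ?_ (by linarith : 0 < K + 2)
      linarith
    rw [← mul_div_assoc, ← mul_div_assoc, div_le_div_iff₀ (by linarith) (by linarith)]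
    have h10 := mul_le_mul_of_nonneg_left hw (sub_nonneg.2 h3)
    have h11 : x * (m + 1 + 1) ≤ w * (m + 1) := by linarith
    have h12 := mul_le_mul_of_nonneg_left h11 (by linarith : 0 ≤ K + 2)
    linarith
  · rw [E_eq (by omega), E_eq (by omega), e]
    exact bet_le t (A2.get (h4.1 _ (Nat.lt_succ_of_le k)) H ht (e ▸ H.edge_ctx ht))

theorem chg_u1 (h3 : D.C3 P) (H : Cut L n d D.r D.r2)
    (HL : C3.Lanes P L n 2 (D.a n cl 0) (D.q P n cl 0)) (j t : ℕ) (hj : j < 44) (h2 : 2 ≤ t)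
    (ht : t < n) :
    (D.tb P L n cl).U j (t + 1) ≤ C3.bet (P.bb L) t * (D.tb P L n cl).U (j + 1) t := by
  have hc := (ctx_facts H.card t).1
  have h1 := C3.stepR_spec ((h3.2.1 j hj).1 _ hc) (C3.nxt_dec hc (ctx_next H.card t))
    (HL.pred t h2 ht) (HL.edge t h2 ht).2
  refine bet_le t (h1.trans (Nat.mul_le_mul_left _ ?_))
  rw [show 6600 + (j + 1) = 6601 + j by omega]
  rcases HL.conv t h2 ht with k | k
  · rw [k]
  · exact C3.convR_spec ((h3.2.1 j hj).2 _ (by omega)) k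

theorem chg_far (h0 : D.C0 P) (h4 : D.C4 P) (H : Cut L n d D.r D.r2) (i z : ℕ)
    (hi : D.par.live i) (hn : 2 * (D.par.α i + 1) < n) (hz : z ≤ D.r) :
    (D.tb P L n cl).E (n - D.par.α i) ≤ (D.tb P L n cl).BL z (n - D.par.α i) := by
  have h1 : D.blind (D.par.α i) = true := h0.1.blind hi
  generalize D.par.α i = a at h1 hn
  obtain ⟨h2, h3⟩ := h4.2.2.1 (min a (D.KG + 1)) (by omega) (by
    rcases le_total a (D.KG + 1) with k | k
    · rw [min_eq_left k]
      exact Or.inr h1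
    · exact Or.inl (by omega))
  have h5 : D.two = true ∨ D.r ≤ a := h2.imp id fun k => k.trans (min_le_left _ _)
  have e : n - (n - a) = a := by omega
  have h6 := A1.get (h3 z (by omega)) H (Nat.sub_le n a)
  rw [← G_clip, G_ind h5 0 (D.ix 0)] at h6
  refine (E_le _).trans ?_
  simp only [tb, LD.a]
  rw [e, if_pos h5, A_G (Or.inr (by omega))]
  exact Nat.cast_le.2 h6

theorem chg_pf (h0 : D.C0 P) (h4 : D.C4 P) (H : Cut L n d D.r D.r2) (hn : 22 ≤ n)
    (hp : D.pre (D.cl L d) ≠ 0) : 3 ≤ D.pre (D.cl L d) ∧ D.pre (D.cl L d) ≤ D.r ∧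
      D.pre (D.cl L d) < n ∧ ∀ z, D.pre (D.cl L d) ≤ z → z ≤ D.r →
        (65535 : ℝ) ≤ (D.tb P L n (D.cl L d)).BL z (D.pre (D.cl L d)) := by
  have h1 : D.cl L d = true := by
    by_contra k
    exact hp (if_neg k)
  have h2 := cl_sc h1
  obtain ⟨-, -, -, a1, -, -, a2, -, -, -, a3, -⟩ := h0
  obtain ⟨a4, a5, -⟩ := a3 h2
  rw [h1, show D.pre true = D.SC + 1 from if_pos rfl]
  refine ⟨by omega, a5, by omega, fun z k1 k2 => ?_⟩
  have h3 := A1.get (h4.2.2.2.1 h2 z (by omega) k1) H (s := D.SC + 1) (by omega)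
  simp only [tb, LD.a]
  rw [if_pos (Or.inr (by omega)), A_J (by omega) (by omega)]
  exact_mod_cast h3

theorem chg_nr (h0 : D.C0 P) (h4 : D.C4 P) (H : Cut L n d D.r D.r2) (a z : ℕ)
    (ha : D.par.nr a = true) (hn : 2 * (a + 1) < n) (hz : z ≤ D.r) :
    (D.tb P L n cl).E (n - a + 1) ≤ if D.two = true then (D.tb P L n cl).S2 (n - a + 1)
      else (D.tb P L n cl).SN a z (n - a + 1) := by
  obtain ⟨h1, h2⟩ := h0.1.nr ha
  have h3 : a ∈ D.nr := by simpa [PD.par] using ha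
  have h5 : ¬ D.two = true := fun k => by
    rw [h0.2.2.2.2.2.2.2.2.1 k] at h3
    exact List.not_mem_nil h3
  have e : n - (n - a + 1) = a - 1 := by omega
  have h6 := A1.get (h4.2.2.2.2 a h3 z (by omega)) H (s := n - a + 1) (by omega) (by
    split_ifs with k
    · rw [show n - a + 1 = n by omega]
      exact H.ctx_end
    · exact e ▸ H.infinal_last (by omega) (by omega))
  rw [if_neg h5]
  refine (E_le _).trans ?_
  simp only [tb, LD.a]
  rw [e, A_G (Or.inr (by omega))]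
  exact Nat.cast_le.2 h6

end Pool.Agent.Work.MP_7cb3ca_co.Fn.LD
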