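import Pool.Agent.Work.MP_7cb3ca_co.Fn.Lane0

/-! The finite checks give the charges for the labels. -/

namespace Pool.Agent.Work.MP_7cb3ca_co.Fn.LD

open P3

variable {D : LD} {P : C3.Par} {L : ℕ → Finset ℕ} {n d : ℕ} {cl : Bool}

theorem scale {a b m M x y : ℕ} (hM : 0 < M) (h1 : a * m ≤ b * M) (h2 : b * x ≤ y) :
    (a : ℝ) * (x * ((m : ℝ) / M)) ≤ y := by
  have h3 : (0 : ℝ) < M := by exact_mod_cast hM
  have h4 : a * (x * m) ≤ y * M := by
    calc a * (x * m) = x * (a * m) := by ring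
      _ ≤ x * (b * M) := Nat.mul_le_mul_left _ h1
      _ = b * x * M := by ring
      _ ≤ y * M := Nat.mul_le_mul_right _ h2
  rw [← mul_div_assoc, ← mul_div_assoc, div_le_iff₀ h3]
  exact_mod_cast h4

theorem cnt2_clip (Q : Par) (k m z : ℕ) :
    Q.cnt2 (k + 1) z * (m + 1) ≤ Q.cnt2 (min k m + 1) z * max (k + 1) (m + 1) := by
  rcases le_total k m with h | h
  · rw [min_eq_left h, max_eq_right (by omega)]
  · rw [min_eq_right h, max_eq_left (by omega)]
    unfold Par.cnt2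
    split_ifs
    · exact (mul_comm _ _).le
    · rcases le_total z m with h' | h'
      · rw [min_eq_left (by omega), min_eq_left (by omega)]
        exact Nat.mul_le_mul_left _ (by omega)
      · rw [min_eq_right (show m + 1 ≤ z + 1 by omega), mul_comm]
        exact Nat.mul_le_mul_left _ (min_le_right _ _)

theorem cnt1_clip (Q : Par) (k m z : ℕ) :
    Q.cnt1 (k + 1) z * (m + 1) ≤ Q.cnt1 (min k m + 1) z * max (k + 1) (m + 1) := by
  have := cnt2_clip Q k m z
  unfold Par.cnt1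
  by_cases h : Q.two = true
  · rw [if_pos h, if_pos h]
    split_ifs <;> omega
  · rwa [if_neg h, if_neg h]

theorem chg_s1 (h0 : D.C0 P) (h5 : D.C5 P) (H : Cut L n d D.r D.r2) (t z : ℕ) (h1 : n < 2 * t)
    (ht : t < n) (hz : z ≤ D.r) (hd : d ∈ L t) :
    D.par.cnt1 (n - t) z * (D.tb P L n cl).E (t + 1) ≤ (D.tb P L n cl).S1 z (t + 1) := by
  obtain ⟨-, -, -, a1, -, -, a2, -⟩ := h0
  have a3 : ¬ n ≤ t + D.r := fun k => H.nmem_last k ht hd
  have a4 := A1.get ((h5 (min (n - (t + 1)) (D.KG + 1)) (by omega) z (by omega)).1 (by omega)) H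
    (s := t + 1) ht fun k => H.sure ht k.2.1 (by omega) hd
  simp only [tb, a]
  rw [A_G (Or.inr (by omega)), G_ind (Or.inr (by omega)) _ 0, G_clip,
    show n - t = n - (t + 1) + 1 by omega]
  exact scale (by omega) (cnt1_clip _ _ _ _) a4

theorem chg_s3 (h0 : D.C0 P) (h5 : D.C5 P) (H : Cut L n d D.r D.r2) (t z : ℕ) (h2 : D.two = true)
    (h1 : n < 2 * t) (ht : t + 1 < n) (hz : z ≤ D.r) (hd : d ∈ L t) :
    D.par.cnt2 (n - (t + 1)) z * (D.tb P L n cl).E (t + 2) ≤ (D.tb P L n cl).S3 z (t + 2) := by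
  obtain ⟨-, -, -, a1, -, -, a2, -⟩ := h0
  have a3 : ¬ n ≤ t + D.r := fun k => H.nmem_last k (by omega) hd
  have a4 := A1.get ((h5 (min (n - (t + 2)) (D.KG + 1)) (by omega) z (by omega)).2 h2 (by omega)) H
    (s := t + 2) ht
  simp only [tb, a]
  rw [A_G (Or.inr (by omega)), G_ind (Or.inl h2) _ 0, G_clip,
    show n - (t + 1) = n - (t + 2) + 1 by omega]
  exact scale (by omega) (cnt2_clip _ _ _ _) a4

theorem mu_clip' (t z : ℕ) : D.mu (min t (D.T + 1)) z = D.mu t z := by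
  rw [PD.mu_clip, PD.mu_clip t, show min (min t (D.T + 1)) D.T = min t D.T by omega]

theorem chg_b1 (h0 : D.C0 P) (h6 : D.C6 P) (H : Cut L n d D.r D.r2) (t z : ℕ) (h2 : 2 ≤ t)
    (h1 : 2 * t < n) (hzt : z < t) (hz : z ≤ D.r) (hl : D.par.late t z = false)
    (hv : ¬ D.par.void L (D.pre (D.cl L d)) t z) :
    (if D.par.μ t z = 0 then (65535 : ℝ) else (D.tb P L n (D.cl L d)).U (D.par.μ t z) (t + 1)) ≤
      (D.tb P L n (D.cl L d)).S1 z (t + 1) := by
  obtain ⟨-, -, -, a1, -, -, a2, a3, -⟩ := h0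
  have a4 := AC.get h6 L d (min t (D.T + 1)) (by omega) (by omega) z (by omega) (by omega)
  rw [mu_clip', if_neg (by simpa [PD.par] using hl)] at a4
  have a5 := A1.get a4 H (s := t + 1) (by omega) fun k => hv (by
    rw [pre, if_pos k.1]
    exact ⟨by omega, Nat.succ_le_succ k.2.1, pre_eq H.card k.2.2.1 (by omega)⟩)
  have a6 : D.A (D.cl L d) 0 (min t (D.T + 1) + 1) (min t (D.T + 1)) =
      D.a n (D.cl L d) 0 (t + 1) := by
    unfold a
    by_cases k : t ≤ D.KG
    · rw [A_J (by omega) (by omega), A_J (by omega) (by omega), min_eq_left (by omega)]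
    · rw [A_G (by omega), A_G (by omega), G_big (by omega), G_big (by omega)]
  rw [a6] at a5
  simp only [tb, PD.par]
  split_ifs at a5 ⊢ <;> exact_mod_cast a5

theorem chg_b3 (h0 : D.C0 P) (h6 : D.C6 P) (H : Cut L n d D.r D.r2) (hn : 22 ≤ n) (t z : ℕ)
    (h2 : 2 ≤ t) (h1 : 2 * t < n) (hzt : z < t) (hz : z ≤ D.r) (hl : D.par.late t z = true) :
    (if D.par.μ t z = 1 then (65535 : ℝ) else
      (D.tb P L n (D.cl L d)).U (D.par.μ t z - 1) (t + 2)) ≤
      (D.tb P L n (D.cl L d)).S3 z (t + 2) := by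
  obtain ⟨-, -, -, a1, -, -, a2, a3, -⟩ := h0
  have a4 := AC.get h6 L d (min t (D.T + 1)) (by omega) (by omega) z (by omega) (by omega)
  have a7 : D.two = true ∧ 1 ≤ D.mu t z := by simpa [PD.par] using hl
  rw [mu_clip', if_pos a7] at a4
  have a5 := A1.get (a4 (min (n - (t + 2) - (t - 1)) 2) (by omega) (by omega)) H (s := t + 2)
    (by omega)
  have a6 : D.A (D.cl L d) 0 (min t (D.T + 1) + 2)
      (min t (D.T + 1) - 1 + min (n - (t + 2) - (t - 1)) 2) = D.a n (D.cl L d) 0 (t + 2) := by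
    unfold a
    rw [A_ind (Or.inl a7.1) _ (D.ix 0) 0]
    by_cases k : min t (D.T + 1) = t ∧ n - (t + 2) - (t - 1) ≤ 2
    · rw [k.1, min_eq_left k.2, show t - 1 + (n - (t + 2) - (t - 1)) = n - (t + 2) by omega]
    by_cases k' : t + 1 ≤ D.KG
    · rw [A_J (by omega) (by omega), A_J (by omega) (by omega), min_eq_left (by omega)]
    · rw [A_G (by omega), A_G (by omega), G_big (by omega), G_big (by omega)]
  rw [a6] at a5
  simp only [tb, PD.par]
  split_ifs at a5 ⊢ <;> exact_mod_cast a5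

end Pool.Agent.Work.MP_7cb3ca_co.Fn.LD
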