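import Pool.Agent.Work.MP_7cb3ca_co.Fn.Lane1
import Pool.Agent.Work.MP_7cb3ca_co.Fn.Lane2
import Pool.Agent.Work.MP_7cb3ca_co.Fn.Lane3
import Pool.Agent.Work.MP_7cb3ca_co.Fn.Glue

/-! A certificate and the finite checks of its layout give an instance. -/

namespace Pool.Agent.Work.MP_7cb3ca_co.Fn.LD

open P3

variable {D : LD} {P : C3.Par}

theorem chg {L : ℕ → Finset ℕ} {n d : ℕ} (h0 : D.C0 P) (h1 : D.C1 P) (h2 : D.C2 P) (h3 : D.C3 P)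
    (h4 : D.C4 P) (h5 : D.C5 P) (h6 : D.C6 P) (H : Cut L n d D.r D.r2) (hn : 22 ≤ n) :
    Chg D.par L n d (D.pre (D.cl L d)) (C3.bet (P.bb L)) 65535 (P.tau % 65536 : ℕ)
      (D.tb P L n (D.cl L d)) where
  nn j s := ⟨by simp only [tb]; positivity, Nat.cast_nonneg _,
    by simp only [tb]; split_ifs <;> positivity, Nat.cast_nonneg _, le_rfl, Nat.cast_nonneg _⟩
  nn' _ _ _ := Nat.cast_nonneg _
  e1 := chg_e1 h0 H
  e2 t _ ht := chg_e2 h4 H t ht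
  u1 j t a b c := chg_u1 h3 H (lanes h0 h1 h2 H hn 0) j t a b (by omega)
  far := chg_far h0 h4 H
  pf := chg_pf h0 h4 H hn
  s1 := chg_s1 h0 h5 H
  b1 t z a b c e _ := chg_b1 h0 h6 H t z a b c e
  nr a z _ := chg_nr h0 h4 H a z
  s3 := fun t z => chg_s3 h0 h5 H t z
  b3 t z a b c e _ f _ := chg_b3 h0 h6 H hn t z a b c e f

theorem inst (H : C3.CertE P) (h0 : D.C0 P) (h1 : D.C1 P) (h2 : D.C2 P) (h3 : D.C3 P)
    (h4 : D.C4 P) (h5 : D.C5 P) (h6 : D.C6 P) (h7 : D.C7 P) {r2 : ℕ} (h : D.r2 < 99 → r2 ≤ D.r2) :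
    ∀ n, 22 ≤ n → ∀ L d, SH n D.r r2 L d → Cyc n L := fun _ hn _ _ S =>
  have K := S.cut (by omega) h0.1.1 h
  fin H h0.1.ok S (link h0 h1 h2 h3 h7 K hn) (chg h0 h1 h2 h3 h4 h5 h6 K hn)

end Pool.Agent.Work.MP_7cb3ca_co.Fn.LD
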