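import Pool.Agent.Work.MP_7cb3ca_co.Fn.Charge

/-! The run of the construction. -/

namespace Pool.Agent.Work.MP_7cb3ca_co.Fn

open Finset Function

variable {Q : Par} {L : ℕ → Finset ℕ} {n d pre ts : ℕ} {β : ℕ → ℝ} {top τ : ℝ} {B : Tb}
  {I : ℕ → (ℕ → ℕ) → ℕ → ℝ → Prop}

/-- The properties of the letters before time `t`. -/
def Good (L : ℕ → Finset ℕ) (d pre t : ℕ) (f : ℕ → ℕ) : Prop :=
  f 0 = d ∧ f 1 ≠ d ∧ (∀ j < t, f j ∈ L j) ∧ (pre ≠ 0 → pre ≤ t → 3 < ((range pre).image f).card)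

theorem F_nonneg (H : Hyp Q L n d pre β top τ B) (hτ : 0 ≤ τ) (E : Ix) : 0 ≤ Q.F top τ B E := by
  rcases E with ⟨p, b⟩ | ⟨p, z⟩ | p | i <;> simp only [Par.F, hτ]
  exact ite_nonneg H.top (H.chg.nn _ _).2.1

theorem anch_nonneg (H : Hyp Q L n d pre β top τ B) (s : ℕ) (f : ℕ → ℕ) : 0 ≤ anch Q B d s f :=
  sum_nonneg fun _ _ => (H.chg.nn _ _).2.1

theorem lab_nonneg (H : Hyp Q L n d pre β top τ B) (t : ℕ) (f : ℕ → ℕ) (x z : ℕ) :
    0 ≤ lab Q B n d t f x z :=
  add_nonneg (ite_nonneg (ite_nonneg (H.chg.nn _ _).2.2.2.1 le_rfl)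
    (ite_nonneg (H.chg.nn' _ _ _) le_rfl)) (ite_nonneg (add_nonneg
    (H.chg.nn 0 _).2.2.2.2.1 (ite_nonneg (H.chg.nn _ _).2.2.2.2.2 le_rfl)) le_rfl)

theorem Good.step (H : Hyp Q L n d pre β top τ B) {t x z0 : ℕ} {f : ℕ → ℕ} {e : ℝ}
    (G : Good L d pre t f) (h2 : 2 ≤ t) (hx : x ∈ L t) (he : e < if t + 1 = n then τ else top)
    (h1 : B.BL z0 (t + 1) ≤ e) (hz : z0 ≤ Q.r) (hz' : ∀ m ≤ Q.r, m ≤ t + 1 →
      ((range m).image fun i => update f t x (t - i)).card ≤ 3 → m ≤ z0) :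
    Good L d pre (t + 1) (update f t x) := by
  refine ⟨(update_of_ne (by omega) _ _).trans G.1, by rw [update_of_ne (by omega)]; exact G.2.1,
    fun j hj => ?_, fun a b => ?_⟩
  · rcases eq_or_ne j t with rfl | h
    · rwa [update_self]
    · rw [update_of_ne h]; exact G.2.2.1 j (by omega)
  rcases b.eq_or_lt with b | b
  · obtain ⟨-, a1, a2, a3⟩ := H.chg.pf a
    by_contra k
    have a4 := a3 z0 (hz' pre a1 b.le (le_trans (card_le_card fun y hy => ?_) (not_lt.1 k))) hz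
    · rw [if_neg (by omega)] at he
      rw [b] at a4
      linarith
    · obtain ⟨i, hi, rfl⟩ := mem_image.1 hy
      exact mem_image_of_mem _ (mem_range.2 (by omega))
  · rw [image_congr (g := f) fun i hi => update_of_ne (by have := mem_range.1 hi; omega) _ _]
    exact G.2.2.2 a (by omega)

theorem old_le (H : Hyp Q L n d pre β top τ B) {s : ℕ} {f : ℕ → ℕ} (h2 : 2 ≤ s)
    (hs : 2 * s ≤ n + 2) (hv : ∀ E ∈ Q.S L n pre, Q.T n E ≤ s → ¬ Q.P n d E f) :
    ∑ E ∈ Q.S L n pre with Q.c n E ≤ s, Q.v L n d β top τ B s f E ≤ anch Q B d s f := by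
  classical
  obtain ⟨A, hA⟩ : ∃ A : Finset Ix, A = ((Ico 1 s).filter (anc f s)).image
    fun p => .inr (.inl (p, zeta Q.r f d p)) := ⟨_, rfl⟩
  have h1 : anch Q B d s f = ∑ E ∈ A, B.U (Q.T n E - s) s := by
    rw [hA, sum_image fun p _ p' _ e => by simpa using (by simpa using e : p = p' ∧ _).1]
    refine sum_congr rfl fun p hp => ?_
    have := mem_Ico.1 (mem_filter.1 hp).1
    simp only [Par.T]
    congr 1
    omega
  rw [h1]
  refine le_trans (sum_le_sum (g := fun E => if E ∈ A then B.U (Q.T n E - s) s else 0)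
    fun E hE => ?_) ?_
  · obtain ⟨hE, hc⟩ := mem_filter.1 hE
    refine le_of_not_gt fun k => ?_
    have k0 : 0 < Q.v L n d β top τ B s f E :=
      lt_of_le_of_lt (ite_nonneg (H.chg.nn _ _).2.1 le_rfl) k
    obtain ⟨g, a, hP⟩ := ev_pos k0
    rcases E with ⟨p, b⟩ | ⟨p, z⟩ | p | i <;>
      simp only [Par.mem1, Par.mem3, Par.mem4, Par.c] at hE hc
    · split_ifs at hc <;> omega
    · obtain ⟨a1, a2, a3, -⟩ := Par.mem2.1 hE
      have a4 : s < p + 1 + Q.μ p z := by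
        by_contra k'
        refine hv _ hE (not_lt.1 k') (Par.P_congr _ hE g f (fun i hi => a.1 i (Or.inl ?_)) hP)
        simp only [Par.T] at hi
        omega
      have a5 : p < s ∧ Q.μ p z ≠ if Q.late p z = true then 1 else 0 := by
        split_ifs at hc ⊢ <;> omega
      have a6 : zeta Q.r f d p = z := (zeta_congr _ _ (by omega)
        fun i hi => (a.1 i (Or.inl (by omega))).symm).trans hP.1
      rw [if_pos] at k
      · exact k.not_ge (v2_le H.chg H.pos H.ok hE h2 a5.1 a4.le a5.2)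
      · rw [hA]
        refine mem_image.2 ⟨p, mem_filter.2 ⟨mem_Ico.2 (by omega), fun i hi => ?_⟩, by rw [a6]⟩
        rw [← a.1 _ (Or.inl (by omega)), ← a.1 _ (Or.inl (by omega))]
        exact hP.2 i (by omega)
    · omega
    · omega
  · rw [← sum_filter]
    exact sum_le_sum_of_subset_of_nonneg (fun E hE => (mem_filter.1 hE).2)
      fun _ _ _ => (H.chg.nn _ _).2.1

theorem phase1 (H : Hyp Q L n d pre β top τ B) (hτ : 0 ≤ τ) (Y : Sys Q L n d ts β top τ B I)
    (hd : d ∈ L 0) (hn : 3 ≤ n) (hs : 2 * ts ≤ n + 2) : ∃ s f D, 2 ≤ s ∧ s ≤ n ∧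
      Good L d pre s f ∧ ¬ (s ≤ D ∧ s < ts) ∧ (∀ E ∈ Q.S L n pre, Q.T n E ≤ s → ¬ Q.P n d E f) ∧
      I s f D (∑ E ∈ Q.S L n pre with Q.c n E ≤ s, Q.v L n d β top τ B s f E) := by
  have key : ∀ k t f D e, t + k = max ts 2 → 2 ≤ t → Good L d pre t f →
      (∀ E ∈ Q.S L n pre, Q.T n E ≤ t → ¬ Q.P n d E f) → I t f D e → 0 ≤ e →
      (¬ (t ≤ D ∧ t < ts) → anch Q B d t f ≤ e) → ∃ s f D, 2 ≤ s ∧ s ≤ n ∧
      Good L d pre s f ∧ ¬ (s ≤ D ∧ s < ts) ∧ (∀ E ∈ Q.S L n pre, Q.T n E ≤ s → ¬ Q.P n d E f) ∧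
      I s f D (∑ E ∈ Q.S L n pre with Q.c n E ≤ s, Q.v L n d β top τ B s f E) := by
    intro k
    have fin := fun t f D e (h1 : t ≤ max ts 2) (h2 : 2 ≤ t)
      (hv : ∀ E ∈ Q.S L n pre, Q.T n E ≤ t → ¬ Q.P n d E f) (hI : I t f D e)
      (he : anch Q B d t f ≤ e) => Y.mono _ _ _ _ _ hI
        (sum_nonneg fun E _ => ev_nonneg H.pos (F_nonneg H hτ E) _ _ _)
        ((old_le H h2 (by omega) hv).trans he)
    induction k with
    | zero =>
      intro t f D e h1 h2 G hv hI _ he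
      exact ⟨t, f, D, h2, by omega, G, by omega, hv,
        fin t f D e (by omega) h2 hv hI (he (by omega))⟩
    | succ k ih =>
      intro t f D e h1 h2 G hv hI h0 he
      by_cases h : t ≤ D ∧ t < ts
      swap
      · exact ⟨t, f, D, h2, by omega, G, h, hv, fin t f D e (by omega) h2 hv hI (he h)⟩
      obtain ⟨x, hx, D', -, X, z0, z, a1, -, a2, a3, -, -, a4, a5⟩ := Y.step t f D e h2 (by omega)
        G.1 hI (fun _ => 0) (fun _ => le_rfl) (by simpa using mul_nonneg (H.pos t).le h0)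
      rw [if_pos h] at a4
      rw [zero_add] at a1
      have a6 := (H.chg.nn z0 (t + 1)).2.2.1
      have a7 := ite_nonneg (p := D' ≤ t ∨ ts ≤ t + 1) (anch_nonneg H (t + 1) (update f t x)) le_rfl
      refine ih (t + 1) _ D' X (by omega) (by omega)
        (G.step H h2 hx (Y.bound _ _ _ _ a1) (by linarith) a2 a3) (fun E hE k k' => ?_) a1
        (by linarith) fun k => by rw [if_pos (by omega)] at a4; linarith
      rcases k.eq_or_lt with k | k
      swap
      · exact hv E hE (by omega) (Par.P_congr E hE _ _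
          (fun i hi => update_of_ne (by omega) _ _) k')
      rcases E with ⟨p, b⟩ | ⟨p, z⟩ | p | i <;> simp only [Par.T] at k
      · omega
      · obtain ⟨b1, -⟩ := Par.mem2.1 hE
        have b2 := a5 h.1 h.2 p (by omega) (by omega) fun i hi => k'.2 i (by omega)
        rw [← zeta_congr (f := update f t x) _ _ (by omega)
          fun i hi => update_of_ne (by omega) _ _, k'.1] at b2
        omega
      · omega
      · omega
  obtain ⟨f, D, a1, a2, a3, a4⟩ := Y.start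
  refine key (max ts 2 - 2) 2 f D 0 (by omega) le_rfl ⟨a1, a3, fun j hj => ?_, fun a b => ?_⟩
    (fun E hE k k' => ?_) a4 le_rfl fun _ => le_of_eq (sum_eq_zero fun p hp => ?_)
  · interval_cases j
    exacts [a1 ▸ hd, a2]
  · have := (H.chg.pf a).1
    omega
  · rcases E with ⟨p, b⟩ | ⟨p, z⟩ | p | i <;> simp only [Par.T] at k
    · omega
    · obtain ⟨b1, -⟩ := Par.mem2.1 hE
      obtain rfl : p = 1 := by omega
      exact a3 ((k'.2 0 (Nat.zero_le _)).trans a1)
    · omega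
    · omega
  · classical
    obtain ⟨b1, b2⟩ := mem_filter.1 hp
    obtain rfl : p = 1 := by have := mem_Ico.1 b1; omega
    exact absurd ((b2 0 (by omega)).trans a1) a3

theorem run (H : Hyp Q L n d pre β top τ B) (hτ : 0 ≤ τ) (Y : Sys Q L n d ts β top τ B I)
    (hd : d ∈ L 0) (hn : 3 ≤ n) (hs : 2 * ts ≤ n + 2) : Cyc n L := by
  obtain ⟨s, f₀, D₀, a1, a2, a3, a4, a5, a6⟩ := phase1 H hτ Y hd hn hs
  obtain ⟨f, e, ⟨D, G, -, hI⟩, -, hv⟩ := debt_run (L := L) (Q.S L n pre) (Q.c n) (Q.T n) (Q.P n d)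
    (Q.F top τ B) H.pos (fun E _ => F_nonneg H hτ E) (Par.c_le H.ok) Par.P_congr
    (fun t f e => ∃ D, Good L d pre t f ∧ ¬ (t ≤ D ∧ t < ts) ∧ I t f D e) a2
    (by
      rintro t h1 h2 f e ⟨D, G, h, hI⟩ eo h3 h4
      obtain ⟨x, hx, D', b0, X, z0, z, b1, b2, b3, b4, b5, b6, b7, -⟩ :=
        Y.step t f D e (by omega) h2 G.1 hI eo h3 h4
      rw [if_neg h] at b7
      have c1 := (new_le H (by omega) h2 G.1 G.2.1 (G.2.2.1 _ (by omega)) hx b3 b5 b6).trans b7
      have c2 := Y.bound _ _ _ _ b1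
      have c3 := lab_nonneg H t f x z
      have c4 := (H.chg.nn z0 (t + 1)).2.2.1
      have c5 := h3 x
      have c6 := fun E => ev_nonneg (L := L) (P := Q.P n d E) H.pos (F_nonneg H hτ E)
        (Q.T n E - (t + 1)) (t + 1) (update f t x)
      refine ⟨x, hx, fun E hE k k' => ?_, fun E hE k k' k'' => ?_, D',
        G.step H (by omega) hx c2 (by linarith) b3 b4, by omega, Y.mono _ _ _ _ _ b1
          (add_nonneg c5 (sum_nonneg fun E _ => c6 E)) (add_le_add le_rfl c1)⟩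
      · rcases E with ⟨p, b⟩ | ⟨p, z⟩ | p | i <;> simp only [Par.T, Par.F, Par.c] at k k' ⊢
        · rw [if_pos k'.symm] at c2; linarith
        · obtain ⟨d1, d2, d3, -⟩ := Par.mem2.1 hE
          have := H.ok.lt p z d1 d2
          rw [if_neg (by split_ifs at k ⊢ <;> omega), k']
          exact b2 (by omega)
        · rw [if_pos k'.symm] at c2; linarith
        · rw [if_pos k'.symm] at c2; linarith
      · have c7 := (single_le_sum (f := Q.v L n d β top τ B (t + 1) (update f t x))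
          (fun E _ => c6 E) (mem_filter.2 ⟨hE, k⟩)).trans c1
        simp only [Par.v, k', tsub_self, ev, if_pos k''] at c7
        rcases E with ⟨p, b⟩ | ⟨p, z⟩ | p | i <;> simp only [Par.T, Par.F, Par.c] at k k' c7
        · rw [if_pos k'.symm] at c2; linarith
        · obtain ⟨d1, d2, d3, -⟩ := Par.mem2.1 hE
          have := H.ok.lt p z d1 d2
          rw [if_pos (by split_ifs at k ⊢ <;> omega)] at c7
          rw [if_neg (by omega)] at c2
          linarith
        · rw [if_pos k'.symm] at c2; linarith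
        · rw [if_pos k'.symm] at c2; linarith)
    a5 ⟨D₀, a3, a4, a6⟩
  exact Par.cover H.ok H.card H.out H.run G.2.2.1 G.1 (Y.free f D e hI)
    (fun a => G.2.2.2 a (H.chg.pf a).2.2.1.le) hv

end Pool.Agent.Work.MP_7cb3ca_co.Fn
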