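import Pool.Agent.Work.MP_7cb3ca_co.Fn.All
import Pool.Agent.Work.MP_7cb3ca_co.I1.I
import Pool.Agent.Work.MP_7cb3ca_co.I2.I
import Pool.Agent.Work.MP_7cb3ca_co.I3.I
import Pool.Agent.Work.MP_7cb3ca_co.I4.I
import Pool.Agent.Work.MP_7cb3ca_co.I5.I
import Pool.Agent.Work.MP_7cb3ca_co.I6.I
import Pool.Agent.Work.MP_7cb3ca_co.I8.I

/-! The seven instances cover every length of the final run. -/

namespace Pool.Agent.Work.MP_7cb3ca_co.Fn

theorem inst_top : ∀ r, 1 ≤ r → Inst r r :=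
  inst_seven I1.inst I2.inst I3.inst I4.inst I5.inst I6.inst I8.inst

end Pool.Agent.Work.MP_7cb3ca_co.Fn
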